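import Pool.Agent.HP42.SQ.Mult

/-!
Lower bounds: `p² + z₁ z₂ (w₁ w₂)² = q²`, `q - p = z₁ w₁²`, `q + p = z₂ w₂²` (helper42).
-/

set_option autoImplicit false

namespace Pool.Agent.HP42.SQ

open Finset Pool.Agent.H785R2.ABC

/-- the primes between `P / 4` and `P` -/
noncomputable def prs (P : ℝ) : Finset ℕ :=
  (Ioc 0 ⌊P⌋₊).filter fun p : ℕ => p.Prime ∧ P / 4 < p

theorem mem_prs {P : ℝ} (hP : 0 ≤ P) {p : ℕ} : p ∈ prs P ↔ p.Prime ∧ P / 4 < p ∧ (p : ℝ) ≤ P := by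
  rw [prs, mem_filter, mem_Ioc, Nat.le_floor_iff hP]
  constructor
  · rintro ⟨⟨h1, h2⟩, h3, h4⟩
    exact ⟨h3, h4, h2⟩
  · rintro ⟨h1, h2, h3⟩
    exact ⟨⟨h1.pos, h3⟩, h1, h2⟩

theorem prs_card {P : ℝ} (hP : 10 ^ 4 ≤ P) : P ≤ 10 * Real.log P * (prs P).card := by
  have h0 : (0 : ℝ) ≤ P := le_trans (by norm_num) hP
  have h1 := Pool.Agent.TH170.QC.theta_sub hP
  have h2 : Chebyshev.theta P - Chebyshev.theta (P / 4) = ∑ p ∈ prs P, Real.log (p : ℝ) := by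
    rw [Chebyshev.theta, Chebyshev.theta]
    have h3 : (Finset.Ioc 0 ⌊P⌋₊).filter (fun p : ℕ => p.Prime) =
        (Finset.Ioc 0 ⌊P / 4⌋₊).filter (fun p : ℕ => p.Prime) ∪ prs P := by
      ext p
      simp only [mem_union, mem_filter, mem_Ioc, prs]
      rw [Nat.le_floor_iff h0, Nat.le_floor_iff (by linarith)]
      constructor
      · rintro ⟨⟨h3, h4⟩, h5⟩
        rcases le_or_gt (p : ℝ) (P / 4) with h6 | h6
        · exact Or.inl ⟨⟨h3, h6⟩, h5⟩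
        · exact Or.inr ⟨⟨h3, h4⟩, h5, h6⟩
      · rintro (⟨⟨h3, h4⟩, h5⟩ | ⟨⟨h3, h4⟩, h5, h6⟩)
        · exact ⟨⟨h3, by linarith⟩, h5⟩
        · exact ⟨⟨h3, h4⟩, h5⟩
    rw [h3, sum_union, add_sub_cancel_left]
    rw [Finset.disjoint_left]
    intro p hp hp'
    simp only [prs, mem_filter, mem_Ioc] at hp hp'
    rw [Nat.le_floor_iff (by linarith)] at hp
    linarith [hp.1.2, hp'.2.2]
  have h3 : ∑ p ∈ prs P, Real.log (p : ℝ) ≤ ∑ p ∈ prs P, Real.log P := by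
    refine sum_le_sum fun p hp => ?_
    rw [mem_prs h0] at hp
    exact Real.log_le_log (by exact_mod_cast hp.1.pos) hp.2.2
  rw [sum_const, nsmul_eq_mul] at h3
  linarith

/-- an abc triple with a large square -/
structure Sq2 (n m a b c : ℕ) : Prop where
  a0 : 0 < a
  b0 : 0 < b
  add : a + b = c
  cop : Nat.gcd a b = 1
  eq : a * b * c = n ^ 2 * m
  un : Nat.Coprime n m

/-- the family -/
theorem family {z1 w1 z2 w2 p q : ℕ} (hz1 : z1.Prime) (hw1 : w1.Prime) (hz2 : z2.Prime)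
    (hw2 : w2.Prime) (h12 : z1 ≠ z2) (h13 : z1 ≠ w1) (h14 : z1 ≠ w2) (h23 : z2 ≠ w1)
    (h24 : z2 ≠ w2) (h34 : w1 ≠ w2) (hp : 0 < p)
    (e1 : q = p + z1 * w1 ^ 2) (e2 : q + p = z2 * w2 ^ 2) :
    Sq2 (p * q * (w1 * w2)) (z1 * z2) (p ^ 2) (z1 * w1 ^ 2 * (z2 * w2 ^ 2)) (q ^ 2) := by
  have c12 := (Nat.coprime_primes hz1 hz2).2 h12
  have c13 := (Nat.coprime_primes hz1 hw1).2 h13
  have c14 := (Nat.coprime_primes hz1 hw2).2 h14
  have c23 := (Nat.coprime_primes hz2 hw1).2 h23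
  have c24 := (Nat.coprime_primes hz2 hw2).2 h24
  have c34 := (Nat.coprime_primes hw1 hw2).2 h34
  obtain ⟨s, hs⟩ : ∃ s, s = z1 * w1 ^ 2 := ⟨_, rfl⟩
  obtain ⟨t, ht⟩ : ∃ t, t = z2 * w2 ^ 2 := ⟨_, rfl⟩
  have hst : Nat.Coprime s t := by
    rw [hs, ht]
    refine Nat.Coprime.mul_left (Nat.Coprime.mul_right c12 (c14.pow_right 2)) ?_
    exact Nat.Coprime.mul_right (c23.symm.pow_left 2) (Nat.Coprime.pow 2 2 c34)
  rw [← hs] at e1
  rw [← ht] at e2
  have hs0 : 0 < s := by rw [hs]; exact Nat.mul_pos hz1.pos (pow_pos hw1.pos 2)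
  have ht0 : 0 < t := by rw [ht]; exact Nat.mul_pos hz2.pos (pow_pos hw2.pos 2)
  have hpq : Nat.Coprime p q := by
    by_contra hcon
    obtain ⟨r, hr, hrp, hrq⟩ := Nat.Prime.not_coprime_iff_dvd.1 hcon
    have d1 : r ∣ s := by
      rw [e1] at hrq
      exact (Nat.dvd_add_right hrp).1 hrq
    have d2 : r ∣ t := by
      rw [← e2]
      exact Nat.dvd_add hrq hrp
    exact Nat.not_coprime_of_dvd_of_dvd hr.one_lt d1 d2 hst
  have hadd : p ^ 2 + s * t = q ^ 2 := by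
    rw [← e2, e1]
    ring
  have hps : Nat.Coprime p (s * t) := by
    have h1 : Nat.Coprime p (p ^ 2 + s * t) := by
      rw [hadd]
      exact hpq.pow_right 2
    have h2 : Nat.Coprime p (s * t + p * p) := by
      rw [add_comm, ← sq]
      exact h1
    exact (Nat.coprime_add_mul_left_right p (s * t) p).1 h2
  have hqs : Nat.Coprime q (s * t) := by
    have h1 : Nat.Coprime (p ^ 2) (s * t) := hps.pow_left 2
    have h2 : Nat.Coprime (p ^ 2 + s * t) (s * t) := (Nat.coprime_add_self_left).2 h1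
    rw [hadd] at h2
    exact Nat.Coprime.coprime_dvd_left (dvd_pow_self q (by norm_num)) h2
  have hzd : z1 * z2 ∣ s * t := by
    rw [hs, ht]
    exact Nat.mul_dvd_mul (Dvd.intro _ rfl) (Dvd.intro _ rfl)
  rw [← hs, ← ht]
  refine ⟨by positivity, by positivity, hadd, ?_, ?_, ?_⟩
  · exact hps.pow_left 2
  · rw [hs, ht]
    ring
  · refine Nat.Coprime.mul_left (Nat.Coprime.mul_left ?_ ?_) ?_
    · exact Nat.Coprime.coprime_dvd_right hzd hps
    · exact Nat.Coprime.coprime_dvd_right hzd hqs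
    · exact Nat.Coprime.mul_left (Nat.Coprime.mul_right c13.symm c23.symm)
        (Nat.Coprime.mul_right c14.symm c24.symm)

/-- two primes -/
theorem family2 {p q : ℕ} (hp : p.Prime) (hq : q.Prime) (hpq : p < q) :
    Sq2 (p * q) (q ^ 2 - p ^ 2) (p ^ 2) (q ^ 2 - p ^ 2) (q ^ 2) := by
  have hlt : p ^ 2 < q ^ 2 := Nat.pow_lt_pow_left hpq (by norm_num)
  have hc : Nat.Coprime (p ^ 2) (q ^ 2) :=
    Nat.Coprime.pow 2 2 ((Nat.coprime_primes hp hq).2 (by omega))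
  have h1 : Nat.Coprime (p ^ 2) (q ^ 2 - p ^ 2) := by
    rw [Nat.coprime_sub_self_right hlt.le]
    exact hc
  have h2 : Nat.Coprime (q ^ 2) (q ^ 2 - p ^ 2) := by
    have h3 : Nat.Coprime (q ^ 2 - p ^ 2 + p ^ 2) (q ^ 2 - p ^ 2) := by
      rw [Nat.coprime_self_add_left]
      exact h1
    rwa [Nat.sub_add_cancel hlt.le] at h3
  refine ⟨pow_pos hp.pos 2, by omega, by omega, h1, by ring, ?_⟩
  exact Nat.Coprime.mul_left (Nat.Coprime.coprime_dvd_left (dvd_pow_self p (by norm_num)) h1)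
    (Nat.Coprime.coprime_dvd_left (dvd_pow_self q (by norm_num)) h2)

end Pool.Agent.HP42.SQ
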