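import Pool.Agent.HP42.SQ.Cls

/-!
The number of the solutions of `x₀ u₀ ^ k + x₁ u₁ ^ k = x₂ u₂ ^ k` in a box (helper42).
-/

set_option autoImplicit false

namespace Pool.Agent.HP42.SQ

open Finset

/-- pairwise coprime coefficients, prime to the opposite unknowns -/
structure Cx (x : ℕ × ℕ × ℕ) : Prop where
  p0 : 0 < x.1
  p1 : 0 < x.2.1
  p2 : 0 < x.2.2
  c01 : Nat.Coprime x.1 x.2.1
  c02 : Nat.Coprime x.1 x.2.2
  c12 : Nat.Coprime x.2.1 x.2.2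

/-- the unknowns are prime to the coefficients -/
structure Ct (x t : ℕ × ℕ × ℕ) : Prop where
  a01 : Nat.Coprime t.2.1 x.1
  a02 : Nat.Coprime t.2.2 x.1
  a10 : Nat.Coprime t.1 x.2.1
  a12 : Nat.Coprime t.2.2 x.2.1
  a20 : Nat.Coprime t.1 x.2.2
  a21 : Nat.Coprime t.2.1 x.2.2

/-- the three ratios -/
def cr0 (x t : ℕ × ℕ × ℕ) : ZMod x.1 := (t.2.1 : ZMod x.1) * (t.2.2 : ZMod x.1)⁻¹
def cr1 (x t : ℕ × ℕ × ℕ) : ZMod x.2.1 := (t.1 : ZMod x.2.1) * (t.2.2 : ZMod x.2.1)⁻¹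
def cr2 (x t : ℕ × ℕ × ℕ) : ZMod x.2.2 := (t.1 : ZMod x.2.2) * (t.2.1 : ZMod x.2.2)⁻¹

/-- the determinant of three solutions in one class -/
theorem dvd_dn {p k : ℕ} [Fact p.Prime] (hk : 1 ≤ k) {x t u v : ℕ × ℕ × ℕ} (hx : Cx x)
    (hpk : ¬ p ∣ k) (h0 : ¬ p ∣ x.1) (h1 : ¬ p ∣ x.2.1) (h2 : ¬ p ∣ x.2.2)
    (ht : Sl k x t) (hu : Sl k x u) (hv : Sl k x v) (ct : Ct x t) (cu : Ct x u) (cv : Ct x v)
    (e0 : cr0 x t = cr0 x u) (f0 : cr0 x t = cr0 x v) (e1 : cr1 x t = cr1 x u)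
    (f1 : cr1 x t = cr1 x v) (e2 : cr2 x t = cr2 x u) (f2 : cr2 x t = cr2 x v)
    (ep : cp p t = cp p u) (fp : cp p t = cp p v) :
    ((x.1 * x.2.1 * x.2.2 * p ^ 3 : ℕ) : ℤ) ∣ dn t u v := by
  have hp : p.Prime := Fact.out
  have toInt : ∀ a : ℕ, ¬ p ∣ a → ¬ (p : ℤ) ∣ a := fun a h h' => h (Int.natCast_dvd_natCast.1 h')
  have d0 : (x.1 : ℤ) ∣ dn t u v := by
    refine dvd_dt_12 (cr0 x t) ?_ ?_ ?_
    · push_cast
      exact (ratio ct.a01 ct.a02).2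
    · rw [e0]
      push_cast
      exact (ratio cu.a01 cu.a02).2
    · rw [f0]
      push_cast
      exact (ratio cv.a01 cv.a02).2
  have d1 : (x.2.1 : ℤ) ∣ dn t u v := by
    refine dvd_dt_02 (cr1 x t) ?_ ?_ ?_
    · push_cast
      exact (ratio ct.a10 ct.a12).2
    · rw [e1]
      push_cast
      exact (ratio cu.a10 cu.a12).2
    · rw [f1]
      push_cast
      exact (ratio cv.a10 cv.a12).2
  have d2 : (x.2.2 : ℤ) ∣ dn t u v := by
    refine dvd_dt_01 (cr2 x t) ?_ ?_ ?_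
    · push_cast
      exact (ratio ct.a20 ct.a21).2
    · rw [e2]
      push_cast
      exact (ratio cu.a20 cu.a21).2
    · rw [f2]
      push_cast
      exact (ratio cv.a20 cv.a21).2
  have d3 : (p : ℤ) ^ 3 ∣ dn t u v := by
    refine cube_dvd hp hk (x0 := x.1) (x1 := x.2.1) (x2 := x.2.2) (toInt _ hpk) (toInt _ h0)
      (toInt _ h1) (toInt _ h2) ?_ (by exact_mod_cast ht.eq) (by exact_mod_cast hu.eq)
      (by exact_mod_cast hv.eq) (cp_eq ht.c12 hu.c12 ep) (cp_eq ht.c12 hv.c12 fp)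
    rintro ⟨-, a1, a2⟩
    exact Nat.not_coprime_of_dvd_of_dvd hp.one_lt (Int.natCast_dvd_natCast.1 a1)
      (Int.natCast_dvd_natCast.1 a2) ht.c12
  have q01 : IsCoprime ((x.1 : ℕ) : ℤ) (x.2.1 : ℕ) := Nat.isCoprime_iff_coprime.2 hx.c01
  have q2 : IsCoprime (((x.1 : ℕ) : ℤ) * (x.2.1 : ℕ)) (x.2.2 : ℕ) :=
    IsCoprime.mul_left (Nat.isCoprime_iff_coprime.2 hx.c02) (Nat.isCoprime_iff_coprime.2 hx.c12)
  have hcp : ∀ a : ℕ, ¬ p ∣ a → IsCoprime ((a : ℕ) : ℤ) ((p : ℤ) ^ 3) := fun a ha =>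
    IsCoprime.pow_right (Nat.isCoprime_iff_coprime.2 ((Nat.coprime_comm.1
      ((Nat.Prime.coprime_iff_not_dvd hp).2 ha))))
  have q3 : IsCoprime (((x.1 : ℕ) : ℤ) * (x.2.1 : ℕ) * (x.2.2 : ℕ)) ((p : ℤ) ^ 3) :=
    IsCoprime.mul_left (IsCoprime.mul_left (hcp _ h0) (hcp _ h1)) (hcp _ h2)
  have := q3.mul_dvd (q2.mul_dvd (q01.mul_dvd d0 d1) d2) d3
  push_cast
  exact this

/-- the solutions in a box -/
theorem box_card {p k : ℕ} [Fact p.Prime] (hk : 2 ≤ k) {x : ℕ × ℕ × ℕ} (hx : Cx x)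
    (hpk : ¬ p ∣ k) (h0 : ¬ p ∣ x.1) (h1 : ¬ p ∣ x.2.1) (h2 : ¬ p ∣ x.2.2)
    (T : Finset (ℕ × ℕ × ℕ)) (hT : ∀ t ∈ T, Sl k x t ∧ Ct x t)
    (hd : ∀ t ∈ T, ∀ u ∈ T, ∀ v ∈ T, |dn t u v| < ((x.1 * x.2.1 * x.2.2 * p ^ 3 : ℕ) : ℤ)) :
    T.card ≤ 2 * ((2 * k) ^ (x.1 * x.2.1 * x.2.2).primeFactors.card * (k * (p + 1))) := by
  classical
  have hk1 : 1 ≤ k := by omega
  have hx' := hx
  obtain ⟨p0, p1, p2, c01, c02, c12⟩ := hx'
  obtain ⟨cl, hcl⟩ : ∃ cl : ℕ × ℕ × ℕ → ZMod x.1 × ZMod x.2.1 × ZMod x.2.2 ×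
    (ZMod p × ZMod p × ZMod p), cl = fun t => (cr0 x t, cr1 x t, cr2 x t, cp p t) := ⟨_, rfl⟩
  have hfib : ∀ c ∈ T.image cl, (T.filter fun t => cl t = c).card ≤ 2 := by
    intro c _
    by_contra hcon
    rw [not_le, Finset.two_lt_card] at hcon
    obtain ⟨t, ht, u, hu, v, hv, n1, n2, n3⟩ := hcon
    rw [mem_filter, hcl] at ht hu hv
    obtain ⟨ht1, ht2⟩ := ht
    obtain ⟨hu1, hu2⟩ := hu
    obtain ⟨hv1, hv2⟩ := hv
    have g1 := ht2.trans hu2.symm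
    have g2 := ht2.trans hv2.symm
    simp only [Prod.mk.injEq] at g1 g2
    have hne := dn_ne hk p0 p1 (hT t ht1).1 (hT u hu1).1 (hT v hv1).1 n1 n3 n2
    have hdv := dvd_dn hk1 hx hpk h0 h1 h2 (hT t ht1).1 (hT u hu1).1 (hT v hv1).1 (hT t ht1).2
      (hT u hu1).2 (hT v hv1).2 g1.1 g2.1 g1.2.1 g2.2.1 g1.2.2.1 g2.2.2.1 g1.2.2.2 g2.2.2.2
    have := Int.le_of_dvd (abs_pos.2 hne) ((dvd_abs _ _).2 hdv)
    exact absurd (hd t ht1 u hu1 v hv1) (not_lt.2 this)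
  have hmain := Finset.card_le_mul_card_image T 2 hfib
  refine hmain.trans (Nat.mul_le_mul_left 2 ?_)
  have hsub : T.image cl ⊆ (T.image (cr0 x)) ×ˢ ((T.image (cr1 x)) ×ˢ ((T.image (cr2 x)) ×ˢ
      (T.image (cp p)))) := by
    intro c hc
    obtain ⟨t, ht, rfl⟩ := mem_image.1 hc
    rw [hcl]
    simp only [mem_product]
    exact ⟨mem_image_of_mem _ ht, mem_image_of_mem _ ht, mem_image_of_mem _ ht,
      mem_image_of_mem _ ht⟩
  have b0 : (T.image (cr0 x)).card ≤ (2 * k) ^ x.1.primeFactors.card := by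
    refine roots_card p0 hk1 _ ((x.2.2 : ZMod x.1) * (x.2.1 : ZMod x.1)⁻¹) fun ρ hρ => ?_
    obtain ⟨t, ht, rfl⟩ := mem_image.1 hρ
    obtain ⟨hs, hc⟩ := hT t ht
    refine ⟨(ratio hc.a01 hc.a02).1, ratio_pow hc.a02 c01.symm ?_⟩
    have := congrArg (Nat.cast : ℕ → ZMod x.1) hs.eq
    push_cast at this
    rw [ZMod.natCast_self, zero_mul, zero_add] at this
    exact this
  have b1 : (T.image (cr1 x)).card ≤ (2 * k) ^ x.2.1.primeFactors.card := by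
    refine roots_card p1 hk1 _ ((x.2.2 : ZMod x.2.1) * (x.1 : ZMod x.2.1)⁻¹) fun ρ hρ => ?_
    obtain ⟨t, ht, rfl⟩ := mem_image.1 hρ
    obtain ⟨hs, hc⟩ := hT t ht
    refine ⟨(ratio hc.a10 hc.a12).1, ratio_pow hc.a12 c01 ?_⟩
    have := congrArg (Nat.cast : ℕ → ZMod x.2.1) hs.eq
    push_cast at this
    rw [ZMod.natCast_self, zero_mul, add_zero] at this
    exact this
  have b2 : (T.image (cr2 x)).card ≤ (2 * k) ^ x.2.2.primeFactors.card := by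
    refine roots_card p2 hk1 _ (-(x.2.1 : ZMod x.2.2) * (x.1 : ZMod x.2.2)⁻¹) fun ρ hρ => ?_
    obtain ⟨t, ht, rfl⟩ := mem_image.1 hρ
    obtain ⟨hs, hc⟩ := hT t ht
    refine ⟨(ratio hc.a20 hc.a21).1, ratio_pow hc.a21 c02 ?_⟩
    have := congrArg (Nat.cast : ℕ → ZMod x.2.2) hs.eq
    push_cast at this
    rw [ZMod.natCast_self, zero_mul] at this
    linear_combination this
  have b3 := cp_card hk1 h0 h1 T (fun t ht => (hT t ht).1)
  have hω : (x.1 * x.2.1 * x.2.2).primeFactors.card =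
      x.1.primeFactors.card + x.2.1.primeFactors.card + x.2.2.primeFactors.card := by
    rw [(Nat.Coprime.mul_left c02 c12).primeFactors_mul,
      Finset.card_union_of_disjoint (Nat.Coprime.mul_left c02 c12).disjoint_primeFactors,
      c01.primeFactors_mul, Finset.card_union_of_disjoint c01.disjoint_primeFactors]
  calc (T.image cl).card ≤ _ := card_le_card hsub
    _ = (T.image (cr0 x)).card * ((T.image (cr1 x)).card * ((T.image (cr2 x)).card *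
        (T.image (cp p)).card)) := by rw [card_product, card_product, card_product]
    _ ≤ (2 * k) ^ x.1.primeFactors.card * ((2 * k) ^ x.2.1.primeFactors.card *
        ((2 * k) ^ x.2.2.primeFactors.card * (k * (p + 1)))) :=
        Nat.mul_le_mul b0 (Nat.mul_le_mul b1 (Nat.mul_le_mul b2 b3))
    _ = _ := by
        rw [hω, pow_add, pow_add]
        ring

end Pool.Agent.HP42.SQ
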