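import Pool.Agent.HP42.SQ.Conv
import Pool.Agent.H785R2.ABC.B

/-!
The classes of the solutions of `x₀ u₀ ^ k + x₁ u₁ ^ k = x₂ u₂ ^ k` (helper42).
-/

set_option autoImplicit false

namespace Pool.Agent.HP42.SQ

open Finset Pool.Agent.H785R2.ABC

/-- the number of unit roots -/
theorem roots_card {q k : ℕ} (hq : 1 ≤ q) (hk : 1 ≤ k) (S : Finset (ZMod q)) (σ : ZMod q)
    (hS : ∀ ρ ∈ S, IsUnit ρ ∧ ρ ^ k = σ) : S.card ≤ (2 * k) ^ q.primeFactors.card := by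
  classical
  rcases S.eq_empty_or_nonempty with h0 | ⟨ρ0, hρ0⟩
  · rw [h0, card_empty]
    exact Nat.zero_le _
  · have : NeZero q := ⟨by omega⟩
    obtain ⟨⟨u0, hu0⟩, hσ⟩ := hS ρ0 hρ0
    have hfin : ({x : (ZMod q)ˣ | x ^ k = u0 ^ k}).Finite := Set.toFinite _
    have h1 : (S : Set (ZMod q)) ⊆ Units.val '' {x : (ZMod q)ˣ | x ^ k = u0 ^ k} := by
      intro ρ hρ
      obtain ⟨⟨u, hu⟩, h2⟩ := hS ρ (by exact_mod_cast hρ)
      refine ⟨u, ?_, hu⟩
      show u ^ k = u0 ^ k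
      ext
      push_cast
      rw [hu, hu0, h2, hσ]
    have h2 := Set.ncard_le_ncard h1 (hfin.image _)
    rw [Set.ncard_coe_finset] at h2
    exact (h2.trans (Set.ncard_image_le hfin)).trans
      ((ModB.ncard_fibre_le k (u0 ^ k)).trans (ModB.main k hk q hq))

theorem ratio {m a b : ℕ} (ha : Nat.Coprime a m) (hb : Nat.Coprime b m) :
    IsUnit ((a : ZMod m) * (b : ZMod m)⁻¹) ∧
      (a : ZMod m) = ((a : ZMod m) * (b : ZMod m)⁻¹) * b := by
  have h1 := ZMod.coe_mul_inv_eq_one b hb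
  have hb' : IsUnit ((b : ZMod m)⁻¹) := by
    refine IsUnit.of_mul_eq_one (b : ZMod m) ?_
    rw [mul_comm]
    exact h1
  refine ⟨((ZMod.isUnit_iff_coprime a m).2 ha).mul hb', ?_⟩
  rw [mul_assoc, mul_comm ((b : ZMod m)⁻¹), h1, mul_one]

theorem ratio_pow {m a b A k : ℕ} (hb : Nat.Coprime b m)
    (hA : Nat.Coprime A m) {B : ZMod m} (h : (A : ZMod m) * (a : ZMod m) ^ k = B * (b : ZMod m) ^ k) :
    ((a : ZMod m) * (b : ZMod m)⁻¹) ^ k = B * (A : ZMod m)⁻¹ := by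
  have h1 := ZMod.coe_mul_inv_eq_one b hb
  have h2 := ZMod.coe_mul_inv_eq_one A hA
  have h3 : ((b : ZMod m)) ^ k * ((b : ZMod m)⁻¹) ^ k = 1 := by rw [← mul_pow, h1, one_pow]
  rw [mul_pow]
  calc (a : ZMod m) ^ k * ((b : ZMod m)⁻¹) ^ k
      = ((A : ZMod m) * (A : ZMod m)⁻¹) * ((a : ZMod m) ^ k * ((b : ZMod m)⁻¹) ^ k) := by
        rw [h2, one_mul]
    _ = ((A : ZMod m) * (a : ZMod m) ^ k) * (A : ZMod m)⁻¹ * ((b : ZMod m)⁻¹) ^ k := by ring
    _ = B * (A : ZMod m)⁻¹ * ((b : ZMod m) ^ k * ((b : ZMod m)⁻¹) ^ k) := by rw [h]; ring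
    _ = B * (A : ZMod m)⁻¹ := by rw [h3, mul_one]

/-- the projective class modulo `p` -/
def cp (p : ℕ) [Fact p.Prime] (t : ℕ × ℕ × ℕ) : ZMod p × ZMod p × ZMod p :=
  if (t.2.2 : ZMod p) = 0 then ((t.1 : ZMod p) * (t.2.1 : ZMod p)⁻¹, 1, 0)
  else ((t.1 : ZMod p) * (t.2.2 : ZMod p)⁻¹, (t.2.1 : ZMod p) * (t.2.2 : ZMod p)⁻¹, 1)

/-- the same class -/
theorem cp_eq {p : ℕ} [Fact p.Prime] {t u : ℕ × ℕ × ℕ} (ht : Nat.Coprime t.2.1 t.2.2)
    (hu : Nat.Coprime u.2.1 u.2.2) (h : cp p t = cp p u) :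
    ∃ l : ℤ, ¬ (p : ℤ) ∣ l ∧ (p : ℤ) ∣ (u.1 : ℤ) - l * t.1 ∧ (p : ℤ) ∣ (u.2.1 : ℤ) - l * t.2.1 ∧
      (p : ℤ) ∣ (u.2.2 : ℤ) - l * t.2.2 := by
  have hp : p.Prime := Fact.out
  have key : ∃ l : ZMod p, l ≠ 0 ∧ (u.1 : ZMod p) = l * t.1 ∧ (u.2.1 : ZMod p) = l * t.2.1 ∧
      (u.2.2 : ZMod p) = l * t.2.2 := by
    have hnz : ∀ s : ℕ × ℕ × ℕ, Nat.Coprime s.2.1 s.2.2 → (s.2.2 : ZMod p) = 0 →
        (s.2.1 : ZMod p) ≠ 0 := by
      intro s hs h2 h1
      rw [ZMod.natCast_eq_zero_iff] at h1 h2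
      exact Nat.not_coprime_of_dvd_of_dvd hp.one_lt h1 h2 hs
    unfold cp at h
    by_cases c1 : (t.2.2 : ZMod p) = 0 <;> by_cases c2 : (u.2.2 : ZMod p) = 0
    · rw [if_pos c1, if_pos c2] at h
      simp only [Prod.mk.injEq, and_true] at h
      have a1 := hnz t ht c1
      have a2 := hnz u hu c2
      refine ⟨(u.2.1 : ZMod p) * (t.2.1 : ZMod p)⁻¹, mul_ne_zero a2 (inv_ne_zero a1), ?_, ?_, ?_⟩
      · have : (u.1 : ZMod p) = (t.1 : ZMod p) * (t.2.1 : ZMod p)⁻¹ * u.2.1 := by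
          rw [h]
          field_simp
        rw [this]
        ring
      · field_simp
      · rw [c1, c2, mul_zero]
    · rw [if_pos c1, if_neg c2] at h
      simp only [Prod.mk.injEq] at h
      exact absurd h.2.2 (by exact zero_ne_one)
    · rw [if_neg c1, if_pos c2] at h
      simp only [Prod.mk.injEq] at h
      exact absurd h.2.2 (by exact one_ne_zero)
    · rw [if_neg c1, if_neg c2] at h
      simp only [Prod.mk.injEq, and_true] at h
      refine ⟨(u.2.2 : ZMod p) * (t.2.2 : ZMod p)⁻¹, mul_ne_zero c2 (inv_ne_zero c1), ?_, ?_, ?_⟩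
      · have : (u.1 : ZMod p) = (t.1 : ZMod p) * (t.2.2 : ZMod p)⁻¹ * u.2.2 := by
          rw [h.1]
          field_simp
        rw [this]
        ring
      · have : (u.2.1 : ZMod p) = (t.2.1 : ZMod p) * (t.2.2 : ZMod p)⁻¹ * u.2.2 := by
          rw [h.2]
          field_simp
        rw [this]
        ring
      · field_simp
  obtain ⟨l, hl, h0, h1, h2⟩ := key
  have hval : ((l.val : ℤ) : ZMod p) = l := by
    push_cast
    exact ZMod.natCast_zmod_val l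
  refine ⟨(l.val : ℤ), ?_, ?_, ?_, ?_⟩
  · rw [← ZMod.intCast_zmod_eq_zero_iff_dvd, hval]
    exact hl
  · rw [← ZMod.intCast_zmod_eq_zero_iff_dvd, Int.cast_sub, Int.cast_mul, hval]
    push_cast
    rw [h0, sub_self]
  · rw [← ZMod.intCast_zmod_eq_zero_iff_dvd, Int.cast_sub, Int.cast_mul, hval]
    push_cast
    rw [h1, sub_self]
  · rw [← ZMod.intCast_zmod_eq_zero_iff_dvd, Int.cast_sub, Int.cast_mul, hval]
    push_cast
    rw [h2, sub_self]

/-- the number of projective classes -/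
theorem cp_card {p k : ℕ} [Fact p.Prime] (hk : 1 ≤ k) {x : ℕ × ℕ × ℕ}
    (hx0 : ¬ p ∣ x.1) (hx1 : ¬ p ∣ x.2.1) (T : Finset (ℕ × ℕ × ℕ))
    (hT : ∀ t ∈ T, Sl k x t) : (T.image (cp p)).card ≤ k * (p + 1) := by
  classical
  have hp : p.Prime := Fact.out
  have y0 : (x.1 : ZMod p) ≠ 0 := fun h => hx0 ((ZMod.natCast_eq_zero_iff _ _).1 h)
  have y1 : (x.2.1 : ZMod p) ≠ 0 := fun h => hx1 ((ZMod.natCast_eq_zero_iff _ _).1 h)
  obtain ⟨RR, hRR⟩ : ∃ RR : ZMod p → Finset (ZMod p), RR = fun c =>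
    (Polynomial.nthRoots k c).toFinset := ⟨_, rfl⟩
  have hRc : ∀ c, (RR c).card ≤ k := by
    intro c
    rw [hRR]
    exact (Multiset.toFinset_card_le _).trans (Polynomial.card_nthRoots k c)
  have hRm : ∀ c r, r ^ k = c → r ∈ RR c := by
    intro c r h
    rw [hRR, Multiset.mem_toFinset, Polynomial.mem_nthRoots (by omega)]
    exact h
  obtain ⟨A, hA⟩ : ∃ A : Finset (ZMod p × ZMod p × ZMod p), A =
    (univ : Finset (ZMod p)).biUnion fun s =>
      (RR (((x.2.2 : ZMod p) - x.1 * s ^ k) * (x.2.1 : ZMod p)⁻¹)).image fun r => (s, r, 1) :=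
    ⟨_, rfl⟩
  obtain ⟨B, hB⟩ : ∃ B : Finset (ZMod p × ZMod p × ZMod p), B =
    (RR (-(x.2.1 : ZMod p) * (x.1 : ZMod p)⁻¹)).image fun s => (s, 1, 0) := ⟨_, rfl⟩
  have hsub : T.image (cp p) ⊆ A ∪ B := by
    intro c hc
    obtain ⟨t, ht, rfl⟩ := mem_image.1 hc
    have hs := hT t ht
    have heq : (x.1 : ZMod p) * (t.1 : ZMod p) ^ k + x.2.1 * (t.2.1 : ZMod p) ^ k =
        x.2.2 * (t.2.2 : ZMod p) ^ k := by exact_mod_cast congrArg (Nat.cast : ℕ → ZMod p) hs.eq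
    rw [mem_union]
    unfold cp
    split_ifs with h
    · right
      rw [hB, mem_image]
      refine ⟨_, hRm _ _ ?_, rfl⟩
      have hnz : (t.2.1 : ZMod p) ≠ 0 := by
        intro h1
        rw [ZMod.natCast_eq_zero_iff] at h1 h
        exact Nat.not_coprime_of_dvd_of_dvd hp.one_lt h1 h hs.c12
      rw [h, zero_pow (by omega), mul_zero] at heq
      rw [mul_pow, inv_pow]
      field_simp
      linear_combination heq
    · left
      rw [hA, mem_biUnion]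
      refine ⟨(t.1 : ZMod p) * (t.2.2 : ZMod p)⁻¹, mem_univ _, ?_⟩
      rw [mem_image]
      refine ⟨_, hRm _ _ ?_, rfl⟩
      rw [mul_pow, mul_pow, inv_pow]
      field_simp
      linear_combination heq
  have hAc : A.card ≤ p * k := by
    rw [hA]
    refine (card_biUnion_le).trans ?_
    refine (sum_le_sum fun s _ => (card_image_le).trans (hRc _)).trans ?_
    rw [sum_const, card_univ, ZMod.card, smul_eq_mul]
  have hBc : B.card ≤ k := by
    rw [hB]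
    exact card_image_le.trans (hRc _)
  calc (T.image (cp p)).card ≤ (A ∪ B).card := card_le_card hsub
    _ ≤ A.card + B.card := card_union_le _ _
    _ ≤ p * k + k := Nat.add_le_add hAc hBc
    _ = k * (p + 1) := by ring

end Pool.Agent.HP42.SQ
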