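import Pool.Agent.HP42.SQ.Det

/-!
Three different coprime solutions of `x₀ u₀ ^ k + x₁ u₁ ^ k = x₂ u₂ ^ k` have a nonzero determinant
(helper42).
-/

set_option autoImplicit false

namespace Pool.Agent.HP42.SQ

/-- solutions -/
structure Sl (k : ℕ) (x t : ℕ × ℕ × ℕ) : Prop where
  p0 : 0 < t.1
  p1 : 0 < t.2.1
  p2 : 0 < t.2.2
  c02 : Nat.Coprime t.1 t.2.2
  c01 : Nat.Coprime t.1 t.2.1
  c12 : Nat.Coprime t.2.1 t.2.2
  eq : x.1 * t.1 ^ k + x.2.1 * t.2.1 ^ k = x.2.2 * t.2.2 ^ k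

/-- the determinant of three triples -/
def dn (t u v : ℕ × ℕ × ℕ) : ℤ := dt t.1 t.2.1 t.2.2 u.1 u.2.1 u.2.2 v.1 v.2.1 v.2.2

theorem dn_swap12 (t u v : ℕ × ℕ × ℕ) : dn u t v = - dn t u v := by
  unfold dn dt
  ring

theorem dn_swap23 (t u v : ℕ × ℕ × ℕ) : dn t v u = - dn t u v := by
  unfold dn dt
  ring

/-- same ratio, same solution -/
theorem eq_of_ratio {k : ℕ} (hk : 2 ≤ k) {x t u : ℕ × ℕ × ℕ} (hx1 : 0 < x.2.1) (ht : Sl k x t)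
    (hu : Sl k x u) (h : (t.1 : ℝ) / t.2.2 = (u.1 : ℝ) / u.2.2) : t = u := by
  have a1 : (0 : ℝ) < t.2.2 := by exact_mod_cast ht.p2
  have a2 : (0 : ℝ) < u.2.2 := by exact_mod_cast hu.p2
  rw [div_eq_div_iff a1.ne' a2.ne'] at h
  have h' : t.1 * u.2.2 = u.1 * t.2.2 := by exact_mod_cast h
  have b1 : t.1 ∣ u.1 := by
    have : t.1 ∣ u.1 * t.2.2 := ⟨_, h'.symm⟩
    exact ht.c02.dvd_of_dvd_mul_right this
  have b2 : u.1 ∣ t.1 := by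
    have : u.1 ∣ t.1 * u.2.2 := ⟨_, h'⟩
    exact hu.c02.dvd_of_dvd_mul_right this
  have e0 : t.1 = u.1 := Nat.dvd_antisymm b1 b2
  have e2 : t.2.2 = u.2.2 := by
    rw [e0] at h'
    exact (Nat.eq_of_mul_eq_mul_left hu.p0 h').symm
  have e1 : t.2.1 = u.2.1 := by
    have h1 := ht.eq
    have h2 := hu.eq
    rw [e0, e2] at h1
    have h3 : x.2.1 * t.2.1 ^ k = x.2.1 * u.2.1 ^ k := by omega
    exact Nat.pow_left_injective (by omega) (Nat.eq_of_mul_eq_mul_left hx1 h3)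
  exact Prod.ext e0 (Prod.ext e1 e2)

/-- the equation divided by `t₂ ^ k` -/
theorem eq_real {k : ℕ} {x t : ℕ × ℕ × ℕ} (ht : Sl k x t) :
    (x.1 : ℝ) * ((t.1 : ℝ) / t.2.2) ^ k + (x.2.1 : ℝ) * ((t.2.1 : ℝ) / t.2.2) ^ k = x.2.2 := by
  have a1 : (0 : ℝ) < t.2.2 := by exact_mod_cast ht.p2
  have h : (x.1 : ℝ) * (t.1 : ℝ) ^ k + x.2.1 * (t.2.1 : ℝ) ^ k = x.2.2 * (t.2.2 : ℝ) ^ k := by
    exact_mod_cast ht.eq
  rw [div_pow, div_pow, ← mul_div_assoc, ← mul_div_assoc, ← add_div, h,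
    mul_div_assoc, div_self (by positivity), mul_one]

/-- ordered solutions -/
theorem dn_ne_of_lt {k : ℕ} (hk : 2 ≤ k) {x t u v : ℕ × ℕ × ℕ} (hx0 : 0 < x.1) (hx1 : 0 < x.2.1)
    (ht : Sl k x t) (hu : Sl k x u) (hv : Sl k x v) (h1 : (t.1 : ℝ) / t.2.2 < (u.1 : ℝ) / u.2.2)
    (h2 : (u.1 : ℝ) / u.2.2 < (v.1 : ℝ) / v.2.2) : dn t u v ≠ 0 := by
  intro h0
  have a1 : (0 : ℝ) < t.2.2 := by exact_mod_cast ht.p2
  have a2 : (0 : ℝ) < u.2.2 := by exact_mod_cast hu.p2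
  have a3 : (0 : ℝ) < v.2.2 := by exact_mod_cast hv.p2
  have h0r : (t.1 : ℝ) * (u.2.1 * v.2.2 - u.2.2 * v.2.1) - t.2.1 * (u.1 * v.2.2 - u.2.2 * v.1) +
      t.2.2 * (u.1 * v.2.1 - u.2.1 * v.1) = 0 := by
    have : (((dn t u v : ℤ)) : ℝ) = 0 := by rw [h0]; norm_num
    rw [dn, dt] at this
    push_cast at this
    exact this
  refine convex_core hk (A := x.1) (B := x.2.1) (C := x.2.2) (s1 := (t.1 : ℝ) / t.2.2)
    (s2 := (u.1 : ℝ) / u.2.2) (s3 := (v.1 : ℝ) / v.2.2) (r1 := (t.2.1 : ℝ) / t.2.2)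
    (r2 := (u.2.1 : ℝ) / u.2.2) (r3 := (v.2.1 : ℝ) / v.2.2) (by exact_mod_cast hx0)
    (by exact_mod_cast hx1) (by positivity) (by positivity) (by positivity) (by positivity) h1 h2
    ?_ (eq_real ht) (eq_real hu) (eq_real hv)
  field_simp
  linear_combination (t.2.2 : ℝ) * h0r

/-- three different solutions -/
theorem dn_ne {k : ℕ} (hk : 2 ≤ k) {x t u v : ℕ × ℕ × ℕ} (hx0 : 0 < x.1) (hx1 : 0 < x.2.1)
    (ht : Sl k x t) (hu : Sl k x u) (hv : Sl k x v) (h1 : t ≠ u) (h2 : u ≠ v) (h3 : t ≠ v) :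
    dn t u v ≠ 0 := by
  have g1 : (t.1 : ℝ) / t.2.2 ≠ (u.1 : ℝ) / u.2.2 := fun h => h1 (eq_of_ratio hk hx1 ht hu h)
  have g2 : (u.1 : ℝ) / u.2.2 ≠ (v.1 : ℝ) / v.2.2 := fun h => h2 (eq_of_ratio hk hx1 hu hv h)
  have g3 : (t.1 : ℝ) / t.2.2 ≠ (v.1 : ℝ) / v.2.2 := fun h => h3 (eq_of_ratio hk hx1 ht hv h)
  rcases lt_or_gt_of_ne g1 with a | a <;> rcases lt_or_gt_of_ne g2 with b | b
  · exact dn_ne_of_lt hk hx0 hx1 ht hu hv a b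
  · rcases lt_or_gt_of_ne g3 with c | c
    · -- t < v < u
      have := dn_ne_of_lt hk hx0 hx1 ht hv hu c b
      rwa [dn_swap23, neg_ne_zero] at this
    · -- v < t < u
      have := dn_ne_of_lt hk hx0 hx1 hv ht hu c a
      rw [dn_swap12, neg_ne_zero, dn_swap23, neg_ne_zero] at this
      exact this
  · rcases lt_or_gt_of_ne g3 with c | c
    · -- u < t < v
      have := dn_ne_of_lt hk hx0 hx1 hu ht hv a c
      rwa [dn_swap12, neg_ne_zero] at this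
    · -- u < v < t
      have := dn_ne_of_lt hk hx0 hx1 hu hv ht b c
      rw [dn_swap23, neg_ne_zero, dn_swap12, neg_ne_zero] at this
      exact this
  · -- v < u < t
    have := dn_ne_of_lt hk hx0 hx1 hv hu ht b a
    rw [dn_swap12, neg_ne_zero, dn_swap23, neg_ne_zero, dn_swap12, neg_ne_zero] at this
    exact this

/-- the size of the determinant -/
theorem dn_lt {t u v : ℕ × ℕ × ℕ} {M : ℕ} {a b c : ℕ} (habc : a * b * c ≤ M)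
    (ht : t.1 < a ∧ t.2.1 < b ∧ t.2.2 < c) (hu : u.1 < a ∧ u.2.1 < b ∧ u.2.2 < c)
    (hv : v.1 < a ∧ v.2.1 < b ∧ v.2.2 < c) : |dn t u v| < 3 * M := by
  have key : ∀ x y z : ℕ, x < a → y < b → z < c → ((x * y * z : ℕ) : ℤ) < M := by
    intro x y z hx hy hz
    have h1 : x * y * z < a * b * c :=
      Nat.mul_lt_mul'' (Nat.mul_lt_mul'' hx hy) hz
    exact_mod_cast h1.trans_le habc
  obtain ⟨t0, t1, t2⟩ := ht
  obtain ⟨u0, u1, u2⟩ := hu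
  obtain ⟨v0, v1, v2⟩ := hv
  have p1 := key t.1 u.2.1 v.2.2 t0 u1 v2
  have p2 := key t.1 v.2.1 u.2.2 t0 v1 u2
  have p3 := key u.1 t.2.1 v.2.2 u0 t1 v2
  have p4 := key v.1 t.2.1 u.2.2 v0 t1 u2
  have p5 := key u.1 v.2.1 t.2.2 u0 v1 t2
  have p6 := key v.1 u.2.1 t.2.2 v0 u1 t2
  have q1 : (0 : ℤ) ≤ ((t.1 * u.2.1 * v.2.2 : ℕ) : ℤ) := Int.natCast_nonneg _
  have q2 : (0 : ℤ) ≤ ((t.1 * v.2.1 * u.2.2 : ℕ) : ℤ) := Int.natCast_nonneg _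
  have q3 : (0 : ℤ) ≤ ((u.1 * t.2.1 * v.2.2 : ℕ) : ℤ) := Int.natCast_nonneg _
  have q4 : (0 : ℤ) ≤ ((v.1 * t.2.1 * u.2.2 : ℕ) : ℤ) := Int.natCast_nonneg _
  have q5 : (0 : ℤ) ≤ ((u.1 * v.2.1 * t.2.2 : ℕ) : ℤ) := Int.natCast_nonneg _
  have q6 : (0 : ℤ) ≤ ((v.1 * u.2.1 * t.2.2 : ℕ) : ℤ) := Int.natCast_nonneg _
  push_cast at p1 p2 p3 p4 p5 p6 q1 q2 q3 q4 q5 q6
  rw [dn, dt, abs_lt]
  constructor <;> nlinarith

end Pool.Agent.HP42.SQ
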