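import Pool.Agent.HP42.SQ.Sum
import Pool.Agent.TH867.SB.Ref

/-!
The abc triples with a unitary `k`-th power divisor of small cofactor radical (helper42).
-/

set_option autoImplicit false

namespace Pool.Agent.HP42.SQ

open Finset Pool.Agent.H785R2.ABC
open Pool.Agent.TH867.SR (Tr N3 rr rr_sum rr_nonneg Light Scale vv)

/-- the part of `e` in the member `j` -/
def uu (e : ℕ) (t : Fin 3 → ℕ) (j : Fin 3) : ℕ := Nat.gcd e (t j)

theorem uu_prod {e k : ℕ} (hk : 1 ≤ k) {t : Fin 3 → ℕ} (h : Tr t) (he : e ^ k ∣ N3 t) :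
    uu e t 0 * uu e t 1 * uu e t 2 = e := by
  have h1 : Nat.Coprime (t 0 * t 1) (t 2) :=
    Nat.Coprime.mul_left (h.cop' (by decide)) (h.cop' (by decide))
  have h2 : Nat.gcd e (t 0 * t 1 * t 2) = uu e t 0 * uu e t 1 * uu e t 2 := by
    rw [Nat.Coprime.gcd_mul _ h1, Nat.Coprime.gcd_mul _ (h.cop' (by decide))]
    rfl
  rw [← h2]
  exact Nat.gcd_eq_left ((dvd_pow_self e (by omega)).trans he)

theorem uu_pow_dvd {e k : ℕ} {t : Fin 3 → ℕ} (h : Tr t) (he : e ^ k ∣ N3 t) (j : Fin 3) :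
    uu e t j ^ k ∣ t j := by
  have h1 : uu e t j ^ k ∣ N3 t := (pow_dvd_pow_of_dvd (Nat.gcd_dvd_left _ _) k).trans he
  have hd : ∀ i, i ≠ j → Nat.Coprime (uu e t j ^ k) (t i) := fun i hi =>
    Nat.Coprime.pow_left k (Nat.Coprime.coprime_dvd_left (Nat.gcd_dvd_right _ _) (h.cop' hi.symm))
  unfold N3 at h1
  fin_cases j
  · have a1 := (hd 2 (by decide)).dvd_of_dvd_mul_right h1
    exact (hd 1 (by decide)).dvd_of_dvd_mul_right a1
  · have a1 := (hd 2 (by decide)).dvd_of_dvd_mul_right h1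
    exact (hd 0 (by decide)).dvd_of_dvd_mul_left a1
  · exact (Nat.Coprime.mul_right (hd 0 (by decide)) (hd 1 (by decide))).dvd_of_dvd_mul_left h1

/-- the cofactors -/
def xx (k e : ℕ) (t : Fin 3 → ℕ) (j : Fin 3) : ℕ := t j / uu e t j ^ k

theorem uu_xx {e k : ℕ} {t : Fin 3 → ℕ} (h : Tr t) (he : e ^ k ∣ N3 t) (j : Fin 3) :
    uu e t j ^ k * xx k e t j = t j := Nat.mul_div_cancel' (uu_pow_dvd h he j)

theorem rad_exp {t : Fin 3 → ℕ} (h : Tr t) {X : ℝ} (hX : 0 < X)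
    (hr : rr t 0 + rr t 1 + rr t 2 ≤ Real.log X) : (rad (N3 t) : ℝ) ≤ X := by
  rw [← rr_sum h] at hr
  have h1 : 0 < rad (N3 t) := rad_pos' _
  rw [← Real.log_le_log_iff (by exact_mod_cast h1) hX, rad,
    Pool.Agent.TH867.SR.log_prod_primes fun q hq => Nat.prime_of_mem_primeFactors hq]
  exact hr

theorem rad_dvd_le {m n : ℕ} (h : m ∣ n) (hn : n ≠ 0) : rad m ≤ rad n :=
  Nat.le_of_dvd (rad_pos' n) (Finset.prod_dvd_prod_of_subset _ _ _
    (Nat.primeFactors_mono h hn))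

theorem rad_mul {m n : ℕ} (h : Nat.Coprime m n) : rad (m * n) = rad m * rad n := by
  rw [rad, rad, rad, h.primeFactors_mul, Finset.prod_union h.disjoint_primeFactors]

/-- the data of a triple -/
theorem data {k e : ℕ} (hk : 1 ≤ k) {t : Fin 3 → ℕ} (h : Tr t) {m : ℕ} (he1 : 1 ≤ e)
    (he : N3 t = e ^ k * m) :
    Cx (xx k e t 0, xx k e t 1, xx k e t 2) ∧
    Sl k (xx k e t 0, xx k e t 1, xx k e t 2) (uu e t 0, uu e t 1, uu e t 2) ∧
    Ct (xx k e t 0, xx k e t 1, xx k e t 2) (uu e t 0, uu e t 1, uu e t 2) ∧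
    uu e t 0 * uu e t 1 * uu e t 2 = e ∧ xx k e t 0 * xx k e t 1 * xx k e t 2 = m := by
  have hd : e ^ k ∣ N3 t := ⟨m, he⟩
  have hux := uu_xx h hd
  have hpos : ∀ j, 0 < xx k e t j := by
    intro j
    have h1 := hux j
    have h2 := h.pos' j
    rw [← h1] at h2
    exact Nat.pos_of_mul_pos_left h2
  have hupos : ∀ j, 0 < uu e t j := fun j => Nat.gcd_pos_of_pos_left _ he1
  have hxd : ∀ j, xx k e t j ∣ t j := fun j => ⟨_, (by rw [mul_comm]; exact (hux j).symm)⟩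
  have hud : ∀ j, uu e t j ∣ t j := fun j => Nat.gcd_dvd_right _ _
  have hxx : ∀ i j, i ≠ j → Nat.Coprime (xx k e t i) (xx k e t j) := fun i j hij =>
    Nat.Coprime.coprime_dvd_left (hxd i) (Nat.Coprime.coprime_dvd_right (hxd j) (h.cop' hij))
  have huu : ∀ i j, i ≠ j → Nat.Coprime (uu e t i) (uu e t j) := fun i j hij =>
    Nat.Coprime.coprime_dvd_left (hud i) (Nat.Coprime.coprime_dvd_right (hud j) (h.cop' hij))
  have hux' : ∀ i j, i ≠ j → Nat.Coprime (uu e t i) (xx k e t j) := fun i j hij =>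
    Nat.Coprime.coprime_dvd_left (hud i) (Nat.Coprime.coprime_dvd_right (hxd j) (h.cop' hij))
  have hprod := uu_prod hk h hd
  refine ⟨⟨hpos 0, hpos 1, hpos 2, hxx 0 1 (by decide), hxx 0 2 (by decide), hxx 1 2 (by decide)⟩,
    ⟨hupos 0, hupos 1, hupos 2, huu 0 2 (by decide), huu 0 1 (by decide), huu 1 2 (by decide), ?_⟩,
    ⟨hux' 1 0 (by decide), hux' 2 0 (by decide), hux' 0 1 (by decide), hux' 2 1 (by decide),
      hux' 0 2 (by decide), hux' 1 2 (by decide)⟩, hprod, ?_⟩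
  · show xx k e t 0 * uu e t 0 ^ k + xx k e t 1 * uu e t 1 ^ k = xx k e t 2 * uu e t 2 ^ k
    have h0 := hux 0
    have h1 := hux 1
    have h2 := hux 2
    have h3 := h.add
    rw [mul_comm] at h0 h1 h2
    rw [h0, h1, h2, h3]
  · have h1 : e ^ k * (xx k e t 0 * xx k e t 1 * xx k e t 2) = e ^ k * m := by
      calc e ^ k * (xx k e t 0 * xx k e t 1 * xx k e t 2)
          = (uu e t 0 * uu e t 1 * uu e t 2) ^ k * (xx k e t 0 * xx k e t 1 * xx k e t 2) := by
            rw [hprod]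
        _ = (uu e t 0 ^ k * xx k e t 0) * (uu e t 1 ^ k * xx k e t 1) *
            (uu e t 2 ^ k * xx k e t 2) := by
            rw [mul_pow, mul_pow]
            ring
        _ = t 0 * t 1 * t 2 := by rw [hux 0, hux 1, hux 2]
        _ = e ^ k * m := he
    exact Nat.eq_of_mul_eq_mul_left (by positivity) h1

end Pool.Agent.HP42.SQ
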