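import Mathlib

/-!
Points on `x₀ u₀ ^ k + x₁ u₁ ^ k = x₂ u₂ ^ k` in the same residue classes: their determinant is
divisible by a large number, and three of them are never collinear (helper42).
-/

set_option autoImplicit false

namespace Pool.Agent.HP42.SQ

/-- the determinant of three vectors -/
def dt (a b c d e f g h i : ℤ) : ℤ := a * (e * i - f * h) - b * (d * i - f * g) + c * (d * h - e * g)

theorem dvd_dt_12 {m : ℕ} (ρ : ZMod m) {u0 u1 u2 v0 v1 v2 w0 w1 w2 : ℤ}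
    (hu : (u1 : ZMod m) = ρ * u2) (hv : (v1 : ZMod m) = ρ * v2) (hw : (w1 : ZMod m) = ρ * w2) :
    (m : ℤ) ∣ dt u0 u1 u2 v0 v1 v2 w0 w1 w2 := by
  rw [← ZMod.intCast_zmod_eq_zero_iff_dvd, dt]
  push_cast
  rw [hu, hv, hw]
  ring

theorem dvd_dt_02 {m : ℕ} (ρ : ZMod m) {u0 u1 u2 v0 v1 v2 w0 w1 w2 : ℤ}
    (hu : (u0 : ZMod m) = ρ * u2) (hv : (v0 : ZMod m) = ρ * v2) (hw : (w0 : ZMod m) = ρ * w2) :
    (m : ℤ) ∣ dt u0 u1 u2 v0 v1 v2 w0 w1 w2 := by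
  rw [← ZMod.intCast_zmod_eq_zero_iff_dvd, dt]
  push_cast
  rw [hu, hv, hw]
  ring

theorem dvd_dt_01 {m : ℕ} (ρ : ZMod m) {u0 u1 u2 v0 v1 v2 w0 w1 w2 : ℤ}
    (hu : (u0 : ZMod m) = ρ * u1) (hv : (v0 : ZMod m) = ρ * v1) (hw : (w0 : ZMod m) = ρ * w1) :
    (m : ℤ) ∣ dt u0 u1 u2 v0 v1 v2 w0 w1 w2 := by
  rw [← ZMod.intCast_zmod_eq_zero_iff_dvd, dt]
  push_cast
  rw [hu, hv, hw]
  ring

/-- the linear form of the tangent line -/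
theorem tangent {p k : ℕ} (hp : p.Prime) {x0 x1 x2 u0 u1 u2 l d0 d1 d2 : ℤ}
    (hkp : ¬ (p : ℤ) ∣ k) (hl : ¬ (p : ℤ) ∣ l)
    (hu : x0 * u0 ^ k + x1 * u1 ^ k = x2 * u2 ^ k)
    (hv : x0 * (l * u0 + p * d0) ^ k + x1 * (l * u1 + p * d1) ^ k = x2 * (l * u2 + p * d2) ^ k) :
    (p : ℤ) ∣ x0 * u0 ^ (k - 1) * d0 + x1 * u1 ^ (k - 1) * d1 - x2 * u2 ^ (k - 1) * d2 := by
  have hpi : Prime (p : ℤ) := Nat.prime_iff_prime_int.1 hp
  have hp0 : (p : ℤ) ≠ 0 := hpi.ne_zero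
  obtain ⟨c0, h0⟩ := Polynomial.powAddExpansion (l * u0) ((p : ℤ) * d0) k
  obtain ⟨c1, h1⟩ := Polynomial.powAddExpansion (l * u1) ((p : ℤ) * d1) k
  obtain ⟨c2, h2⟩ := Polynomial.powAddExpansion (l * u2) ((p : ℤ) * d2) k
  rw [h0, h1, h2] at hv
  obtain ⟨g, hg⟩ : ∃ g, g = x0 * u0 ^ (k - 1) * d0 + x1 * u1 ^ (k - 1) * d1 -
    x2 * u2 ^ (k - 1) * d2 := ⟨_, rfl⟩
  have e1 : (p : ℤ) * ((k : ℤ) * l ^ (k - 1) * g) =
      p * (p * -(x0 * c0 * d0 ^ 2 + x1 * c1 * d1 ^ 2 - x2 * c2 * d2 ^ 2)) := by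
    rw [hg]
    simp only [mul_pow] at hv
    linear_combination hv - l ^ k * hu
  have e2 := mul_left_cancel₀ hp0 e1
  have e3 : (p : ℤ) ∣ (k : ℤ) * l ^ (k - 1) * g := ⟨_, e2⟩
  rw [← hg]
  rcases hpi.dvd_or_dvd e3 with h | h
  · rcases hpi.dvd_or_dvd h with h' | h'
    · exact absurd h' hkp
    · exact absurd (hpi.dvd_of_dvd_pow h') hl
  · exact h

/-- three points in one class modulo `p` -/
theorem cube_dvd {p k : ℕ} (hp : p.Prime) (hk : 1 ≤ k) {x0 x1 x2 u0 u1 u2 v0 v1 v2 w0 w1 w2 : ℤ}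
    (hkp : ¬ (p : ℤ) ∣ k) (h0 : ¬ (p : ℤ) ∣ x0) (h1 : ¬ (p : ℤ) ∣ x1) (h2 : ¬ (p : ℤ) ∣ x2)
    (hup : ¬ ((p : ℤ) ∣ u0 ∧ (p : ℤ) ∣ u1 ∧ (p : ℤ) ∣ u2))
    (hu : x0 * u0 ^ k + x1 * u1 ^ k = x2 * u2 ^ k)
    (hv : x0 * v0 ^ k + x1 * v1 ^ k = x2 * v2 ^ k)
    (hw : x0 * w0 ^ k + x1 * w1 ^ k = x2 * w2 ^ k)
    (cv : ∃ l : ℤ, ¬ (p : ℤ) ∣ l ∧ (p : ℤ) ∣ v0 - l * u0 ∧ (p : ℤ) ∣ v1 - l * u1 ∧
      (p : ℤ) ∣ v2 - l * u2)
    (cw : ∃ l : ℤ, ¬ (p : ℤ) ∣ l ∧ (p : ℤ) ∣ w0 - l * u0 ∧ (p : ℤ) ∣ w1 - l * u1 ∧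
      (p : ℤ) ∣ w2 - l * u2) :
    (p : ℤ) ^ 3 ∣ dt u0 u1 u2 v0 v1 v2 w0 w1 w2 := by
  have hpi : Prime (p : ℤ) := Nat.prime_iff_prime_int.1 hp
  obtain ⟨l, hl, ⟨d0, e0⟩, ⟨d1, e1⟩, ⟨d2, e2⟩⟩ := cv
  obtain ⟨m, hm, ⟨f0, g0⟩, ⟨f1, g1⟩, ⟨f2, g2⟩⟩ := cw
  have ev0 : v0 = l * u0 + p * d0 := by linear_combination e0
  have ev1 : v1 = l * u1 + p * d1 := by linear_combination e1
  have ev2 : v2 = l * u2 + p * d2 := by linear_combination e2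
  have ew0 : w0 = m * u0 + p * f0 := by linear_combination g0
  have ew1 : w1 = m * u1 + p * f1 := by linear_combination g1
  have ew2 : w2 = m * u2 + p * f2 := by linear_combination g2
  have t1 := tangent hp hkp hl hu (by rw [← ev0, ← ev1, ← ev2]; exact hv)
  have t2 := tangent hp hkp hm hu (by rw [← ew0, ← ew1, ← ew2]; exact hw)
  have t0 : x0 * u0 ^ (k - 1) * u0 + x1 * u1 ^ (k - 1) * u1 - x2 * u2 ^ (k - 1) * u2 = 0 := by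
    have a0 := pow_sub_one_mul (show k ≠ 0 by omega) u0
    have a1 := pow_sub_one_mul (show k ≠ 0 by omega) u1
    have a2 := pow_sub_one_mul (show k ≠ 0 by omega) u2
    rw [mul_assoc, mul_assoc, mul_assoc, a0, a1, a2]
    linear_combination hu
  obtain ⟨D, hD⟩ : ∃ D, D = dt u0 u1 u2 d0 d1 d2 f0 f1 f2 := ⟨_, rfl⟩
  have hdet : dt u0 u1 u2 v0 v1 v2 w0 w1 w2 = p ^ 2 * D := by
    rw [hD, ev0, ev1, ev2, ew0, ew1, ew2]
    unfold dt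
    ring
  have key : (p : ℤ) ∣ D := by
    obtain ⟨a, ha⟩ := t1
    obtain ⟨b, hb⟩ := t2
    have c0 : x0 * u0 ^ (k - 1) * D = p * (-a * (u1 * f2 - u2 * f1) + b * (u1 * d2 - u2 * d1)) := by
      rw [hD]
      unfold dt
      linear_combination (d1 * f2 - d2 * f1) * t0 - (u1 * f2 - u2 * f1) * ha +
        (u1 * d2 - u2 * d1) * hb
    have c1 : x1 * u1 ^ (k - 1) * D = p * (a * (u0 * f2 - u2 * f0) - b * (u0 * d2 - u2 * d0)) := by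
      rw [hD]
      unfold dt
      linear_combination -(d0 * f2 - d2 * f0) * t0 + (u0 * f2 - u2 * f0) * ha -
        (u0 * d2 - u2 * d0) * hb
    have c2 : -(x2 * u2 ^ (k - 1)) * D =
        p * (-a * (u0 * f1 - u1 * f0) + b * (u0 * d1 - u1 * d0)) := by
      rw [hD]
      unfold dt
      linear_combination (d0 * f1 - d1 * f0) * t0 - (u0 * f1 - u1 * f0) * ha +
        (u0 * d1 - u1 * d0) * hb
    by_contra hcon
    apply hup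
    refine ⟨?_, ?_, ?_⟩
    · have : (p : ℤ) ∣ x0 * u0 ^ (k - 1) * D := ⟨_, c0⟩
      rcases hpi.dvd_or_dvd this with h | h
      · rcases hpi.dvd_or_dvd h with h' | h'
        · exact absurd h' h0
        · exact hpi.dvd_of_dvd_pow h'
      · exact absurd h hcon
    · have : (p : ℤ) ∣ x1 * u1 ^ (k - 1) * D := ⟨_, c1⟩
      rcases hpi.dvd_or_dvd this with h | h
      · rcases hpi.dvd_or_dvd h with h' | h'
        · exact absurd h' h1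
        · exact hpi.dvd_of_dvd_pow h'
      · exact absurd h hcon
    · have : (p : ℤ) ∣ -(x2 * u2 ^ (k - 1)) * D := ⟨_, c2⟩
      rcases hpi.dvd_or_dvd this with h | h
      · rw [dvd_neg] at h
        rcases hpi.dvd_or_dvd h with h' | h'
        · exact absurd h' h2
        · exact hpi.dvd_of_dvd_pow h'
      · exact absurd h hcon
  rw [hdet, pow_succ]
  exact mul_dvd_mul_left _ key

/-- three collinear points on a strictly convex curve -/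
theorem convex_core {k : ℕ} (hk : 2 ≤ k) {A B C s1 s2 s3 r1 r2 r3 : ℝ} (hA : 0 < A) (hB : 0 < B)
    (p1 : 0 ≤ s1) (p3 : 0 ≤ s3) (q1 : 0 ≤ r1) (q3 : 0 ≤ r3)
    (h12 : s1 < s2) (h23 : s2 < s3)
    (hl : (s2 - s1) * (r3 - r1) = (s3 - s1) * (r2 - r1))
    (e1 : A * s1 ^ k + B * r1 ^ k = C) (e2 : A * s2 ^ k + B * r2 ^ k = C)
    (e3 : A * s3 ^ k + B * r3 ^ k = C) : False := by
  have h13 : 0 < s3 - s1 := by linarith
  obtain ⟨θ, hθ⟩ : ∃ θ : ℝ, θ = (s2 - s1) / (s3 - s1) := ⟨_, rfl⟩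
  have hθ0 : 0 < θ := by rw [hθ]; exact div_pos (by linarith) h13
  have hθ1 : θ < 1 := by rw [hθ, div_lt_one h13]; linarith
  have hs2 : s2 = (1 - θ) * s1 + θ * s3 := by
    rw [hθ]
    field_simp
    ring
  have hr2 : r2 = (1 - θ) * r1 + θ * r3 := by
    have : r2 - r1 = θ * (r3 - r1) := by
      rw [hθ, div_mul_eq_mul_div, eq_div_iff h13.ne']
      linarith
    linarith
  have c1 := (strictConvexOn_pow hk).2 (Set.mem_Ici.2 p1) (Set.mem_Ici.2 p3) (by linarith : s1 ≠ s3)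
    (by linarith : 0 < 1 - θ) hθ0 (by ring)
  have c2 := (convexOn_pow (𝕜 := ℝ) k).2 (Set.mem_Ici.2 q1) (Set.mem_Ici.2 q3)
    (by linarith : 0 ≤ 1 - θ) hθ0.le (by ring)
  simp only [smul_eq_mul] at c1 c2
  rw [← hs2] at c1
  rw [← hr2] at c2
  have d1 := mul_lt_mul_of_pos_left c1 hA
  have d2 := mul_le_mul_of_nonneg_left c2 hB.le
  nlinarith

end Pool.Agent.HP42.SQ
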