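import Pool.Agent.HP42.SQ.Fin

/-!
The abc inequality for almost all square parts (helper42).
-/

set_option autoImplicit false

namespace Pool.Agent.HP42.SQ

open Finset Pool.Agent.H785R2.ABC
open Pool.Agent.TH867.SR (Tr N3 rr rr_sum rr_nonneg)

theorem rad_sqf {m : ℕ} (hm : Squarefree m) : rad m = m :=
  Nat.prod_primeFactors_of_squarefree hm

theorem sq_unique {n m n' m' : ℕ} (hn : 1 ≤ n) (hn' : 1 ≤ n') (hm : Squarefree m)
    (hm' : Squarefree m') (h : n ^ 2 * m = n' ^ 2 * m') : n = n' := by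
  have key : ∀ x y u v : ℕ, 1 ≤ x → 1 ≤ y → Squarefree v → x ^ 2 * u = y ^ 2 * v → x ∣ y := by
    intro x y u v hx hy hv hxy
    obtain ⟨g, hg⟩ : ∃ g, g = Nat.gcd x y := ⟨_, rfl⟩
    have hg0 : 0 < g := by rw [hg]; exact Nat.gcd_pos_of_pos_left _ hx
    obtain ⟨a, b, hco, ha, hb⟩ : ∃ a b, Nat.Coprime a b ∧ x = a * g ∧ y = b * g := by
      obtain ⟨a, b, hco, ha, hb⟩ := Nat.exists_coprime x y
      exact ⟨a, b, hco, by rw [hg]; exact ha, by rw [hg]; exact hb⟩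
    have h1 : a ^ 2 * u = b ^ 2 * v := by
      have : g ^ 2 * (a ^ 2 * u) = g ^ 2 * (b ^ 2 * v) := by
        calc g ^ 2 * (a ^ 2 * u) = x ^ 2 * u := by rw [ha]; ring
          _ = y ^ 2 * v := hxy
          _ = g ^ 2 * (b ^ 2 * v) := by rw [hb]; ring
      exact Nat.eq_of_mul_eq_mul_left (by positivity) this
    have h2 : a ^ 2 ∣ v := by
      have : a ^ 2 ∣ b ^ 2 * v := ⟨u, h1.symm⟩
      exact (Nat.Coprime.pow 2 2 hco).dvd_of_dvd_mul_left this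
    have h3 : IsUnit a := hv a (by rw [← sq]; exact h2)
    have h4 : a = 1 := Nat.isUnit_iff.1 h3
    rw [ha, hb, h4, one_mul]
    exact dvd_mul_left _ _
  exact Nat.dvd_antisymm (key n n' m m' hn hn' hm' h) (key n' n m' m hn' hn hm h.symm)

/-- the data of a violation -/
theorem viol {ε ε1 : ℝ} (hε : 0 < ε) (hε2 : ε ≤ 1 / 8) (hε1 : ε1 ≤ 2 * ε) {N n m : ℕ}
    (hn : 1 ≤ n) (hnN : n ≤ N) (hm : Squarefree m)
    (hr : (N : ℝ) ^ (1 - ε1) ≤ rad n)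
    (hv : (rad (n ^ 2 * m) : ℝ) ≤ ((n ^ 2 * m : ℕ) : ℝ) ^ (1 / 2 - ε)) :
    ∃ e M : ℕ, 1 ≤ e ∧ e ≤ N ∧ n ^ 2 * m = e ^ 3 * M ∧
      (rad M : ℝ) ≤ (N : ℝ) ^ (1 - 2 * (2 * ε - ε1) / (1 + 2 * ε)) ∧
      (rad (n ^ 2 * m) : ℝ) ≤ (N : ℝ) ^ 2 := by
  have hN1 : (1 : ℝ) ≤ N := by exact_mod_cast hn.trans hnN
  have hN0 : (0 : ℝ) < N := by linarith
  have hn0 : n ≠ 0 := by omega
  have hm0 : m ≠ 0 := hm.ne_zero
  obtain ⟨g, hg⟩ : ∃ g, g = Nat.gcd n m := ⟨_, rfl⟩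
  have hgn : g ∣ n := by rw [hg]; exact Nat.gcd_dvd_left _ _
  have hgm : g ∣ m := by rw [hg]; exact Nat.gcd_dvd_right _ _
  have hg1 : 1 ≤ g := by rw [hg]; exact Nat.gcd_pos_of_pos_left _ hn
  obtain ⟨a, ha⟩ := hgn
  obtain ⟨m', hm'⟩ := hgm
  have ha1 : 1 ≤ a := by
    rcases Nat.eq_zero_or_pos a with h | h
    · rw [h, mul_zero] at ha; exact absurd ha hn0
    · exact h
  have hm1 : 1 ≤ m' := by
    rcases Nat.eq_zero_or_pos m' with h | h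
    · rw [h, mul_zero] at hm'; exact absurd hm' hm0
    · exact h
  have hgsq : Squarefree g := hm.squarefree_of_dvd ⟨m', hm'⟩
  have hm'sq : Squarefree m' := hm.squarefree_of_dvd ⟨g, by rw [mul_comm]; exact hm'⟩
  have hrad : rad (n ^ 2 * m) = rad n * m' := by
    have e1 : rad (n ^ 2 * m) = rad (n * m) := by
      rw [rad, rad, Nat.primeFactors_mul (pow_ne_zero 2 hn0) hm0,
        Nat.primeFactors_pow n (by omega), Nat.primeFactors_mul hn0 hm0]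
    have e2 := rad_gcd hn0 hm0
    rw [← hg, rad_sqf hgsq, rad_sqf hm, ← e1] at e2
    have e3 : g * rad (n ^ 2 * m) = g * (rad n * m') := by
      calc g * rad (n ^ 2 * m) = rad n * m := by rw [mul_comm]; exact e2
        _ = g * (rad n * m') := by rw [hm']; ring
    exact Nat.eq_of_mul_eq_mul_left hg1 e3
  obtain ⟨G, hG⟩ : ∃ G : ℝ, G = (g : ℝ) := ⟨_, rfl⟩
  obtain ⟨μ, hμ⟩ : ∃ μ : ℝ, μ = (m' : ℝ) := ⟨_, rfl⟩
  have hG1 : 1 ≤ G := by rw [hG]; exact_mod_cast hg1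
  have hμ1 : 1 ≤ μ := by rw [hμ]; exact_mod_cast hm1
  have hG0 : 0 < G := by linarith
  have hμ0 : 0 < μ := by linarith
  have h12 : 0 < 1 + 2 * ε := by linarith
  -- the main inequality
  have k1 : (N : ℝ) ^ (1 - ε1) * μ ≤ ((N : ℝ) ^ 2 * (G * μ)) ^ (1 / 2 - ε) := by
    have a1 : (N : ℝ) ^ (1 - ε1) * μ ≤ (rad (n ^ 2 * m) : ℝ) := by
      rw [hrad]
      push_cast
      rw [← hμ]
      exact mul_le_mul_of_nonneg_right hr hμ0.le
    refine (a1.trans hv).trans ?_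
    refine Real.rpow_le_rpow (Nat.cast_nonneg _) ?_ (by linarith)
    rw [hm']
    push_cast
    rw [← hG, ← hμ]
    have : (n : ℝ) ≤ N := by exact_mod_cast hnN
    have h0 : (0 : ℝ) ≤ n := Nat.cast_nonneg _
    gcongr
  have k2 : μ ≤ G * (N : ℝ) ^ (-(2 * (2 * ε - ε1) / (1 + 2 * ε))) := by
    have lμ : 0 ≤ Real.log μ := Real.log_nonneg hμ1
    have lG : 0 ≤ Real.log G := Real.log_nonneg hG1
    have lN : 0 ≤ Real.log N := Real.log_nonneg hN1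
    have b1 := Real.log_le_log (by positivity) k1
    rw [Real.log_mul (by positivity) (by positivity), Real.log_rpow hN0,
      Real.log_rpow (by positivity), Real.log_mul (by positivity) (by positivity),
      Real.log_mul (by positivity) (by positivity), Real.log_pow] at b1
    push_cast at b1
    rw [← Real.log_le_log_iff hμ0 (by positivity), Real.log_mul (by positivity) (by positivity),
      Real.log_rpow hN0]
    have b2 : Real.log G + -(2 * (2 * ε - ε1) / (1 + 2 * ε)) * Real.log N =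
        ((1 + 2 * ε) * Real.log G - 2 * (2 * ε - ε1) * Real.log N) / (1 + 2 * ε) := by
      field_simp
      ring
    rw [b2, le_div_iff₀ h12]
    nlinarith [mul_nonneg hε.le lG]
  have hNnn : (N : ℝ) ^ (-(2 * (2 * ε - ε1) / (1 + 2 * ε))) ≤ 1 := by
    refine Real.rpow_le_one_of_one_le_of_nonpos hN1 ?_
    have : 0 ≤ 2 * (2 * ε - ε1) / (1 + 2 * ε) := div_nonneg (by linarith) h12.le
    linarith
  have hnG : (n : ℝ) = G * a := by rw [ha, hG]; push_cast; ring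
  refine ⟨g, a ^ 2 * m', hg1, (Nat.le_of_dvd hn ⟨a, ha⟩).trans hnN, ?_, ?_, ?_⟩
  · rw [hm']
    nth_rewrite 1 [ha]
    ring
  · have c1 : rad (a ^ 2 * m') ≤ a * m' := by
      refine (rad_mul_le (by positivity) (by omega)).trans ?_
      rw [rad_pow (by norm_num)]
      exact Nat.mul_le_mul (rad_le_self ha1) (rad_le_self hm1)
    have c2 : (rad (a ^ 2 * m') : ℝ) ≤ a * μ := by
      rw [hμ]
      exact_mod_cast c1
    have ha0 : (0 : ℝ) ≤ a := Nat.cast_nonneg _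
    calc (rad (a ^ 2 * m') : ℝ) ≤ a * μ := c2
      _ ≤ a * (G * (N : ℝ) ^ (-(2 * (2 * ε - ε1) / (1 + 2 * ε)))) :=
          mul_le_mul_of_nonneg_left k2 ha0
      _ = (n : ℝ) * (N : ℝ) ^ (-(2 * (2 * ε - ε1) / (1 + 2 * ε))) := by rw [hnG]; ring
      _ ≤ (N : ℝ) * (N : ℝ) ^ (-(2 * (2 * ε - ε1) / (1 + 2 * ε))) :=
          mul_le_mul_of_nonneg_right (by exact_mod_cast hnN) (by positivity)
      _ = (N : ℝ) ^ (1 - 2 * (2 * ε - ε1) / (1 + 2 * ε)) := by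
          rw [sub_eq_add_neg 1 (2 * (2 * ε - ε1) / (1 + 2 * ε)), Real.rpow_add hN0, Real.rpow_one]
  · rw [hrad]
    push_cast
    rw [← hμ]
    have c1 : (rad n : ℝ) ≤ N := by exact_mod_cast (rad_le_self hn).trans hnN
    have c2 : G ≤ N := by
      rw [hG]
      exact_mod_cast (Nat.le_of_dvd hn ⟨a, ha⟩).trans hnN
    have c3 : μ ≤ N := by
      calc μ ≤ G * (N : ℝ) ^ (-(2 * (2 * ε - ε1) / (1 + 2 * ε))) := k2
        _ ≤ G * 1 := mul_le_mul_of_nonneg_left hNnn hG0.le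
        _ ≤ N := by rw [mul_one]; exact c2
    calc (rad n : ℝ) * μ ≤ N * N := mul_le_mul c1 c3 hμ0.le hN0.le
      _ = (N : ℝ) ^ 2 := by ring

/-- **the abc inequality for almost all square parts** -/
theorem abc_square (ε : ℝ) (hε : 0 < ε) (hε2 : ε ≤ 1 / 8) : ∃ C : ℝ, 0 ≤ C ∧ ∀ N : ℕ, 1 ≤ N →
    ∀ F : Finset ℕ, (∀ n ∈ F, 1 ≤ n ∧ n ≤ N ∧ ∃ a b c m : ℕ, (0 < a ∧ 0 < b ∧ a + b = c ∧
      Nat.gcd a b = 1) ∧ a * b * c = n ^ 2 * m ∧ Squarefree m ∧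
        (rad (a * b * c) : ℝ) ≤ ((a * b * c : ℕ) : ℝ) ^ (1 / 2 - ε)) →
    (F.card : ℝ) ≤ C * (N : ℝ) ^ (1 - ε) := by
  classical
  obtain ⟨C, hC, h⟩ := core (k := 3) (by norm_num) (ε / 50) (by positivity)
  obtain ⟨D, hD, h4⟩ := stmtA4_of (stmtA3_of stmtA2) (ε / 40) (by positivity)
  refine ⟨2 * C + D, by positivity, fun N hN F hF => ?_⟩
  have hN1 : (1 : ℝ) ≤ N := by exact_mod_cast hN
  have hN0 : (0 : ℝ) < N := by linarith
  obtain ⟨ε1, hε1⟩ : ∃ ε1 : ℝ, ε1 = ε + ε / 40 := ⟨_, rfl⟩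
  obtain ⟨R, hR⟩ : ∃ R : ℝ, R = (N : ℝ) ^ (1 - ε1) := ⟨_, rfl⟩
  have hR0 : 0 < R := by rw [hR]; positivity
  have b1 : ((F.filter fun n => (rad n : ℝ) ≤ R).card : ℝ) ≤ D * (N : ℝ) ^ (1 - ε) := by
    have g1 := h4 N hN R hR0.le
    have g2 : (F.filter fun n => (rad n : ℝ) ≤ R) ⊆
        (Icc 1 N).filter fun d => (rad d : ℝ) ≤ R := by
      intro n hn
      rw [mem_filter] at hn ⊢
      obtain ⟨n1, n2, -⟩ := hF n hn.1
      exact ⟨mem_Icc.2 ⟨n1, n2⟩, hn.2⟩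
    have g3 : ((F.filter fun n => (rad n : ℝ) ≤ R).card : ℝ) ≤
        (((Icc 1 N).filter fun d => (rad d : ℝ) ≤ R).card : ℝ) := by
      exact_mod_cast card_le_card g2
    refine (g3.trans g1).trans (le_of_eq ?_)
    rw [hR, mul_assoc, ← Real.rpow_add hN0]
    congr 2
    rw [hε1]
    ring
  have b2 : ((F.filter fun n => ¬ (rad n : ℝ) ≤ R).card : ℝ) ≤ 2 * C * (N : ℝ) ^ (1 - ε) := by
    obtain ⟨B, hB⟩ : ∃ B, B = F.filter fun n => ¬ (rad n : ℝ) ≤ R := ⟨_, rfl⟩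
    rw [← hB]
    obtain ⟨κ, hκ⟩ : ∃ κ : ℝ, κ = 2 * (2 * ε - ε1) / (1 + 2 * ε) := ⟨_, rfl⟩
    have hBd : ∀ n ∈ B, ∃ t : Fin 3 → ℕ, ∃ m : ℕ, Tr t ∧ N3 t = n ^ 2 * m ∧ Squarefree m ∧
        rr t 0 + rr t 1 + rr t 2 ≤ Real.log ((N : ℝ) ^ 2) ∧
        ∃ e M : ℕ, 1 ≤ e ∧ e ≤ N ∧ N3 t = e ^ 3 * M ∧ (rad M : ℝ) ≤ (N : ℝ) ^ (1 - κ) := by
      intro n hn
      rw [hB, mem_filter] at hn
      obtain ⟨n1, n2, a, b, c, m, ⟨a1, a2, a3, a4⟩, d1, d2, d3⟩ := hF n hn.1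
      have hr : (N : ℝ) ^ (1 - ε1) ≤ rad n := by
        rw [← hR]
        exact (not_le.1 hn.2).le
      rw [d1] at d3
      obtain ⟨e, M, e1, e2, e3, e4, e5⟩ := viol hε hε2 (by rw [hε1]; linarith) n1 n2 d2 hr d3
      have hN3 : N3 (srt a b c) = n ^ 2 * m := by rw [srt_N3, d1]
      refine ⟨srt a b c, m, srt_tr a1 a2 a3 a4, hN3, d2,
        rr_le (srt_tr a1 a2 a3 a4) (by rw [hN3]; exact e5), e, M, e1, e2, ?_, ?_⟩
      · rw [hN3, e3]
      · rw [hκ]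
        exact e4
    choose! T m hT1 hT2 hT3 hT4 hT5 using hBd
    have hinj : Set.InjOn T B := by
      intro n hn n' hn' hTT
      have p1 := hT2 n (mem_coe.1 hn)
      have p2 := hT2 n' (mem_coe.1 hn')
      rw [← hTT, p1] at p2
      have q1 := (hF n ((mem_filter.1 (by rw [← hB]; exact mem_coe.1 hn)).1)).1
      have q2 := (hF n' ((mem_filter.1 (by rw [← hB]; exact mem_coe.1 hn')).1)).1
      exact sq_unique q1 q2 (hT3 n (mem_coe.1 hn)) (hT3 n' (mem_coe.1 hn')) p2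
    have hκ0 : 0 ≤ κ := by
      rw [hκ]
      refine div_nonneg ?_ (by linarith)
      rw [hε1]
      linarith
    have hκ1 : κ ≤ 1 := by
      rw [hκ, div_le_one (by linarith), hε1]
      linarith
    have hκ2 : 1 - 2 / 3 * κ + ε / 25 ≤ 1 - ε := by
      have : (1 + 1 / 25) * ε * (3 / 2) ≤ κ := by
        rw [hκ, le_div_iff₀ (by linarith), hε1]
        nlinarith
      linarith
    have hY1 : 1 ≤ (N : ℝ) ^ (1 - κ) := Real.one_le_rpow hN1 (by linarith)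
    have hYX : (N : ℝ) ^ (1 - κ) ≤ (N : ℝ) ^ 2 := by
      rw [← Real.rpow_natCast]
      refine Real.rpow_le_rpow_of_exponent_le hN1 ?_
      push_cast
      linarith
    have hF1 := h ((N : ℝ) ^ 2) (one_le_pow₀ hN1) N hN (by nlinarith) ((N : ℝ) ^ (1 - κ)) hY1 hYX
      (B.image T) (by
        intro t ht
        obtain ⟨n, hn, rfl⟩ := mem_image.1 ht
        exact ⟨hT1 n hn, hT4 n hn, hT5 n hn⟩)
    rw [card_image_of_injOn hinj] at hF1
    refine hF1.trans ?_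
    have e1 : ((N : ℝ) ^ 2) ^ (ε / 50) = (N : ℝ) ^ (ε / 25) := by
      rw [← Real.rpow_natCast, ← Real.rpow_mul hN0.le]
      congr 1
      push_cast
      ring
    have e2 : (N : ℝ) ^ (1 - κ) + (N : ℝ) ^ (1 / 3 : ℝ) * ((N : ℝ) ^ (1 - κ)) ^ (2 / 3 : ℝ) ≤
        2 * (N : ℝ) ^ (1 - 2 / 3 * κ) := by
      have g1 : (N : ℝ) ^ (1 - κ) ≤ (N : ℝ) ^ (1 - 2 / 3 * κ) :=
        Real.rpow_le_rpow_of_exponent_le hN1 (by linarith)
      have g2 : (N : ℝ) ^ (1 / 3 : ℝ) * ((N : ℝ) ^ (1 - κ)) ^ (2 / 3 : ℝ) =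
          (N : ℝ) ^ (1 - 2 / 3 * κ) := by
        rw [← Real.rpow_mul hN0.le, ← Real.rpow_add hN0]
        congr 1
        ring
      rw [g2]
      linarith
    rw [e1]
    calc C * (N : ℝ) ^ (ε / 25) *
          ((N : ℝ) ^ (1 - κ) + (N : ℝ) ^ (1 / 3 : ℝ) * ((N : ℝ) ^ (1 - κ)) ^ (2 / 3 : ℝ))
        ≤ C * (N : ℝ) ^ (ε / 25) * (2 * (N : ℝ) ^ (1 - 2 / 3 * κ)) :=
          mul_le_mul_of_nonneg_left e2 (by positivity)
      _ = 2 * C * ((N : ℝ) ^ (1 - 2 / 3 * κ) * (N : ℝ) ^ (ε / 25)) := by ring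
      _ = 2 * C * (N : ℝ) ^ (1 - 2 / 3 * κ + ε / 25) := by rw [← Real.rpow_add hN0]
      _ ≤ 2 * C * (N : ℝ) ^ (1 - ε) := by
          refine mul_le_mul_of_nonneg_left ?_ (by positivity)
          exact Real.rpow_le_rpow_of_exponent_le hN1 hκ2
  have h3 : F.card = (F.filter fun n => (rad n : ℝ) ≤ R).card +
      (F.filter fun n => ¬ (rad n : ℝ) ≤ R).card := (Finset.card_filter_add_card_filter_not _).symm
  rw [h3]
  push_cast
  linarith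

end Pool.Agent.HP42.SQ
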