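import Pool.Agent.HP42.SQ.Exact

/-!
Every positive integer is the square part of infinitely many abc triples (helper42).
-/

set_option autoImplicit false

namespace Pool.Agent.HP42.SQ

open Finset

theorem class_card (r q s K T : ℕ) (hr : 0 < r) (hco : Nat.Coprime q r) :
    (((Ioc K (K + T)).filter fun t => r ∣ q * t + s).card : ℝ) ≤ T / r + 1 := by
  classical
  have hr0 : (0 : ℝ) < r := by exact_mod_cast hr
  rcases Finset.eq_empty_or_nonempty ((Ioc K (K + T)).filter fun t => r ∣ q * t + s) with h | h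
  · rw [h]
    simp only [card_empty, Nat.cast_zero]
    positivity
  · obtain ⟨t0, ht0⟩ := h
    rw [mem_filter] at ht0
    have hsub : ((Ioc K (K + T)).filter fun t => r ∣ q * t + s) ⊆
        (Ioc K (K + T)).filter fun t => t ≡ t0 [MOD r] := by
      intro t ht
      rw [mem_filter] at ht ⊢
      refine ⟨ht.1, ?_⟩
      have h1 : q * t + s ≡ q * t0 + s [MOD r] :=
        ((Nat.modEq_zero_iff_dvd.2 ht.2).trans (Nat.modEq_zero_iff_dvd.2 ht0.2).symm)
      have h2 : q * t ≡ q * t0 [MOD r] := Nat.ModEq.add_right_cancel' s h1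
      exact Nat.ModEq.cancel_left_of_coprime (by rw [Nat.gcd_comm]; exact hco) h2
    have h1 : (((Ioc K (K + T)).filter fun t => t ≡ t0 [MOD r]).card : ℤ) =
        max (⌊(((K + T : ℕ) : ℤ) - t0 : ℚ) / r⌋ - ⌊((K : ℤ) - t0 : ℚ) / r⌋) 0 := by
      have := Nat.Ioc_filter_modEq_card K (K + T) hr t0
      exact_mod_cast this
    have h2 : (((Ioc K (K + T)).filter fun t => t ≡ t0 [MOD r]).card : ℝ) ≤ T / r + 1 := by
      rcases le_total (⌊(((K + T : ℕ) : ℤ) - t0 : ℚ) / r⌋ - ⌊((K : ℤ) - t0 : ℚ) / r⌋) 0 with h3 | h3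
      · rw [max_eq_right h3] at h1
        have h4 : ((Ioc K (K + T)).filter fun t => t ≡ t0 [MOD r]).card = 0 := by exact_mod_cast h1
        rw [h4]
        simp only [Nat.cast_zero]
        positivity
      · rw [max_eq_left h3] at h1
        have e1 := Int.floor_le ((((K + T : ℕ) : ℤ) - t0 : ℚ) / r)
        have e2 := Int.lt_floor_add_one (((K : ℤ) - t0 : ℚ) / r)
        have e3 : ((((Ioc K (K + T)).filter fun t => t ≡ t0 [MOD r]).card : ℤ) : ℚ) ≤
            (T : ℚ) / r + 1 := by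
          rw [h1]
          push_cast
          have e4 : (((K + T : ℕ) : ℤ) - t0 : ℚ) / r - ((K : ℤ) - t0 : ℚ) / r = (T : ℚ) / r := by
            push_cast
            ring
          push_cast at e1 e2 e4 ⊢
          linarith
        have e5 : ((((Ioc K (K + T)).filter fun t => t ≡ t0 [MOD r]).card : ℚ) : ℝ) ≤
            (((T : ℚ) / r + 1 : ℚ) : ℝ) := by exact_mod_cast e3
        push_cast at e5
        exact e5
    refine le_trans ?_ h2
    exact_mod_cast card_le_card hsub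

theorem sum_inv_odd (J : ℕ) :
    ∑ j ∈ Icc 1 J, (1 : ℝ) / ((2 * j + 1 : ℕ) : ℝ) ^ 2 ≤ 1 / 4 * (1 - 1 / (J + 1)) := by
  induction J with
  | zero => simp
  | succ J ih =>
    rw [sum_Icc_succ_top (by omega)]
    have h1 : (1 : ℝ) / ((2 * (J + 1) + 1 : ℕ) : ℝ) ^ 2 ≤
        1 / 4 * (1 / (J + 1) - 1 / ((J : ℝ) + 1 + 1)) := by
      push_cast
      have hJ : (0 : ℝ) ≤ J := Nat.cast_nonneg _
      have e : 1 / 4 * (1 / ((J : ℝ) + 1) - 1 / ((J : ℝ) + 1 + 1)) =
          1 / (4 * ((J + 1) * (J + 1 + 1))) := by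
        field_simp
        ring
      rw [e]
      refine one_div_le_one_div_of_le (by positivity) ?_
      nlinarith
    push_cast at h1 ih ⊢
    linarith

theorem exists_exact (n : ℕ) (hn : 1 ≤ n) (K : ℕ) : ∃ a b c m : ℕ, (0 < a ∧ 0 < b ∧ a + b = c ∧
    Nat.gcd a b = 1) ∧ a * b * c = n ^ 2 * m ∧ Squarefree m ∧ K < c := by
  classical
  obtain ⟨S, hS⟩ : ∃ S, S = n + K + 1 := ⟨_, rfl⟩
  obtain ⟨T, hT⟩ : ∃ T, T = 66 * S := ⟨_, rfl⟩
  obtain ⟨M, hM⟩ : ∃ M, M = 4 * n * (K + T) + 1 + n ^ 2 := ⟨_, rfl⟩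
  obtain ⟨Q, hQ⟩ : ∃ Q, Q = Nat.sqrt M := ⟨_, rfl⟩
  have hQT : 4 * Q < T := by
    have h1 : Q * Q ≤ M := by rw [hQ]; exact Nat.sqrt_le M
    have h2 : 16 * M < T * T := by
      have hnS : n ≤ S := by omega
      have hKS : K ≤ S := by omega
      have hS1 : 1 ≤ S := by omega
      have a1 : n * K ≤ S * S := Nat.mul_le_mul hnS hKS
      have a2 : n * S ≤ S * S := Nat.mul_le_mul_right _ hnS
      have a3 : n * n ≤ S * S := Nat.mul_le_mul hnS hnS
      have a4 : 1 ≤ S * S := Nat.mul_pos hS1 hS1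
      have a5 : 16 * M = 64 * (n * K) + 4224 * (n * S) + 16 + 16 * (n * n) := by
        rw [hM, hT]
        ring
      have a6 : T * T = 4356 * (S * S) := by
        rw [hT]
        ring
      rw [a5, a6]
      omega
    by_contra hcon
    have h3 : T * T ≤ (4 * Q) * (4 * Q) := Nat.mul_le_mul (by omega) (by omega)
    have h4 : (4 * Q) * (4 * Q) = 16 * (Q * Q) := by ring
    omega
  -- a good t
  obtain ⟨t, htI, ht⟩ : ∃ t ∈ Ioc K (K + T), ∀ j ∈ Icc 1 Q, ¬ (2 * j + 1) ^ 2 ∣ 4 * n * t + 1 ∧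
      ¬ (2 * j + 1) ^ 2 ∣ 4 * n * t + (1 + n ^ 2) := by
    by_contra hcon
    push Not at hcon
    have hcov : Ioc K (K + T) ⊆ (Icc 1 Q).biUnion fun j =>
        ((Ioc K (K + T)).filter fun t => (2 * j + 1) ^ 2 ∣ 4 * n * t + 1) ∪
        ((Ioc K (K + T)).filter fun t => (2 * j + 1) ^ 2 ∣ 4 * n * t + (1 + n ^ 2)) := by
      intro t htI
      obtain ⟨j, hj, h⟩ := hcon t htI
      rw [mem_biUnion]
      refine ⟨j, hj, ?_⟩
      rw [mem_union, mem_filter, mem_filter]
      by_cases h1 : (2 * j + 1) ^ 2 ∣ 4 * n * t + 1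
      · exact Or.inl ⟨htI, h1⟩
      · exact Or.inr ⟨htI, h h1⟩
    have hone : ∀ j ∈ Icc 1 Q, ∀ s, (∀ p : ℕ, p.Prime → p ∣ n → ¬ p ∣ s) →
        (((Ioc K (K + T)).filter fun t => (2 * j + 1) ^ 2 ∣ 4 * n * t + s).card : ℝ) ≤
          T / ((2 * j + 1 : ℕ) : ℝ) ^ 2 + 1 := by
      intro j hj s hs
      have hpos : 0 < (2 * j + 1) ^ 2 := by positivity
      by_cases hco : Nat.Coprime (4 * n) ((2 * j + 1) ^ 2)
      · have := class_card ((2 * j + 1) ^ 2) (4 * n) s K T hpos hco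
        push_cast at this ⊢
        exact this
      · have hempty : ((Ioc K (K + T)).filter fun t => (2 * j + 1) ^ 2 ∣ 4 * n * t + s) = ∅ := by
          rw [Finset.filter_eq_empty_iff]
          intro t _ hd
          obtain ⟨p, hp, hp1, hp2⟩ := Nat.Prime.not_coprime_iff_dvd.1 hco
          have hp3 : p ∣ 2 * j + 1 := hp.dvd_of_dvd_pow hp2
          have hpn : p ∣ n := by
            rcases hp.dvd_mul.1 hp1 with h | h
            · exfalso
              have h2 : p ∣ 2 := by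
                have : p ∣ 2 ^ 2 := h
                exact hp.dvd_of_dvd_pow this
              have h3 : p = 2 := (Nat.prime_dvd_prime_iff_eq hp Nat.prime_two).1 h2
              rw [h3] at hp3
              omega
            · exact h
          have h4 : p ∣ 4 * n * t + s := (hp2.trans hd)
          have h5 : p ∣ 4 * n * t := (hpn.mul_left 4).mul_right t
          exact hs p hp hpn ((Nat.dvd_add_right h5).1 h4)
        rw [hempty]
        simp only [card_empty, Nat.cast_zero]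
        positivity
    have h1 := (card_le_card hcov).trans card_biUnion_le
    rw [Nat.card_Ioc] at h1
    have h2 : (T : ℝ) ≤ ∑ j ∈ Icc 1 Q, 2 * (T / ((2 * j + 1 : ℕ) : ℝ) ^ 2 + 1) := by
      have h3 : ((K + T - K : ℕ) : ℝ) ≤ ((∑ j ∈ Icc 1 Q,
          (((Ioc K (K + T)).filter fun t => (2 * j + 1) ^ 2 ∣ 4 * n * t + 1) ∪
          ((Ioc K (K + T)).filter fun t => (2 * j + 1) ^ 2 ∣ 4 * n * t + (1 + n ^ 2))).card : ℕ) :
            ℝ) := by exact_mod_cast h1
      rw [Nat.add_sub_cancel_left] at h3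
      refine h3.trans ?_
      rw [Nat.cast_sum]
      refine sum_le_sum fun j hj => ?_
      have g1 := hone j hj 1 (fun p hp _ h => hp.one_lt.ne' (Nat.dvd_one.1 h))
      have g2 := hone j hj (1 + n ^ 2) (fun p hp hpn h => by
        have : p ∣ 1 := (Nat.dvd_add_left (dvd_pow hpn two_ne_zero)).1 h
        exact hp.one_lt.ne' (Nat.dvd_one.1 this))
      have g3 : (((((Ioc K (K + T)).filter fun t => (2 * j + 1) ^ 2 ∣ 4 * n * t + 1) ∪
          ((Ioc K (K + T)).filter fun t => (2 * j + 1) ^ 2 ∣ 4 * n * t + (1 + n ^ 2))).card : ℕ) :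
            ℝ) ≤ (((Ioc K (K + T)).filter fun t => (2 * j + 1) ^ 2 ∣ 4 * n * t + 1).card : ℝ) +
          (((Ioc K (K + T)).filter fun t => (2 * j + 1) ^ 2 ∣ 4 * n * t + (1 + n ^ 2)).card : ℝ) := by
        exact_mod_cast card_union_le _ _
      linarith
    have h3 : ∑ j ∈ Icc 1 Q, 2 * (T / ((2 * j + 1 : ℕ) : ℝ) ^ 2 + 1) =
        2 * T * ∑ j ∈ Icc 1 Q, (1 : ℝ) / ((2 * j + 1 : ℕ) : ℝ) ^ 2 + 2 * Q := by
      rw [mul_sum]
      have : (2 : ℝ) * Q = ∑ j ∈ Icc 1 Q, (2 : ℝ) := by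
        rw [sum_const, Nat.card_Icc, Nat.add_sub_cancel, nsmul_eq_mul]
        ring
      rw [this, ← sum_add_distrib]
      refine sum_congr rfl fun j _ => ?_
      ring
    rw [h3] at h2
    have h4 := sum_inv_odd Q
    have h5 : ∑ j ∈ Icc 1 Q, (1 : ℝ) / ((2 * j + 1 : ℕ) : ℝ) ^ 2 ≤ 1 / 4 := by
      refine h4.trans ?_
      have : (0 : ℝ) ≤ 1 / ((Q : ℝ) + 1) := by positivity
      linarith
    have h6 : (4 : ℝ) * Q < T := by exact_mod_cast hQT
    have h7 : (0 : ℝ) ≤ T := Nat.cast_nonneg _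
    nlinarith
  rw [mem_Ioc] at htI
  obtain ⟨v, hv⟩ : ∃ v, v = 4 * n * t + 1 := ⟨_, rfl⟩
  obtain ⟨w, hw⟩ : ∃ w, w = 4 * n * t + (1 + n ^ 2) := ⟨_, rfl⟩
  have hvM : v ≤ M := by
    rw [hv, hM]
    have : 4 * n * t ≤ 4 * n * (K + T) := Nat.mul_le_mul_left _ htI.2
    omega
  have hwM : w ≤ M := by
    rw [hw, hM]
    have : 4 * n * t ≤ 4 * n * (K + T) := Nat.mul_le_mul_left _ htI.2
    omega
  -- odd squares
  have hodd : ∀ y, 0 < y → y ≤ M → (∀ j ∈ Icc 1 Q, ¬ (2 * j + 1) ^ 2 ∣ y) → ∀ x, x * x ∣ y →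
      x % 2 = 1 → x = 1 := by
    intro y hy0 hyM hy x hx hx2
    by_contra hne
    obtain ⟨j, hj⟩ : ∃ j, x = 2 * j + 1 := ⟨x / 2, by omega⟩
    have hj1 : 1 ≤ j := by omega
    have hxQ : x ≤ Q := by
      rw [hQ]
      exact Nat.le_sqrt.2 ((Nat.le_of_dvd hy0 hx).trans hyM)
    refine hy j (mem_Icc.2 ⟨hj1, by omega⟩) ?_
    rw [← hj, sq]
    exact hx
  have hvodd : v % 2 = 1 := by
    rw [hv]
    have : 4 * n * t = 2 * (2 * n * t) := by ring
    omega
  have hvsq : Squarefree v := by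
    intro x hx
    refine Nat.isUnit_iff.2 (hodd v (by omega) hvM (fun j hj => by rw [hv]; exact (ht j hj).1) x hx ?_)
    have hxv : x ∣ v := (Dvd.intro _ rfl).trans hx
    by_contra h
    have h2 : 2 ∣ x := by omega
    have := h2.trans hxv
    omega
  have hwsq : Squarefree w := by
    intro x hx
    refine Nat.isUnit_iff.2 (hodd w (by omega) hwM (fun j hj => by rw [hw]; exact (ht j hj).2) x hx ?_)
    by_contra h
    have h2 : 2 ∣ x := by omega
    have h4 : 4 ∣ w := by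
      have : 2 * 2 ∣ x * x := mul_dvd_mul h2 h2
      exact this.trans hx
    have h5 : n ^ 2 % 4 = 0 ∨ n ^ 2 % 4 = 1 := by
      have : n % 4 = 0 ∨ n % 4 = 1 ∨ n % 4 = 2 ∨ n % 4 = 3 := by omega
      rcases this with h | h | h | h <;> simp [Nat.pow_mod, h]
    have h6 : 4 * n * t = 4 * (n * t) := by ring
    rw [hw, h6] at h4
    omega
  have hnv : Nat.Coprime (n ^ 2) v := by
    refine Nat.Coprime.pow_left 2 ?_
    rw [hv]
    have : Nat.Coprime n (n * (4 * t) + 1) := by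
      rw [Nat.coprime_mul_left_add_right]
      exact Nat.coprime_one_right n
    have e : 4 * n * t + 1 = n * (4 * t) + 1 := by ring
    rw [e]
    exact this
  have hvw : w = n ^ 2 + v := by rw [hw, hv]; ring
  have hcop : Nat.Coprime v w := by
    rw [hvw, Nat.coprime_add_self_right]
    exact hnv.symm
  refine ⟨n ^ 2, v, w, v * w, ⟨by positivity, by omega, hvw.symm, hnv⟩, by ring,
    (Nat.squarefree_mul hcop).2 ⟨hvsq, hwsq⟩, ?_⟩
  have : t ≤ 4 * n * t := Nat.le_mul_of_pos_left _ (by omega)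
  omega

end Pool.Agent.HP42.SQ
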