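import Pool.Agent.HP42.SQ.Exact2

/-!
The abc inequality in its usual form for almost all square parts (helper42).
-/

set_option autoImplicit false

namespace Pool.Agent.HP42.SQ

open Finset Pool.Agent.H785R2.ABC

theorem abc_ge_sq {a b c : ℕ} (ha : 0 < a) (hb : 0 < b) (hc : a + b = c) :
    (c : ℝ) ^ 2 ≤ 2 * ((a * b * c : ℕ) : ℝ) := by
  have h1 : c ≤ 2 * (a * b) := by
    have : 1 * 1 ≤ a * b := Nat.mul_le_mul ha hb
    rcases Nat.lt_or_ge 1 a with h | h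
    · rcases Nat.lt_or_ge 1 b with h' | h'
      · have h2 : 2 * b ≤ a * b := Nat.mul_le_mul_right _ h
        have h3 : a * 2 ≤ a * b := Nat.mul_le_mul_left _ h'
        omega
      · have hb1 : b = 1 := by omega
        rw [hb1, mul_one]
        omega
    · have ha1 : a = 1 := by omega
      rw [ha1, one_mul]
      omega
  have h2 : c ^ 2 ≤ 2 * (a * b * c) := by
    calc c ^ 2 = c * c := sq c
      _ ≤ 2 * (a * b) * c := Nat.mul_le_mul_right _ h1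
      _ = 2 * (a * b * c) := by ring
  exact_mod_cast h2

theorem usual_form {ε : ℝ} (hε : 0 < ε) (hε2 : ε ≤ 1 / 8) {a b c : ℕ} (ha : 0 < a) (hb : 0 < b)
    (hc : a + b = c) (hbig : (4 : ℝ) ^ (4 / ε) < c) {R : ℝ}
    (hR : ((a * b * c : ℕ) : ℝ) ^ (1 / 2 - ε) < R) : (c : ℝ) < R ^ (1 + 3 * ε) := by
  have hc0 : (0 : ℝ) < c := lt_trans (by positivity) hbig
  have hc1 : (1 : ℝ) ≤ c := by
    have : 0 < c := by exact_mod_cast hc0
    exact_mod_cast this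
  have h0 := abc_ge_sq ha hb hc
  have h1 : (c : ℝ) ^ (1 - 2 * ε) / 2 ≤ R := by
    refine le_trans ?_ hR.le
    have h2 : ((c : ℝ) ^ 2 / 2) ^ (1 / 2 - ε) ≤ ((a * b * c : ℕ) : ℝ) ^ (1 / 2 - ε) :=
      Real.rpow_le_rpow (by positivity) (by linarith) (by linarith)
    refine le_trans ?_ h2
    rw [Real.div_rpow (by positivity) (by norm_num), ← Real.rpow_natCast,
      ← Real.rpow_mul hc0.le]
    have e1 : ((2 : ℕ) : ℝ) * (1 / 2 - ε) = 1 - 2 * ε := by push_cast; ring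
    rw [e1]
    refine div_le_div_of_nonneg_left (by positivity) (by positivity) ?_
    calc (2 : ℝ) ^ (1 / 2 - ε) ≤ (2 : ℝ) ^ (1 : ℝ) :=
          Real.rpow_le_rpow_of_exponent_le (by norm_num) (by linarith)
      _ = 2 := Real.rpow_one _
  have h2 : ((c : ℝ) ^ (1 - 2 * ε) / 2) ^ (1 + 3 * ε) ≤ R ^ (1 + 3 * ε) :=
    Real.rpow_le_rpow (by positivity) h1 (by linarith)
  refine lt_of_lt_of_le ?_ h2
  rw [Real.div_rpow (by positivity) (by norm_num), ← Real.rpow_mul hc0.le,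
    lt_div_iff₀ (by positivity)]
  have h3 : (2 : ℝ) ^ (1 + 3 * ε) ≤ 4 := by
    calc (2 : ℝ) ^ (1 + 3 * ε) ≤ (2 : ℝ) ^ (2 : ℝ) :=
          Real.rpow_le_rpow_of_exponent_le (by norm_num) (by linarith)
      _ = 4 := by
          rw [show (2 : ℝ) = ((2 : ℕ) : ℝ) by norm_num, Real.rpow_natCast]
          norm_num
  have h4 : (4 : ℝ) < (c : ℝ) ^ (ε / 4) := by
    have := Real.rpow_lt_rpow (by positivity) hbig (show 0 < ε / 4 by positivity)
    rw [← Real.rpow_mul (by norm_num)] at this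
    have e : 4 / ε * (ε / 4) = 1 := by field_simp
    rwa [e, Real.rpow_one] at this
  have h5 : (c : ℝ) * (c : ℝ) ^ (ε / 4) ≤ (c : ℝ) ^ ((1 - 2 * ε) * (1 + 3 * ε)) := by
    have : (c : ℝ) * (c : ℝ) ^ (ε / 4) = (c : ℝ) ^ (1 + ε / 4) := by
      rw [Real.rpow_add hc0, Real.rpow_one]
    rw [this]
    refine Real.rpow_le_rpow_of_exponent_le hc1 ?_
    nlinarith
  calc (c : ℝ) * (2 : ℝ) ^ (1 + 3 * ε) ≤ c * 4 := mul_le_mul_of_nonneg_left h3 hc0.le
    _ < c * (c : ℝ) ^ (ε / 4) := mul_lt_mul_of_pos_left h4 hc0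
    _ ≤ _ := h5

/-- the two forms of the abc inequality, for almost all square parts -/
theorem abc_square_usual (ε : ℝ) (hε : 0 < ε) (hε2 : ε ≤ 1 / 8) : ∃ C : ℝ, 0 ≤ C ∧ ∀ N : ℕ,
    1 ≤ N → ∀ F : Finset ℕ, (∀ n ∈ F, 1 ≤ n ∧ n ≤ N ∧ ∃ a b c m : ℕ, (0 < a ∧ 0 < b ∧ a + b = c ∧
      Nat.gcd a b = 1) ∧ a * b * c = n ^ 2 * m ∧ Squarefree m ∧
        ¬ (((a * b * c : ℕ) : ℝ) ^ (1 / 2 - ε) < rad (a * b * c) ∧
          (c : ℝ) < (rad (a * b * c) : ℝ) ^ (1 + 3 * ε))) →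
    (F.card : ℝ) ≤ C * (N : ℝ) ^ (1 - ε) := by
  classical
  obtain ⟨C, hC, h⟩ := abc_square ε hε hε2
  obtain ⟨c0, hc0⟩ := exists_nat_ge ((4 : ℝ) ^ (4 / ε))
  refine ⟨C + (c0 ^ 3 : ℕ), by positivity, fun N hN F hF => ?_⟩
  have hN1 : (1 : ℝ) ≤ N := by exact_mod_cast hN
  have b1 : ((F.filter fun n => ¬ n ≤ c0 ^ 3).card : ℝ) ≤ C * (N : ℝ) ^ (1 - ε) := by
    refine h N hN _ fun n hn => ?_
    rw [mem_filter] at hn
    obtain ⟨n1, n2, a, b, c, m, ⟨a1, a2, a3, a4⟩, d1, d2, d3⟩ := hF n hn.1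
    refine ⟨n1, n2, a, b, c, m, ⟨a1, a2, a3, a4⟩, d1, d2, ?_⟩
    by_contra hcon
    rw [not_le] at hcon
    refine d3 ⟨hcon, ?_⟩
    refine usual_form hε hε2 a1 a2 a3 ?_ hcon
    refine lt_of_le_of_lt hc0 ?_
    by_contra hle
    rw [not_lt] at hle
    have hle' : c ≤ c0 := by exact_mod_cast hle
    apply hn.2
    have e1 : n ≤ a * b * c := by
      have hm0 : 0 < m := Nat.pos_of_ne_zero d2.ne_zero
      calc n ≤ n ^ 2 * m := by
            rw [sq, mul_assoc]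
            exact Nat.le_mul_of_pos_right _ (Nat.mul_pos n1 hm0)
        _ = a * b * c := d1.symm
    refine e1.trans ?_
    calc a * b * c ≤ c0 * c0 * c0 :=
          Nat.mul_le_mul (Nat.mul_le_mul (by omega) (by omega)) hle'
      _ = c0 ^ 3 := by ring
  have b2 : ((F.filter fun n => n ≤ c0 ^ 3).card : ℝ) ≤ (c0 ^ 3 : ℕ) * (N : ℝ) ^ (1 - ε) := by
    have g1 : (F.filter fun n => n ≤ c0 ^ 3) ⊆ Icc 1 (c0 ^ 3) := by
      intro n hn
      rw [mem_filter] at hn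
      exact mem_Icc.2 ⟨(hF n hn.1).1, hn.2⟩
    have g2 := card_le_card g1
    rw [Nat.card_Icc, Nat.add_sub_cancel] at g2
    have g3 : ((F.filter fun n => n ≤ c0 ^ 3).card : ℝ) ≤ ((c0 ^ 3 : ℕ) : ℝ) := by
      exact_mod_cast g2
    refine g3.trans ?_
    refine le_mul_of_one_le_right (Nat.cast_nonneg _) ?_
    exact Real.one_le_rpow hN1 (by linarith)
  have h3 : F.card = (F.filter fun n => n ≤ c0 ^ 3).card +
      (F.filter fun n => ¬ n ≤ c0 ^ 3).card := (Finset.card_filter_add_card_filter_not _).symm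
  rw [h3]
  push_cast at b2 ⊢
  linarith

end Pool.Agent.HP42.SQ
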