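import Pool.Agent.HP42.SQ.Box
import Pool.Agent.H785R2.ABC.A12
import Pool.Agent.TH170.QC.Prime
import Pool.Agent.TH867.SM.Fam

/-!
The number of the solutions of `x₀ u₀ ^ k + x₁ u₁ ^ k = x₂ u₂ ^ k` with `u₀ u₁ u₂ ≤ N` (helper42).
-/

set_option autoImplicit false

namespace Pool.Agent.HP42.SQ

open Finset Pool.Agent.H785R2.ABC

/-- all boxes -/
theorem fib_nat {p k N : ℕ} [Fact p.Prime] (hk : 2 ≤ k) {x : ℕ × ℕ × ℕ} (hx : Cx x)
    (hpk : ¬ p ∣ k) (h0 : ¬ p ∣ x.1) (h1 : ¬ p ∣ x.2.1) (h2 : ¬ p ∣ x.2.2)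
    (T : Finset (ℕ × ℕ × ℕ)) (hT : ∀ t ∈ T, Sl k x t ∧ Ct x t ∧ t.1 * t.2.1 * t.2.2 ≤ N)
    (hp : 24 * N ≤ x.1 * x.2.1 * x.2.2 * p ^ 3) :
    T.card ≤ 2 * ((2 * k) ^ (x.1 * x.2.1 * x.2.2).primeFactors.card * (k * (p + 1))) *
      (Nat.log 2 N + 1) ^ 3 := by
  classical
  obtain ⟨f, hf⟩ : ∃ f : ℕ × ℕ × ℕ → ℕ × ℕ × ℕ, f = fun t =>
    (Nat.log 2 t.1, Nat.log 2 t.2.1, Nat.log 2 t.2.2) := ⟨_, rfl⟩
  have hfib : ∀ c ∈ T.image f, (T.filter fun t => f t = c).card ≤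
      2 * ((2 * k) ^ (x.1 * x.2.1 * x.2.2).primeFactors.card * (k * (p + 1))) := by
    intro c hc
    refine box_card hk hx hpk h0 h1 h2 _ (fun t ht => ?_) fun t ht u hu v hv => ?_
    · have := hT t (mem_filter.1 ht).1
      exact ⟨this.1, this.2.1⟩
    · have hlt : ∀ s ∈ T.filter (fun t => f t = c), s.1 < 2 ^ (c.1 + 1) ∧
          s.2.1 < 2 ^ (c.2.1 + 1) ∧ s.2.2 < 2 ^ (c.2.2 + 1) := by
        intro s hs
        obtain ⟨-, s2⟩ := mem_filter.1 hs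
        rw [hf] at s2
        rw [← s2]
        exact ⟨Nat.lt_pow_succ_log_self (by norm_num) _,
          Nat.lt_pow_succ_log_self (by norm_num) _, Nat.lt_pow_succ_log_self (by norm_num) _⟩
      have hM : 2 ^ (c.1 + 1) * 2 ^ (c.2.1 + 1) * 2 ^ (c.2.2 + 1) ≤ 8 * N := by
        obtain ⟨t1, t2⟩ := mem_filter.1 ht
        obtain ⟨a, -, b⟩ := hT t t1
        rw [hf] at t2
        rw [← t2]
        have q0 := Nat.pow_log_le_self 2 a.p0.ne'
        have q1 := Nat.pow_log_le_self 2 a.p1.ne'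
        have q2 := Nat.pow_log_le_self 2 a.p2.ne'
        calc 2 ^ (Nat.log 2 t.1 + 1) * 2 ^ (Nat.log 2 t.2.1 + 1) * 2 ^ (Nat.log 2 t.2.2 + 1)
            = 8 * (2 ^ Nat.log 2 t.1 * 2 ^ Nat.log 2 t.2.1 * 2 ^ Nat.log 2 t.2.2) := by
              rw [pow_succ, pow_succ, pow_succ]
              ring
          _ ≤ 8 * (t.1 * t.2.1 * t.2.2) :=
              Nat.mul_le_mul_left 8 (Nat.mul_le_mul (Nat.mul_le_mul q0 q1) q2)
          _ ≤ 8 * N := Nat.mul_le_mul_left 8 b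
      have := dn_lt hM (hlt t ht) (hlt u hu) (hlt v hv)
      refine lt_of_lt_of_le this ?_
      have : ((24 * N : ℕ) : ℤ) ≤ ((x.1 * x.2.1 * x.2.2 * p ^ 3 : ℕ) : ℤ) := by exact_mod_cast hp
      refine le_trans (le_of_eq ?_) this
      push_cast
      ring
  refine (Finset.card_le_mul_card_image T _ hfib).trans (Nat.mul_le_mul_left _ ?_)
  have hsub : T.image f ⊆ (range (Nat.log 2 N + 1)) ×ˢ ((range (Nat.log 2 N + 1)) ×ˢ
      (range (Nat.log 2 N + 1))) := by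
    intro c hc
    obtain ⟨t, ht, rfl⟩ := mem_image.1 hc
    obtain ⟨a, -, b⟩ := hT t ht
    have a0 := a.p0
    have a1 := a.p1
    have a2 := a.p2
    have b0 : t.1 ≤ N := by
      refine le_trans ?_ b
      calc t.1 = t.1 * 1 * 1 := by ring
        _ ≤ t.1 * t.2.1 * t.2.2 := Nat.mul_le_mul (Nat.mul_le_mul le_rfl a1) a2
    have b1 : t.2.1 ≤ N := by
      refine le_trans ?_ b
      calc t.2.1 = 1 * t.2.1 * 1 := by ring
        _ ≤ t.1 * t.2.1 * t.2.2 := Nat.mul_le_mul (Nat.mul_le_mul a0 le_rfl) a2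
    have b2 : t.2.2 ≤ N := by
      refine le_trans ?_ b
      calc t.2.2 = 1 * 1 * t.2.2 := by ring
        _ ≤ t.1 * t.2.1 * t.2.2 := Nat.mul_le_mul (Nat.mul_le_mul a0 a1) le_rfl
    rw [hf]
    simp only [mem_product, mem_range]
    exact ⟨Nat.lt_succ_of_le (Nat.log_mono_right b0), Nat.lt_succ_of_le (Nat.log_mono_right b1),
      Nat.lt_succ_of_le (Nat.log_mono_right b2)⟩
  refine (card_le_card hsub).trans (le_of_eq ?_)
  rw [card_product, card_product, card_range]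
  ring

/-- **the solutions for given coefficients** -/
theorem fib {k : ℕ} (hk : 2 ≤ k) (ε : ℝ) (hε : 0 < ε) : ∃ D : ℝ, 0 < D ∧ ∀ X : ℝ, 1 ≤ X →
    ∀ x : ℕ × ℕ × ℕ, Cx x → (rad (x.1 * x.2.1 * x.2.2) : ℝ) ≤ X → ∀ N : ℕ, 1 ≤ N → (N : ℝ) ≤ X →
    ∀ T : Finset (ℕ × ℕ × ℕ), (∀ t ∈ T, Sl k x t ∧ Ct x t ∧ t.1 * t.2.1 * t.2.2 ≤ N) →
    (T.card : ℝ) ≤ D * X ^ ε *
      (1 + ((N : ℝ) / ((x.1 * x.2.1 * x.2.2 : ℕ) : ℝ)) ^ (1 / 3 : ℝ)) := by
  have hk0 : (0 : ℝ) < k := by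
    have : 0 < k := by omega
    exact_mod_cast this
  have hk2 : (2 : ℝ) ≤ k := by exact_mod_cast hk
  obtain ⟨D1, hD1, h1⟩ := stmtA1 (2 * k) (by linarith) (ε / 2) (by positivity)
  obtain ⟨D2, hD2, h2⟩ := Pool.Agent.TH867.SM.log_pow_le (ε / 2) (by positivity)
  have hlk : 0 ≤ Real.log k := Real.log_nonneg (by linarith)
  obtain ⟨c, hc⟩ : ∃ c : ℝ, c = 10 ^ 4 + 1 + 10 * Real.log k := ⟨_, rfl⟩
  have hc0 : 0 < c := by rw [hc]; positivity
  refine ⟨2 * D1 * k * c * D2, by positivity, fun X hX x hx hr N hN hNX T hT => ?_⟩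
  have hX0 : 0 < X := by linarith
  have hlX : 0 ≤ Real.log X := Real.log_nonneg hX
  obtain ⟨m, hm⟩ : ∃ m : ℕ, m = x.1 * x.2.1 * x.2.2 := ⟨_, rfl⟩
  rw [← hm] at hr ⊢
  have hm1 : 1 ≤ m := by
    rw [hm]
    exact Nat.mul_pos (Nat.mul_pos hx.p0 hx.p1) hx.p2
  have hm0 : (0 : ℝ) < m := by exact_mod_cast hm1
  have hN0 : (0 : ℝ) < N := by exact_mod_cast hN
  obtain ⟨q, hq⟩ : ∃ q : ℝ, q = ((N : ℝ) / m) ^ (1 / 3 : ℝ) := ⟨_, rfl⟩
  have hq0 : 0 < q := by rw [hq]; positivity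
  have hq3 : q ^ 3 * m = N := by
    rw [hq, ← Real.rpow_natCast, ← Real.rpow_mul (by positivity)]
    norm_num
    field_simp
  rw [← hq]
  have hr1 : 1 ≤ rad m := rad_pos' m
  obtain ⟨P, hP⟩ : ∃ P : ℝ, P = 10 ^ 4 + 10 * Real.log (k * X) + 12 * q := ⟨_, rfl⟩
  have hlkX : Real.log (k * X) = Real.log k + Real.log X := Real.log_mul hk0.ne' hX0.ne'
  have hP4 : 10 ^ 4 ≤ P := by
    rw [hP, hlkX]
    nlinarith
  have hlog : 10 * Real.log ((k * rad m : ℕ) : ℝ) ≤ P := by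
    have e1 : Real.log ((k * rad m : ℕ) : ℝ) ≤ Real.log (k * X) := by
      refine Real.log_le_log ?_ ?_
      · have : 0 < k * rad m := by positivity
        exact_mod_cast this
      · push_cast
        exact mul_le_mul_of_nonneg_left hr hk0.le
    rw [hP]
    nlinarith
  obtain ⟨p, hpp, hpn, hp4, hpP⟩ := Pool.Agent.TH170.QC.exists_prime_not_dvd hP4
    (show 0 < k * rad m by positivity) hlog
  have : Fact p.Prime := ⟨hpp⟩
  have hpk : ¬ p ∣ k := fun h => hpn (h.mul_right _)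
  have hpm : ¬ p ∣ m := by
    intro h
    apply hpn
    refine Dvd.dvd.mul_left ?_ _
    exact Finset.dvd_prod_of_mem _ (Nat.mem_primeFactors.2 ⟨hpp, h, by omega⟩)
  have hp0 : ¬ p ∣ x.1 := fun h => hpm (by rw [hm]; exact (h.mul_right _).mul_right _)
  have hp1 : ¬ p ∣ x.2.1 := fun h => hpm (by rw [hm]; exact (h.mul_left _).mul_right _)
  have hp2 : ¬ p ∣ x.2.2 := fun h => hpm (by rw [hm]; exact h.mul_left _)
  have hp24 : 24 * N ≤ x.1 * x.2.1 * x.2.2 * p ^ 3 := by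
    have e1 : 3 * q ≤ p := by
      have : 12 * q ≤ P := by
        rw [hP, hlkX]
        nlinarith
      linarith
    have e2 : (3 * q) ^ 3 ≤ (p : ℝ) ^ 3 := pow_le_pow_left₀ (by positivity) e1 3
    have e3 : (24 * N : ℝ) ≤ m * p ^ 3 := by
      calc (24 * N : ℝ) ≤ 27 * N := by linarith
        _ = m * (3 * q) ^ 3 := by rw [← hq3]; ring
        _ ≤ m * p ^ 3 := mul_le_mul_of_nonneg_left e2 hm0.le
    rw [← hm]
    exact_mod_cast e3
  have hfin := fib_nat hk hx hpk hp0 hp1 hp2 T hT hp24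
  rw [← hm] at hfin
  have hω : ((2 * (k : ℝ)) ^ m.primeFactors.card) ≤ D1 * X ^ (ε / 2) := by
    have := h1 (rad m) hr1
    rw [primeFactors_rad] at this
    refine this.trans (mul_le_mul_of_nonneg_left ?_ hD1.le)
    exact Real.rpow_le_rpow (by positivity) hr (by positivity)
  have hpc : (p : ℝ) + 1 ≤ c * (1 + Real.log X) * (1 + q) := by
    have e1 : (p : ℝ) + 1 ≤ c + 10 * Real.log X + 12 * q := by
      have : (p : ℝ) ≤ 10 ^ 4 + 10 * (Real.log k + Real.log X) + 12 * q := by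
        rw [← hlkX, ← hP]
        exact hpP
      rw [hc]
      linarith
    have hc12 : 12 ≤ c := by
      rw [hc]
      nlinarith
    have a1 : 0 ≤ Real.log X * q := mul_nonneg hlX hq0.le
    have a2 : 10 * Real.log X ≤ c * Real.log X := mul_le_mul_of_nonneg_right (by linarith) hlX
    have a3 : 12 * q ≤ c * q := mul_le_mul_of_nonneg_right hc12 hq0.le
    have a4 : 0 ≤ c * (Real.log X * q) := mul_nonneg hc0.le a1
    calc (p : ℝ) + 1 ≤ c + 10 * Real.log X + 12 * q := e1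
      _ ≤ c + c * Real.log X + c * q + c * (Real.log X * q) := by linarith
      _ = c * (1 + Real.log X) * (1 + q) := by ring
  have hL : ((Nat.log 2 N : ℝ) + 1) ≤ 2 * (1 + Real.log X) := by
    have e1 : (Nat.log 2 N : ℝ) ≤ Real.logb 2 N := by
      have := Real.natLog_le_logb N 2
      exact_mod_cast this
    have e2 : Real.logb 2 N ≤ 2 * Real.log X := by
      rw [Real.logb]
      have l2 := Real.log_two_gt_d9
      rw [div_le_iff₀ (by linarith)]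
      have e3 : Real.log N ≤ Real.log X := Real.log_le_log hN0 hNX
      have e4 : 0 ≤ Real.log N := Real.log_natCast_nonneg N
      nlinarith
    linarith
  have hL3 : ((Nat.log 2 N : ℝ) + 1) ^ 3 ≤ 8 * (1 + Real.log X) ^ 3 := by
    calc ((Nat.log 2 N : ℝ) + 1) ^ 3 ≤ (2 * (1 + Real.log X)) ^ 3 :=
          pow_le_pow_left₀ (by positivity) hL 3
      _ = _ := by ring
  have h6 : 8 * (1 + Real.log X) ^ 4 ≤ D2 * X ^ (ε / 2) := by
    refine le_trans ?_ (h2 X hX)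
    have e1 : (1 + Real.log X) ^ 4 ≤ (1 + Real.log X) ^ 6 :=
      pow_le_pow_right₀ (by linarith) (by norm_num)
    have e2 : 0 ≤ (1 + Real.log X) ^ 6 := by positivity
    linarith
  have hfinr : (T.card : ℝ) ≤ 2 * ((2 * (k : ℝ)) ^ m.primeFactors.card * (k * ((p : ℝ) + 1))) *
      ((Nat.log 2 N : ℝ) + 1) ^ 3 := by exact_mod_cast hfin
  calc (T.card : ℝ) ≤ _ := hfinr
    _ ≤ 2 * ((D1 * X ^ (ε / 2)) * (k * (c * (1 + Real.log X) * (1 + q)))) *
        (8 * (1 + Real.log X) ^ 3) := by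
        refine mul_le_mul ?_ hL3 (by positivity) (by positivity)
        refine mul_le_mul_of_nonneg_left ?_ (by norm_num)
        exact mul_le_mul hω (mul_le_mul_of_nonneg_left hpc hk0.le) (by positivity) (by positivity)
    _ = 2 * D1 * k * c * (8 * (1 + Real.log X) ^ 4) * X ^ (ε / 2) * (1 + q) := by ring
    _ ≤ 2 * D1 * k * c * (D2 * X ^ (ε / 2)) * X ^ (ε / 2) * (1 + q) := by gcongr
    _ = 2 * D1 * k * c * D2 * (X ^ (ε / 2) * X ^ (ε / 2)) * (1 + q) := by ring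
    _ = 2 * D1 * k * c * D2 * X ^ ε * (1 + q) := by
        rw [← Real.rpow_add hX0, add_halves]

end Pool.Agent.HP42.SQ
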