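import Pool.Agent.HP42.SQ.Low2

/-!
The final counts (helper42).
-/

set_option autoImplicit false

namespace Pool.Agent.HP42.SQ

open Finset Pool.Agent.H785R2.ABC
open Pool.Agent.TH867.SR (Tr N3)

/-- abc triples with `n ^ k ∣ a b c`, `n ≤ N`, `rad (a b c / n ^ k) ≤ Y` -/
def trip (k N : ℕ) (Y : ℝ) : Set (ℕ × ℕ × ℕ) :=
  {t | (0 < t.1 ∧ 0 < t.2.1 ∧ t.1 + t.2.1 = t.2.2 ∧ Nat.gcd t.1 t.2.1 = 1) ∧
    ∃ n : ℕ, 1 ≤ n ∧ n ≤ N ∧ n ^ k ∣ t.1 * t.2.1 * t.2.2 ∧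
      (rad (t.1 * t.2.1 * t.2.2 / n ^ k) : ℝ) ≤ Y}

theorem upper_fin {k : ℕ} (hk : 2 ≤ k) (ε : ℝ) (hε : 0 < ε) : ∃ C : ℝ, 0 < C ∧ ∀ N : ℕ, 1 ≤ N →
    ∀ Y : ℝ, 1 ≤ Y → ∀ F : Finset (ℕ × ℕ × ℕ), (∀ t ∈ F, t ∈ trip k N Y) →
    (F.card : ℝ) ≤ C * ((N : ℝ) * Y) ^ ε * (Y + (N : ℝ) ^ (1 / 3 : ℝ) * Y ^ (2 / 3 : ℝ)) := by
  classical
  obtain ⟨D, hD, h⟩ := core hk ε hε
  refine ⟨2 * D, by positivity, fun N hN Y hY F hF => ?_⟩
  have hN1 : (1 : ℝ) ≤ N := by exact_mod_cast hN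
  have hX1 : 1 ≤ (N : ℝ) * Y := by nlinarith
  have hNX : (N : ℝ) ≤ N * Y := by nlinarith
  have hYX : Y ≤ N * Y := by nlinarith
  obtain ⟨Q, hQ⟩ : ∃ Q : ℝ, Q = D * ((N : ℝ) * Y) ^ ε *
    (Y + (N : ℝ) ^ (1 / 3 : ℝ) * Y ^ (2 / 3 : ℝ)) := ⟨_, rfl⟩
  obtain ⟨s, hs⟩ : ∃ s : ℕ × ℕ × ℕ → (Fin 3 → ℕ), s = fun t => srt t.1 t.2.1 t.2.2 := ⟨_, rfl⟩
  have himg : ∀ G : Finset (ℕ × ℕ × ℕ), G ⊆ F → ((G.image s).card : ℝ) ≤ Q := by
    intro G hG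
    rw [hQ]
    refine h _ hX1 N hN hNX Y hY hYX _ fun u hu => ?_
    obtain ⟨t, ht, rfl⟩ := mem_image.1 hu
    obtain ⟨⟨a1, a2, a3, a4⟩, n, n1, n2, n3, n4⟩ := hF t (hG ht)
    have hTr : Tr (s t) := by rw [hs]; exact srt_tr a1 a2 a3 a4
    have hN3 : N3 (s t) = t.1 * t.2.1 * t.2.2 := by rw [hs]; exact srt_N3 _ _ _
    have hN3' : N3 (s t) = n ^ k * (t.1 * t.2.1 * t.2.2 / n ^ k) := by
      rw [hN3, Nat.mul_div_cancel' n3]
    have hm0 : t.1 * t.2.1 * t.2.2 / n ^ k ≠ 0 := by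
      intro h0
      rw [h0, mul_zero] at hN3'
      exact hTr.N3_pos.ne' hN3'
    refine ⟨hTr, rr_le hTr ?_, n, _, n1, n2, hN3', n4⟩
    have c1 : rad (N3 (s t)) ≤ rad n * rad (t.1 * t.2.1 * t.2.2 / n ^ k) := by
      rw [hN3']
      refine (rad_mul_le (by positivity) ?_).trans ?_
      · exact hm0
      · rw [rad_pow (by omega)]
    have c2 : (rad n : ℝ) ≤ N := by exact_mod_cast (rad_le_self n1).trans n2
    calc (rad (N3 (s t)) : ℝ) ≤ (rad n : ℝ) * rad (t.1 * t.2.1 * t.2.2 / n ^ k) := by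
          exact_mod_cast c1
      _ ≤ (N : ℝ) * Y := mul_le_mul c2 n4 (by positivity) (by linarith)
  have hsval : ∀ t, s t 0 = min t.1 t.2.1 ∧ s t 1 = max t.1 t.2.1 ∧ s t 2 = t.2.2 := by
    intro t
    rw [hs]
    exact ⟨rfl, rfl, rfl⟩
  have h1 : ((F.filter fun t => t.1 ≤ t.2.1).card : ℝ) ≤ Q := by
    have := himg (F.filter fun t => t.1 ≤ t.2.1) (filter_subset _ _)
    rwa [card_image_of_injOn] at this
    intro t ht u hu htu
    have p1 := (mem_filter.1 (mem_coe.1 ht)).2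
    have p2 := (mem_filter.1 (mem_coe.1 hu)).2
    obtain ⟨t0, t1, t2⟩ := hsval t
    obtain ⟨u0, u1, u2⟩ := hsval u
    rw [htu, u0] at t0
    rw [htu, u1] at t1
    rw [htu, u2] at t2
    rw [min_eq_left p1, min_eq_left p2] at t0
    rw [max_eq_right p1, max_eq_right p2] at t1
    exact (Prod.ext t0 (Prod.ext t1 t2)).symm
  have h2 : ((F.filter fun t => ¬ t.1 ≤ t.2.1).card : ℝ) ≤ Q := by
    have := himg (F.filter fun t => ¬ t.1 ≤ t.2.1) (filter_subset _ _)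
    rwa [card_image_of_injOn] at this
    intro t ht u hu htu
    have p1 := le_of_not_ge (mem_filter.1 (mem_coe.1 ht)).2
    have p2 := le_of_not_ge (mem_filter.1 (mem_coe.1 hu)).2
    obtain ⟨t0, t1, t2⟩ := hsval t
    obtain ⟨u0, u1, u2⟩ := hsval u
    rw [htu, u0] at t0
    rw [htu, u1] at t1
    rw [htu, u2] at t2
    rw [min_eq_right p1, min_eq_right p2] at t0
    rw [max_eq_left p1, max_eq_left p2] at t1
    exact (Prod.ext t1 (Prod.ext t0 t2)).symm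
  have h3 : F.card = (F.filter fun t => t.1 ≤ t.2.1).card +
      (F.filter fun t => ¬ t.1 ≤ t.2.1).card := (Finset.card_filter_add_card_filter_not _).symm
  rw [h3]
  push_cast
  have : 2 * D * ((N : ℝ) * Y) ^ ε * (Y + (N : ℝ) ^ (1 / 3 : ℝ) * Y ^ (2 / 3 : ℝ)) = Q + Q := by
    rw [hQ]; ring
  rw [this]
  exact add_le_add h1 h2

/-- a set all of whose finite subsets are bounded -/
theorem set_bound {α : Type*} {S : Set α} {B : ℝ} (h : ∀ F : Finset α, (∀ t ∈ F, t ∈ S) →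
    (F.card : ℝ) ≤ B) : S.Finite ∧ (S.ncard : ℝ) ≤ B := by
  have hfin : S.Finite := by
    by_contra hinf
    obtain ⟨m, hm⟩ := exists_nat_gt B
    obtain ⟨F, hF, hc⟩ := Set.Infinite.exists_subset_card_eq hinf m
    have := h F (fun t ht => hF ht)
    rw [hc] at this
    linarith
  refine ⟨hfin, ?_⟩
  have h1 := h hfin.toFinset (fun t ht => hfin.mem_toFinset.1 ht)
  rwa [← Set.ncard_eq_toFinset_card S hfin] at h1

theorem upper {k : ℕ} (hk : 2 ≤ k) (ε : ℝ) (hε : 0 < ε) : ∃ C : ℝ, ∀ N : ℕ, 1 ≤ N →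
    ∀ Y : ℝ, 1 ≤ Y → (trip k N Y).Finite ∧ ((trip k N Y).ncard : ℝ) ≤
      C * ((N : ℝ) * Y) ^ ε * (Y + (N : ℝ) ^ (1 / 3 : ℝ) * Y ^ (2 / 3 : ℝ)) := by
  obtain ⟨C, _, h⟩ := upper_fin hk ε hε
  exact ⟨C, fun N hN Y hY => set_bound (h N hN Y hY)⟩

/-- almost all `n`: the cofactor -/
theorem cofactor {k : ℕ} (hk : 2 ≤ k) (ε : ℝ) (hε : 0 < ε) (hε1 : ε ≤ 1) : ∃ C : ℝ, ∀ N : ℕ,
    1 ≤ N → (({n : ℕ | 1 ≤ n ∧ n ≤ N ∧ ∃ a b c : ℕ, (0 < a ∧ 0 < b ∧ a + b = c ∧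
      Nat.gcd a b = 1) ∧ n ^ k ∣ a * b * c ∧ (rad (a * b * c / n ^ k) : ℝ) ≤
        (n : ℝ) ^ (1 - ε)}.ncard : ℕ) : ℝ) ≤ C * (N : ℝ) ^ (1 - ε / 2) := by
  obtain ⟨C, hC, h⟩ := bad_card hk ε (ε / 6) hε1 (by positivity)
  refine ⟨C, fun N hN => ?_⟩
  refine (set_bound (B := C * (N : ℝ) ^ (1 - ε / 2)) fun F hF => ?_).2
  have h1 := h N hN F (fun n hn => by
    obtain ⟨n1, n2, a, b, c, ⟨a1, a2, a3, a4⟩, d1, d2⟩ := hF n hn
    refine ⟨n1, n2, srt a b c, _, srt_tr a1 a2 a3 a4, ?_, d2.trans ?_⟩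
    · rw [srt_N3, Nat.mul_div_cancel' d1]
    · exact Real.rpow_le_rpow (Nat.cast_nonneg _) (by exact_mod_cast n2) (by linarith)) hε.le
  have e : 1 - 2 / 3 * ε + ε / 6 = 1 - ε / 2 := by ring
  rwa [e] at h1

theorem rad_gcd {m n : ℕ} (hm : m ≠ 0) (hn : n ≠ 0) :
    rad (m * n) * rad (Nat.gcd m n) = rad m * rad n := by
  rw [rad, rad, rad, rad, Nat.primeFactors_mul hm hn, Nat.primeFactors_gcd hm hn]
  exact Finset.prod_union_inter

/-- almost all `n`: the whole radical -/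
theorem whole {k : ℕ} (hk : 2 ≤ k) (ε : ℝ) (hε : 0 < ε) (hε1 : ε ≤ 1) : ∃ C : ℝ, ∀ N : ℕ,
    1 ≤ N → (({n : ℕ | 1 ≤ n ∧ n ≤ N ∧ ∃ a b c : ℕ, (0 < a ∧ 0 < b ∧ a + b = c ∧
      Nat.gcd a b = 1) ∧ n ^ k ∣ a * b * c ∧
        ((rad (a * b * c) * rad (Nat.gcd n (a * b * c / n ^ k)) : ℕ) : ℝ) ≤
        (n : ℝ) ^ (2 - ε)}.ncard : ℕ) : ℝ) ≤ C * (N : ℝ) ^ (1 - ε / 3) := by
  classical
  obtain ⟨C, hC, h⟩ := bad_card hk (3 / 5 * ε) (ε / 15) (by linarith) (by positivity)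
  obtain ⟨D, hD, h4⟩ := stmtA4_of (stmtA3_of stmtA2) (ε / 15) (by positivity)
  refine ⟨C + D, fun N hN => ?_⟩
  have hN1 : (1 : ℝ) ≤ N := by exact_mod_cast hN
  have hN0 : (0 : ℝ) < N := by linarith
  refine (set_bound (B := (C + D) * (N : ℝ) ^ (1 - ε / 3)) fun F hF => ?_).2
  obtain ⟨R, hR⟩ : ∃ R : ℝ, R = (N : ℝ) ^ (1 - 2 / 5 * ε) := ⟨_, rfl⟩
  have hR0 : 0 < R := by rw [hR]; positivity
  have b1 : ((F.filter fun n => (rad n : ℝ) ≤ R).card : ℝ) ≤ D * (N : ℝ) ^ (1 - ε / 3) := by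
    have g1 := h4 N hN R hR0.le
    have g2 : (F.filter fun n => (rad n : ℝ) ≤ R) ⊆
        (Icc 1 N).filter fun d => (rad d : ℝ) ≤ R := by
      intro n hn
      rw [mem_filter] at hn ⊢
      obtain ⟨n1, n2, -⟩ := hF n hn.1
      exact ⟨mem_Icc.2 ⟨n1, n2⟩, hn.2⟩
    have g3 : ((F.filter fun n => (rad n : ℝ) ≤ R).card : ℝ) ≤
        (((Icc 1 N).filter fun d => (rad d : ℝ) ≤ R).card : ℝ) := by
      exact_mod_cast card_le_card g2
    refine (g3.trans g1).trans (le_of_eq ?_)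
    rw [hR, mul_assoc, ← Real.rpow_add hN0]
    congr 2
    ring
  have b2 : ((F.filter fun n => ¬ (rad n : ℝ) ≤ R).card : ℝ) ≤ C * (N : ℝ) ^ (1 - ε / 3) := by
    have g1 := h N hN (F.filter fun n => ¬ (rad n : ℝ) ≤ R) (fun n hn => by
      rw [mem_filter] at hn
      obtain ⟨n1, n2, a, b, c, ⟨a1, a2, a3, a4⟩, d1, d2⟩ := hF n hn.1
      refine ⟨n1, n2, srt a b c, a * b * c / n ^ k, srt_tr a1 a2 a3 a4, ?_, ?_⟩
      · rw [srt_N3, Nat.mul_div_cancel' d1]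
      · obtain ⟨m, hm⟩ : ∃ m, m = a * b * c / n ^ k := ⟨_, rfl⟩
        have habc : a * b * c = n ^ k * m := by rw [hm, Nat.mul_div_cancel' d1]
        have habc0 : a * b * c ≠ 0 := by
          have : 0 < c := by omega
          positivity
        have hm0 : m ≠ 0 := by
          rintro rfl
          rw [mul_zero] at habc
          exact habc0 habc
        have hn0 : n ≠ 0 := by omega
        rw [← hm] at d2 ⊢
        have e1 : rad (a * b * c) = rad (n * m) := by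
          rw [habc, rad, rad, Nat.primeFactors_mul (pow_ne_zero k hn0) hm0,
            Nat.primeFactors_pow n (by omega), Nat.primeFactors_mul hn0 hm0]
        rw [e1, rad_gcd hn0 hm0] at d2
        have e2 : R < rad n := not_le.1 hn.2
        have e3 : (n : ℝ) ^ (2 - ε) ≤ (N : ℝ) ^ (2 - ε) :=
          Real.rpow_le_rpow (Nat.cast_nonneg _) (by exact_mod_cast n2) (by linarith)
        have e4 : R * rad m ≤ (N : ℝ) ^ (2 - ε) := by
          push_cast at d2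
          have : R * rad m ≤ (rad n : ℝ) * rad m :=
            mul_le_mul_of_nonneg_right e2.le (Nat.cast_nonneg _)
          linarith
        have e5 : (N : ℝ) ^ (2 - ε) = R * (N : ℝ) ^ (1 - 3 / 5 * ε) := by
          rw [hR, ← Real.rpow_add hN0]
          congr 1
          ring
        rw [e5] at e4
        exact le_of_mul_le_mul_left e4 hR0) (by positivity)
    have e : 1 - 2 / 3 * (3 / 5 * ε) + ε / 15 = 1 - ε / 3 := by ring
    rwa [e] at g1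
  have h3 : F.card = (F.filter fun n => (rad n : ℝ) ≤ R).card +
      (F.filter fun n => ¬ (rad n : ℝ) ≤ R).card := (Finset.card_filter_add_card_filter_not _).symm
  rw [h3]
  push_cast
  linarith

end Pool.Agent.HP42.SQ
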