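import Pool.Agent.HP42.SQ.Fin

/-!
The final lower bounds (helper42).
-/

set_option autoImplicit false

namespace Pool.Agent.HP42.SQ

open Finset Pool.Agent.H785R2.ABC

/-- abc triples with `n ^ 2 ∣ a b c`, `n` prime to the cofactor, `n ≤ N`, `rad (a b c / n ^ 2) ≤ Y` -/
def utrip (N : ℕ) (Y : ℝ) : Set (ℕ × ℕ × ℕ) :=
  {t | (0 < t.1 ∧ 0 < t.2.1 ∧ t.1 + t.2.1 = t.2.2 ∧ Nat.gcd t.1 t.2.1 = 1) ∧
    ∃ n : ℕ, 1 ≤ n ∧ n ≤ N ∧ n ^ 2 ∣ t.1 * t.2.1 * t.2.2 ∧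
      Nat.Coprime n (t.1 * t.2.1 * t.2.2 / n ^ 2) ∧
      (rad (t.1 * t.2.1 * t.2.2 / n ^ 2) : ℝ) ≤ Y}

theorem Sq2.div {n m a b c : ℕ} (h : Sq2 n m a b c) (hn : 1 ≤ n) : a * b * c / n ^ 2 = m := by
  rw [h.eq]
  exact Nat.mul_div_cancel_left m (by positivity)

theorem Sq2.m_pos {n m a b c : ℕ} (h : Sq2 n m a b c) : 1 ≤ m := by
  by_contra hcon
  have hm : m = 0 := by omega
  have h1 := h.eq
  rw [hm, mul_zero] at h1
  have h2 : 0 < c := by
    have := h.add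
    have := h.a0
    omega
  have h3 : 0 < a * b * c := Nat.mul_pos (Nat.mul_pos h.a0 h.b0) h2
  omega

theorem lower : ∀ N : ℕ, ∀ Y : ℝ, 10 ^ 40 ≤ Y → Y ≤ N →
    10 ^ (-27 : ℝ) * ((N : ℝ) ^ (1 / 3 : ℝ) * Y ^ (2 / 3 : ℝ)) / (Real.log N) ^ 4 ≤
      ((utrip N Y).ncard : ℝ) := by
  intro N Y hY hYN
  have hY0 : 0 < Y := lt_of_lt_of_le (by norm_num) hY
  have hN40 : (10 : ℝ) ^ 40 ≤ N := hY.trans hYN
  have hN0 : (0 : ℝ) < N := lt_of_lt_of_le (by norm_num) hN40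
  have hN1 : 1 ≤ N := by
    have : (1 : ℝ) ≤ N := le_trans (by norm_num) hN40
    exact_mod_cast this
  obtain ⟨y, hy⟩ : ∃ y : ℝ, y = min Y ((N : ℝ) / 10 ^ 30) := ⟨_, rfl⟩
  have hyY : y ≤ Y := by rw [hy]; exact min_le_left _ _
  have hyN : y ≤ (N : ℝ) / 10 ^ 30 := by rw [hy]; exact min_le_right _ _
  have hy10 : 10 ^ 10 ≤ y := by
    rw [hy]
    refine le_min (le_trans (by norm_num) hY) ?_
    rw [le_div_iff₀ (by norm_num)]
    exact le_trans (by norm_num) hN40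
  have hy0 : 0 < y := lt_of_lt_of_le (by norm_num) hy10
  have hyYc : Y / 10 ^ 30 ≤ y := by
    rw [hy]
    refine le_min (div_le_self hY0.le (by norm_num)) ?_
    exact div_le_div_of_nonneg_right hYN (by norm_num)
  have hNy : 10 ^ 30 ≤ (N : ℝ) / y := by
    rw [le_div_iff₀ hy0]
    rw [le_div_iff₀ (by norm_num)] at hyN
    linarith
  obtain ⟨A, hA⟩ : ∃ A : ℝ, A = y ^ (1 / 2 : ℝ) := ⟨_, rfl⟩
  obtain ⟨W, hW⟩ : ∃ W : ℝ, W = ((N : ℝ) / y) ^ (1 / 6 : ℝ) := ⟨_, rfl⟩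
  have hNy0 : 0 < (N : ℝ) / y := div_pos hN0 hy0
  have hA5 : 8 * 10 ^ 4 ≤ A := by
    have e1 : ((10 : ℝ) ^ 10) ^ (1 / 2 : ℝ) ≤ A := by
      rw [hA]
      exact Real.rpow_le_rpow (by positivity) hy10 (by norm_num)
    have e2 : ((10 : ℝ) ^ 10) ^ (1 / 2 : ℝ) = 10 ^ 5 := by
      rw [← Real.rpow_natCast, ← Real.rpow_mul (by norm_num)]
      norm_num
    rw [e2] at e1
    linarith
  have hW5 : 8 * 10 ^ 4 ≤ W := by
    have e1 : ((10 : ℝ) ^ 30) ^ (1 / 6 : ℝ) ≤ W := by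
      rw [hW]
      exact Real.rpow_le_rpow (by positivity) hNy (by norm_num)
    have e2 : ((10 : ℝ) ^ 30) ^ (1 / 6 : ℝ) = 10 ^ 5 := by
      rw [← Real.rpow_natCast, ← Real.rpow_mul (by norm_num)]
      norm_num
    rw [e2] at e1
    linarith
  have hA2 : A ^ 2 = y := by
    rw [hA, ← Real.rpow_natCast, ← Real.rpow_mul hy0.le]
    norm_num
  have hW6 : W ^ 6 = (N : ℝ) / y := by
    rw [hW, ← Real.rpow_natCast, ← Real.rpow_mul hNy0.le]
    norm_num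
  have hW2 : W ^ 2 = ((N : ℝ) / y) ^ (1 / 3 : ℝ) := by
    rw [hW, ← Real.rpow_natCast, ← Real.rpow_mul hNy0.le]
    norm_num
  obtain ⟨G, hG, hcard⟩ := box_low hA5 hW5
  have hAN : A ^ 2 * W ^ 6 = N := by
    rw [hA2, hW6]
    field_simp
  have hGsub : (G : Set (ℕ × ℕ × ℕ)) ⊆ utrip N Y := by
    intro t ht
    obtain ⟨n, m, h, h1, h2, h3⟩ := hG t (by exact_mod_cast ht)
    rw [hAN] at h2
    rw [hA2] at h3
    refine ⟨⟨h.a0, h.b0, h.add, h.cop⟩, n, h1, by exact_mod_cast h2, ⟨m, h.eq⟩, ?_, ?_⟩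
    · rw [h.div h1]
      exact h.un
    · rw [h.div h1]
      have : (rad m : ℝ) ≤ m := by exact_mod_cast rad_le_self h.m_pos
      linarith
  have hsub2 : utrip N Y ⊆ trip 2 N Y := by
    rintro t ⟨h1, n, h2, h3, h4, -, h5⟩
    exact ⟨h1, n, h2, h3, h4, h5⟩
  have hfin : (utrip N Y).Finite := by
    obtain ⟨C, hC⟩ := upper (le_refl 2) 1 one_pos
    exact (hC N hN1 Y (le_trans (by norm_num) hY)).1.subset hsub2
  have hle : (G.card : ℝ) ≤ (utrip N Y).ncard := by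
    have := Set.ncard_le_ncard hGsub hfin
    rw [Set.ncard_coe_finset] at this
    exact_mod_cast this
  refine le_trans ?_ hle
  have lN : 0 < Real.log N := Real.log_pos (lt_of_lt_of_le (by norm_num) hN40)
  have hA1 : 1 ≤ A := by linarith
  have hW1 : 1 ≤ W := by linarith
  have hAle : A ≤ N := by
    calc A ≤ A ^ 2 := by nlinarith
      _ = y := hA2
      _ ≤ Y := hyY
      _ ≤ N := hYN
  have hWle : W ≤ N := by
    calc W ≤ W ^ 6 := le_self_pow₀ hW1 (by norm_num)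
      _ = (N : ℝ) / y := hW6
      _ ≤ N := div_le_self hN0.le (by linarith [show (1 : ℝ) ≤ 10 ^ 10 by norm_num])
  have lA : Real.log A ≤ Real.log N := Real.log_le_log (by linarith) hAle
  have lW : Real.log W ≤ Real.log N := Real.log_le_log (by linarith) hWle
  have lA0 : 0 ≤ Real.log A := Real.log_nonneg hA1
  have lW0 : 0 ≤ Real.log W := Real.log_nonneg hW1
  rw [div_le_iff₀ (by positivity)]
  have e1 : A ^ 2 * W ^ 2 ≤ 10 ^ 7 * (Real.log N) ^ 4 * G.card := by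
    refine hcard.trans ?_
    have g1 : Real.log A ^ 2 ≤ Real.log N ^ 2 := pow_le_pow_left₀ lA0 lA 2
    have g2 : Real.log W ^ 2 ≤ Real.log N ^ 2 := pow_le_pow_left₀ lW0 lW 2
    calc 10 ^ 7 * Real.log A ^ 2 * Real.log W ^ 2 * (G.card : ℝ)
        ≤ 10 ^ 7 * Real.log N ^ 2 * Real.log N ^ 2 * (G.card : ℝ) := by gcongr
      _ = _ := by ring
  have e2 : 10 ^ (-20 : ℝ) * ((N : ℝ) ^ (1 / 3 : ℝ) * Y ^ (2 / 3 : ℝ)) ≤ A ^ 2 * W ^ 2 := by
    rw [hA2, hW2]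
    have g1 : y * ((N : ℝ) / y) ^ (1 / 3 : ℝ) = (N : ℝ) ^ (1 / 3 : ℝ) * y ^ (2 / 3 : ℝ) := by
      rw [Real.div_rpow hN0.le hy0.le]
      have : y = y ^ (1 / 3 : ℝ) * y ^ (2 / 3 : ℝ) := by
        rw [← Real.rpow_add hy0]
        norm_num
      have hy3 : 0 < y ^ (1 / 3 : ℝ) := by positivity
      calc y * ((N : ℝ) ^ (1 / 3 : ℝ) / y ^ (1 / 3 : ℝ))
          = (y ^ (1 / 3 : ℝ) * y ^ (2 / 3 : ℝ)) * ((N : ℝ) ^ (1 / 3 : ℝ) / y ^ (1 / 3 : ℝ)) := by
            rw [← this]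
        _ = _ := by field_simp
    rw [g1]
    have g2 : (Y / 10 ^ 30) ^ (2 / 3 : ℝ) ≤ y ^ (2 / 3 : ℝ) :=
      Real.rpow_le_rpow (by positivity) hyYc (by norm_num)
    have g3 : (Y / 10 ^ 30) ^ (2 / 3 : ℝ) = 10 ^ (-20 : ℝ) * Y ^ (2 / 3 : ℝ) := by
      rw [Real.div_rpow hY0.le (by norm_num), ← Real.rpow_natCast, ← Real.rpow_mul (by norm_num),
        Real.rpow_neg (by norm_num)]
      norm_num
      ring
    rw [g3] at g2
    have hN3 : 0 < (N : ℝ) ^ (1 / 3 : ℝ) := by positivity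
    nlinarith
  have e3 : (10 : ℝ) ^ (-27 : ℝ) = 10 ^ (-20 : ℝ) / 10 ^ 7 := by
    rw [← Real.rpow_natCast, ← Real.rpow_sub (by norm_num)]
    norm_num
  rw [e3]
  have e4 : 10 ^ (-20 : ℝ) / 10 ^ 7 * ((N : ℝ) ^ (1 / 3 : ℝ) * Y ^ (2 / 3 : ℝ)) =
      (10 ^ (-20 : ℝ) * ((N : ℝ) ^ (1 / 3 : ℝ) * Y ^ (2 / 3 : ℝ))) / 10 ^ 7 := by ring
  rw [e4, div_le_iff₀ (by norm_num)]
  linarith

/-- many `n` -/
theorem many : ∀ N : ℕ, 2 ≤ N → 10 ^ (-9 : ℝ) * (N : ℝ) / (Real.log N) ^ 2 ≤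
    (({n : ℕ | 1 ≤ n ∧ n ≤ N ∧ ∃ a b c : ℕ, (0 < a ∧ 0 < b ∧ a + b = c ∧ Nat.gcd a b = 1) ∧
      n ^ 2 ∣ a * b * c ∧ Nat.Coprime n (a * b * c / n ^ 2) ∧
      rad (a * b * c / n ^ 2) ≤ 4 * n ∧ rad (a * b * c) ≤ 4 * n ^ 2}.ncard : ℕ) : ℝ) := by
  classical
  intro N hN
  have hN2 : (2 : ℝ) ≤ N := by exact_mod_cast hN
  have hN0 : (0 : ℝ) < N := by linarith
  obtain ⟨S, hS⟩ : ∃ S, S = {n : ℕ | 1 ≤ n ∧ n ≤ N ∧ ∃ a b c : ℕ, (0 < a ∧ 0 < b ∧ a + b = c ∧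
      Nat.gcd a b = 1) ∧ n ^ 2 ∣ a * b * c ∧ Nat.Coprime n (a * b * c / n ^ 2) ∧
      rad (a * b * c / n ^ 2) ≤ 4 * n ∧ rad (a * b * c) ≤ 4 * n ^ 2} := ⟨_, rfl⟩
  rw [← hS]
  have hSfin : S.Finite := (Set.finite_Icc 1 N).subset (by
    intro n hn
    rw [hS] at hn
    exact ⟨hn.1, hn.2.1⟩)
  have hl2 : 0.6931471803 < Real.log 2 := Real.log_two_gt_d9
  have lN : Real.log 2 ≤ Real.log N := Real.log_le_log (by norm_num) hN2
  have lN0 : 0 < Real.log N := by linarith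
  rw [div_le_iff₀ (by positivity)]
  have e9 : (10 : ℝ) ^ (-9 : ℝ) = 1 / 10 ^ 9 := by
    rw [Real.rpow_neg (by norm_num)]
    norm_num
  rw [e9]
  rcases lt_or_ge (N : ℝ) (10 ^ 8) with hsm | hbig
  · have h1 : (1 : ℕ) ∈ S := by
      rw [hS]
      refine ⟨le_rfl, by omega, 1, 1, 2, ⟨by norm_num, by norm_num, by norm_num, by norm_num⟩,
        by norm_num, by norm_num, ?_, ?_⟩
      · norm_num [rad, Nat.Prime.primeFactors]
      · norm_num [rad, Nat.Prime.primeFactors]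
    have h2 : 1 ≤ S.ncard := (Set.ncard_pos hSfin).2 ⟨1, h1⟩
    have h3 : (1 : ℝ) ≤ S.ncard := by exact_mod_cast h2
    have h4 : 0.48 ≤ Real.log N ^ 2 := by nlinarith
    nlinarith
  · obtain ⟨P, hP⟩ : ∃ P : ℝ, P = √N := ⟨_, rfl⟩
    have hP2 : P ^ 2 = N := by rw [hP]; exact Real.sq_sqrt hN0.le
    have hP4 : 10 ^ 4 ≤ P := by
      rw [hP]
      refine Real.le_sqrt_of_sq_le ?_
      linarith
    have hP0 : 0 < P := lt_of_lt_of_le (by norm_num) hP4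
    have hlogP : Real.log N = 2 * Real.log P := by
      rw [← hP2, Real.log_pow]
      norm_num
    have lP : 0 < Real.log P := by linarith
    have hc := prs_card hP4
    obtain ⟨Q, hQ⟩ : ∃ Q, Q = prs P := ⟨_, rfl⟩
    rw [← hQ] at hc
    have mQ : ∀ z ∈ Q, z.Prime ∧ P / 4 < z ∧ (z : ℝ) ≤ P := fun z hz =>
      (mem_prs hP0.le).1 (by rw [hQ] at hz; exact hz)
    obtain ⟨T, hT⟩ : ∃ T : Finset (ℕ × ℕ), T = (Q ×ˢ Q).filter fun x => x.1 < x.2 := ⟨_, rfl⟩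
    have hinj : Set.InjOn (fun x : ℕ × ℕ => x.1 * x.2) T := by
      intro x hx y hy hxy
      rw [hT, mem_coe, mem_filter, mem_product] at hx hy
      obtain ⟨⟨x1, x2⟩, x3⟩ := hx
      obtain ⟨⟨y1, y2⟩, y3⟩ := hy
      have p1 := (mQ _ x1).1
      have p2 := (mQ _ x2).1
      have q1 := (mQ _ y1).1
      have q2 := (mQ _ y2).1
      have hxy' : x.1 * x.2 = y.1 * y.2 := hxy
      have d1 : x.1 ∣ y.1 * y.2 := ⟨_, hxy'.symm⟩
      rcases p1.dvd_mul.1 d1 with d | d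
      · have e1 := (Nat.prime_dvd_prime_iff_eq p1 q1).1 d
        rw [e1] at hxy'
        exact Prod.ext e1 (Nat.eq_of_mul_eq_mul_left q1.pos hxy')
      · have e1 := (Nat.prime_dvd_prime_iff_eq p1 q2).1 d
        rw [e1, mul_comm] at hxy'
        have e2 := Nat.eq_of_mul_eq_mul_right q2.pos hxy'
        omega
    have hsub : ((T.image fun x : ℕ × ℕ => x.1 * x.2 : Finset ℕ) : Set ℕ) ⊆ S := by
      intro n hn
      rw [mem_coe] at hn
      obtain ⟨x, hx, rfl⟩ := mem_image.1 hn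
      rw [hT, mem_filter, mem_product] at hx
      obtain ⟨⟨x1, x2⟩, x3⟩ := hx
      obtain ⟨p1, p2, p3⟩ := mQ _ x1
      obtain ⟨q1, q2, q3⟩ := mQ _ x2
      have hf := family2 p1 q1 x3
      have hn1 : 1 ≤ x.1 * x.2 := Nat.mul_pos p1.pos q1.pos
      have hrad : rad (x.2 ^ 2 - x.1 ^ 2) ≤ 4 * (x.1 * x.2) := by
        refine (rad_le_self hf.m_pos).trans ((Nat.sub_le _ _).trans ?_)
        have : (x.2 : ℝ) ≤ 4 * x.1 := by linarith
        have h' : x.2 ≤ 4 * x.1 := by exact_mod_cast this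
        calc x.2 ^ 2 = x.2 * x.2 := sq _
          _ ≤ 4 * x.1 * x.2 := Nat.mul_le_mul_right _ h'
          _ = 4 * (x.1 * x.2) := by ring
      rw [hS]
      refine ⟨hn1, ?_, x.1 ^ 2, x.2 ^ 2 - x.1 ^ 2, x.2 ^ 2, ⟨hf.a0, hf.b0, hf.add, hf.cop⟩,
        ⟨_, hf.eq⟩, ?_, ?_, ?_⟩
      · have : ((x.1 * x.2 : ℕ) : ℝ) ≤ N := by
          push_cast
          rw [← hP2, sq]
          exact mul_le_mul p3 q3 (Nat.cast_nonneg _) hP0.le
        exact_mod_cast this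
      · rw [hf.div hn1]
        exact hf.un
      · rw [hf.div hn1]
        exact hrad
      · rw [hf.eq]
        have hm0 : x.2 ^ 2 - x.1 ^ 2 ≠ 0 := by
          have := hf.m_pos
          omega
        calc rad ((x.1 * x.2) ^ 2 * (x.2 ^ 2 - x.1 ^ 2))
            ≤ rad ((x.1 * x.2) ^ 2) * rad (x.2 ^ 2 - x.1 ^ 2) :=
              rad_mul_le (by positivity) hm0
          _ ≤ (x.1 * x.2) * (4 * (x.1 * x.2)) := by
              rw [rad_pow (by norm_num)]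
              exact Nat.mul_le_mul (rad_le_self hn1) hrad
          _ = 4 * (x.1 * x.2) ^ 2 := by ring
    have hcard : (T.card : ℝ) ≤ S.ncard := by
      have := Set.ncard_le_ncard hsub hSfin
      rw [Set.ncard_coe_finset, card_image_of_injOn hinj] at this
      exact_mod_cast this
    -- the number of pairs
    have hTc : Q.card * Q.card ≤ 2 * T.card + Q.card := by
      have h1 : (Q ×ˢ Q) = T ∪ ((Q ×ˢ Q).filter fun x => x.2 < x.1) ∪
          ((Q ×ˢ Q).filter fun x => x.1 = x.2) := by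
        ext x
        rw [hT]
        simp only [mem_union, mem_filter]
        constructor
        · intro h
          rcases lt_trichotomy x.1 x.2 with h' | h' | h'
          · exact Or.inl (Or.inl ⟨h, h'⟩)
          · exact Or.inr ⟨h, h'⟩
          · exact Or.inl (Or.inr ⟨h, h'⟩)
        · rintro ((⟨h, -⟩ | ⟨h, -⟩) | ⟨h, -⟩) <;> exact h
      have h2 : ((Q ×ˢ Q).filter fun x => x.2 < x.1).card ≤ T.card := by
        refine card_le_card_of_injOn Prod.swap ?_ (Prod.swap_injective.injOn)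
        intro x hx
        rw [mem_coe, mem_filter, mem_product] at hx
        rw [hT, mem_coe, mem_filter, mem_product]
        exact ⟨⟨hx.1.2, hx.1.1⟩, hx.2⟩
      have h3 : ((Q ×ˢ Q).filter fun x => x.1 = x.2).card ≤ Q.card := by
        refine card_le_card_of_injOn Prod.fst ?_ ?_
        · intro x hx
          rw [mem_coe, mem_filter, mem_product] at hx
          exact hx.1.1
        · intro x hx y hy hxy
          rw [mem_coe, mem_filter] at hx hy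
          exact Prod.ext hxy (by rw [← hx.2, ← hy.2]; exact hxy)
      have h4 := congrArg Finset.card h1
      rw [card_product] at h4
      have h5 := card_union_le (T ∪ ((Q ×ˢ Q).filter fun x => x.2 < x.1))
        ((Q ×ˢ Q).filter fun x => x.1 = x.2)
      have h6 := card_union_le T ((Q ×ˢ Q).filter fun x => x.2 < x.1)
      omega
    have hTr : (Q.card : ℝ) * Q.card ≤ 2 * T.card + Q.card := by exact_mod_cast hTc
    have hq1 : (0 : ℝ) ≤ Q.card := Nat.cast_nonneg _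
    have hq4 : (4 : ℝ) ≤ Q.card := by
      have h2 := Pool.Agent.TH170.QC.log_le_of_ge hP4
      obtain ⟨s, hs⟩ : ∃ s, s = √P := ⟨_, rfl⟩
      have hs2 : s ^ 2 = P := by rw [hs]; exact Real.sq_sqrt hP0.le
      have hs1 : 100 ≤ s := by
        rw [hs]
        refine Real.le_sqrt_of_sq_le ?_
        linarith
      rw [← hs] at h2
      by_contra hcon
      rw [not_le] at hcon
      have h5 : P ≤ 40 * Real.log P := by
        calc P ≤ 10 * Real.log P * Q.card := hc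
          _ ≤ 10 * Real.log P * 4 := mul_le_mul_of_nonneg_left hcon.le (by positivity)
          _ = 40 * Real.log P := by ring
      nlinarith
    have hT4 : (Q.card : ℝ) * Q.card ≤ 4 * T.card := by nlinarith
    have h7 : P * P ≤ (10 * Real.log P * Q.card) * (10 * Real.log P * Q.card) :=
      mul_le_mul hc hc hP0.le (by positivity)
    have h8 : (N : ℝ) ≤ 400 * Real.log P ^ 2 * S.ncard := by
      calc (N : ℝ) = P * P := by rw [← hP2]; ring
        _ ≤ _ := h7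
        _ = 100 * Real.log P ^ 2 * (Q.card * Q.card) := by ring
        _ ≤ 100 * Real.log P ^ 2 * (4 * T.card) := mul_le_mul_of_nonneg_left hT4 (by positivity)
        _ ≤ 100 * Real.log P ^ 2 * (4 * S.ncard) := by gcongr
        _ = _ := by ring
    rw [hlogP]
    have h9 : 0 ≤ Real.log P ^ 2 * (S.ncard : ℝ) := by positivity
    nlinarith

end Pool.Agent.HP42.SQ
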