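import Pool.Agent.HP42.SQ.Small
import Pool.Agent.TH867.SB.Final

/-!
The abc triples with `a b c = n ^ k m`, `rad m ≤ Y`, `n ≤ N`: all heights (helper42).
-/

set_option autoImplicit false

namespace Pool.Agent.HP42.SQ

open Finset Pool.Agent.H785R2.ABC
open Pool.Agent.TH867.SR (Tr N3 rr rr_sum rr_nonneg Light Scale vv)
open Pool.Agent.TH867.SB (SF mem_SF PP count_gen all_heights)

/-- the primes of the cofactor are enough -/
theorem light_of {k K e m : ℕ} {t : Fin 3 → ℕ} (h : Tr t) {X : ℝ} (hX : 1 ≤ X) (he1 : 1 ≤ e)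
    (heX : (e : ℝ) ≤ X) (hN : N3 t = e ^ k * m) (hK : 2 ≤ K)
    (ht : 2 * (k : ℝ) * Real.log X ≤ Real.log (t 2)) : Light K m.primeFactors t := by
  have hN0 : N3 t ≠ 0 := h.N3_pos.ne'
  have hm0 : m ≠ 0 := by
    rintro rfl
    rw [mul_zero] at hN
    exact hN0 hN
  have hek : e ^ k ≠ 0 := by positivity
  have hK0 : (0 : ℝ) < K := by
    have : 0 < K := by omega
    exact_mod_cast this
  have hK2 : (2 : ℝ) ≤ K := by exact_mod_cast hK
  have h1K : 1 / (K : ℝ) ≤ 1 / 2 := one_div_le_one_div_of_le (by norm_num) hK2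
  have he0 : (0 : ℝ) < e := by exact_mod_cast he1
  have hlX : 0 ≤ Real.log X := Real.log_nonneg hX
  have hk0 : (0 : ℝ) ≤ k := Nat.cast_nonneg k
  have ht0 : 0 ≤ Real.log (t 2) := Real.log_natCast_nonneg _
  rw [Light]
  have e1 : Real.log (N3 t : ℝ) = k * Real.log e + Real.log m := by
    rw [hN]
    push_cast
    rw [Real.log_mul (by positivity) (by exact_mod_cast hm0), Real.log_pow]
  have e2 : Real.log m ≤ ∑ q ∈ m.primeFactors, (vv t q : ℝ) * Real.log q := by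
    rw [Pool.Agent.TH867.SR.log_eq_sum' hm0]
    refine sum_le_sum fun q hq => ?_
    refine mul_le_mul_of_nonneg_right ?_ (Real.log_natCast_nonneg q)
    have : m.factorization q ≤ vv t q := by
      unfold vv
      rw [hN, Nat.factorization_mul hek hm0]
      simp only [Finsupp.coe_add, Pi.add_apply]
      exact Nat.le_add_left _ _
    exact_mod_cast this
  have e3 : Real.log e ≤ Real.log X := Real.log_le_log he0 heX
  have e4 : (k : ℝ) * Real.log e ≤ k * Real.log X := mul_le_mul_of_nonneg_left e3 hk0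
  have e5 : 1 / 2 * Real.log (t 2) ≤ (1 - 1 / (K : ℝ)) * Real.log (t 2) :=
    mul_le_mul_of_nonneg_right (by linarith) ht0
  rw [e1]
  linarith

/-- **all heights** -/
theorem core {k : ℕ} (hk : 2 ≤ k) (ε : ℝ) (hε : 0 < ε) : ∃ D : ℝ, 0 < D ∧ ∀ X : ℝ, 1 ≤ X →
    ∀ N : ℕ, 1 ≤ N → (N : ℝ) ≤ X → ∀ Y : ℝ, 1 ≤ Y → Y ≤ X → ∀ F : Finset (Fin 3 → ℕ),
    (∀ t ∈ F, Tr t ∧ rr t 0 + rr t 1 + rr t 2 ≤ Real.log X ∧
      ∃ e m : ℕ, 1 ≤ e ∧ e ≤ N ∧ N3 t = e ^ k * m ∧ (rad m : ℝ) ≤ Y) →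
    (F.card : ℝ) ≤ D * X ^ ε * (Y + (N : ℝ) ^ (1 / 3 : ℝ) * Y ^ (2 / 3 : ℝ)) := by
  classical
  obtain ⟨K0, hK0⟩ : ∃ K0 : ℕ, 5 / ε ≤ K0 := exists_nat_ge _
  obtain ⟨K, hK⟩ : ∃ K, K = K0 + 6 := ⟨_, rfl⟩
  have hK6 : (6 : ℝ) ≤ K := by
    have : 6 ≤ K := by omega
    exact_mod_cast this
  have hKp : (0 : ℝ) < K := by linarith
  have hKε : 5 / (K : ℝ) ≤ ε := by
    have h1 : 5 / ε ≤ (K : ℝ) := hK0.trans (by rw [hK]; push_cast; linarith)
    rw [div_le_iff₀ hε] at h1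
    rw [div_le_iff₀ hKp]
    linarith
  obtain ⟨η, hη, L1, hL1, D1, hD1, hsmall⟩ := core_small hk ε hε
  obtain ⟨D2, hD2, X1, hX1, hcnt⟩ := count_gen (k := K) (by omega) hη
  obtain ⟨D3, hD3, hall⟩ := all_heights ε hε
  obtain ⟨X0, hX0e⟩ : ∃ X0, X0 = max X1 (Real.exp (L1 + 2 * k)) := ⟨_, rfl⟩
  have hX01 : 1 ≤ X0 := by
    rw [hX0e]
    exact hX1.trans (le_max_left _ _)
  have hX0p : 0 < X0 := by linarith
  refine ⟨D3 * X0 ^ (2 / 3 + ε) + D1 + 2 * D2 + D3, by positivity, fun X hX N hN hNX Y hY hYX F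
    hF => ?_⟩
  have hXp : 0 < X := by linarith
  have hYp : 0 < Y := by linarith
  obtain ⟨Q, hQ⟩ : ∃ Q : ℝ, Q = Y + (N : ℝ) ^ (1 / 3 : ℝ) * Y ^ (2 / 3 : ℝ) := ⟨_, rfl⟩
  have hYQ : Y ≤ Q := by
    rw [hQ]
    have : 0 ≤ (N : ℝ) ^ (1 / 3 : ℝ) * Y ^ (2 / 3 : ℝ) := by positivity
    linarith
  have hQ1 : 1 ≤ Q := hY.trans hYQ
  have hQ0 : 0 < Q := by linarith
  have hXe : 1 ≤ X ^ ε := Real.one_le_rpow hX hε.le
  rw [← hQ]
  have hA0 : 0 ≤ D3 * X0 ^ (2 / 3 + ε) := by positivity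
  have hXQ : 1 ≤ X ^ ε * Q := by nlinarith
  rcases lt_or_ge X X0 with hsm | hlarge
  · -- small `X`
    have h1 := hall X0 hX01 F (fun t ht => ⟨(hF t ht).1, (hF t ht).2.1.trans
      (Real.log_le_log hXp hsm.le)⟩)
    calc (F.card : ℝ) ≤ D3 * X0 ^ (2 / 3 + ε) * 1 := by rw [mul_one]; exact h1
      _ ≤ D3 * X0 ^ (2 / 3 + ε) * (X ^ ε * Q) := mul_le_mul_of_nonneg_left hXQ hA0
      _ ≤ (D3 * X0 ^ (2 / 3 + ε) + D1 + 2 * D2 + D3) * (X ^ ε * Q) :=
          mul_le_mul_of_nonneg_right (by linarith) (by positivity)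
      _ = _ := by ring
  · have hX1' : X1 ≤ X := by
      rw [hX0e] at hlarge
      exact (le_max_left _ _).trans hlarge
    have hXL : L1 + 2 * k ≤ Real.log X := by
      rw [Real.le_log_iff_exp_le hXp]
      rw [hX0e] at hlarge
      exact (le_max_right _ _).trans hlarge
    have hk0 : (0 : ℝ) ≤ k := Nat.cast_nonneg k
    have hLX : L1 ≤ Real.log X := by linarith
    have hlog1 : 1 ≤ Real.log X := hL1.trans hLX
    obtain ⟨F1, hF1⟩ : ∃ F1, F1 = F.filter fun t => Real.log (t 2) ≤ Real.log X ^ (2 + η) :=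
      ⟨_, rfl⟩
    obtain ⟨F2, hF2⟩ : ∃ F2, F2 = F.filter fun t => ¬ Real.log (t 2) ≤ Real.log X ^ (2 + η) :=
      ⟨_, rfl⟩
    have hsplit : F.card = F1.card + F2.card := by
      rw [hF1, hF2]
      exact (Finset.card_filter_add_card_filter_not _).symm
    have b1 : (F1.card : ℝ) ≤ D1 * X ^ ε * Q := by
      rw [hQ]
      refine hsmall X hX hLX N hN hNX Y hY hYX F1 fun t ht => ?_
      rw [hF1, mem_filter] at ht
      obtain ⟨h1, h2, h3⟩ := hF t ht.1
      exact ⟨h1, h2, ht.2, h3⟩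
    have b2 : (F2.card : ℝ) ≤ (2 * D2 + D3) * X ^ ε * Q := by
      rcases le_or_gt (Y * X ^ (2 / (K : ℝ))) X with hc | hc
      · have hM : ((⌊Y⌋₊ : ℕ) : ℝ) ≤ Y := Nat.floor_le hYp.le
        have h1 := hcnt X hX1' ⌊Y⌋₊ (le_trans (mul_le_mul_of_nonneg_right hM (by positivity)) hc)
          F2 (fun t ht => by
            rw [hF2, mem_filter] at ht
            obtain ⟨h1, h2, e, m, h3, h4, h5, h6⟩ := hF t ht.1
            refine ⟨h1, h2, ht.2, fun l _ _ => ⟨rad m, ?_, Or.inl ?_⟩⟩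
            · rw [mem_SF]
              refine ⟨⟨rad_pos' m, Nat.le_floor h6⟩, ?_⟩
              exact Pool.Agent.TH867.SM.sqf fun q hq => Nat.prime_of_mem_primeFactors hq
            · rw [primeFactors_rad]
              have heX : (e : ℝ) ≤ X := le_trans (by exact_mod_cast h4) hNX
              refine light_of h1 hX h3 heX h5 (by omega) ?_
              have g1 := (not_le.1 ht.2).le
              have g2 : Real.log X ^ (2 : ℝ) ≤ Real.log X ^ (2 + η) :=
                Real.rpow_le_rpow_of_exponent_le hlog1 (by linarith)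
              have g3 : Real.log X ^ (2 : ℝ) = Real.log X * Real.log X := by
                rw [show (2 : ℝ) = ((2 : ℕ) : ℝ) by norm_num, Real.rpow_natCast]
                ring
              have g4 : 2 * (k : ℝ) * Real.log X ≤ Real.log X * Real.log X :=
                mul_le_mul_of_nonneg_right (by linarith) (by linarith)
              rw [g3] at g2
              exact g4.trans (g2.trans g1))
        have h2 : D2 * (((⌊Y⌋₊ : ℕ) : ℝ) + 1) * X ^ (5 / (K : ℝ)) ≤ 2 * D2 * X ^ ε * Q := by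
          have e1 : ((⌊Y⌋₊ : ℕ) : ℝ) + 1 ≤ 2 * Q := by linarith
          have e2 : X ^ (5 / (K : ℝ)) ≤ X ^ ε := Real.rpow_le_rpow_of_exponent_le hX hKε
          calc D2 * (((⌊Y⌋₊ : ℕ) : ℝ) + 1) * X ^ (5 / (K : ℝ)) ≤ D2 * (2 * Q) * X ^ ε := by gcongr
            _ = 2 * D2 * X ^ ε * Q := by ring
        have h3 : 0 ≤ D3 * X ^ ε * Q := by positivity
        linarith [h1.trans h2]
      · have h1 := hall X hX F2 (fun t ht => by
          rw [hF2, mem_filter] at ht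
          obtain ⟨a1, a2, -⟩ := hF t ht.1
          exact ⟨a1, a2⟩)
        have h2 : X ^ (2 / 3 : ℝ) ≤ Y := by
          have e1 : X ^ (2 / 3 : ℝ) * X ^ (2 / (K : ℝ)) ≤ X := by
            rw [← Real.rpow_add hXp]
            calc X ^ (2 / 3 + 2 / (K : ℝ)) ≤ X ^ (1 : ℝ) := by
                  refine Real.rpow_le_rpow_of_exponent_le hX ?_
                  have : 2 / (K : ℝ) ≤ 1 / 3 := by
                    rw [div_le_iff₀ hKp]
                    linarith
                  linarith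
              _ = X := Real.rpow_one X
          by_contra hcon
          rw [not_le] at hcon
          have e2 : Y * X ^ (2 / (K : ℝ)) ≤ X ^ (2 / 3 : ℝ) * X ^ (2 / (K : ℝ)) :=
            mul_le_mul_of_nonneg_right hcon.le (by positivity)
          linarith
        have h3 : D3 * X ^ (2 / 3 + ε) ≤ D3 * X ^ ε * Q := by
          rw [Real.rpow_add hXp]
          calc D3 * (X ^ (2 / 3 : ℝ) * X ^ ε) ≤ D3 * (Q * X ^ ε) := by
                refine mul_le_mul_of_nonneg_left ?_ hD3.le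
                exact mul_le_mul_of_nonneg_right (h2.trans hYQ) (by positivity)
            _ = D3 * X ^ ε * Q := by ring
        have h4 : 0 ≤ 2 * D2 * X ^ ε * Q := by positivity
        linarith [h1.trans h3]
    rw [hsplit]
    push_cast
    have h5 : 0 ≤ D3 * X0 ^ (2 / 3 + ε) * X ^ ε * Q := by positivity
    linarith

end Pool.Agent.HP42.SQ
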