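import Pool.Agent.HP42.SQ.Low

/-!
Lower bounds for the number of triples `(p², z₁ z₂ (w₁ w₂)², q²)` (helper42).
-/

set_option autoImplicit false

namespace Pool.Agent.HP42.SQ

open Finset Pool.Agent.H785R2.ABC

/-- a prime times the square of another prime -/
theorem zw_inj {z w z' w' : ℕ} (hz : z.Prime) (hw : w.Prime) (hz' : z'.Prime) (hw' : w'.Prime)
    (h : z ≠ w) (e : z * w ^ 2 = z' * w' ^ 2) : z = z' ∧ w = w' := by
  have h1 : z = z' := by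
    by_contra hne
    have d1 : z ∣ z' * w' ^ 2 := ⟨_, e.symm⟩
    rcases hz.dvd_mul.1 d1 with d | d
    · exact hne ((Nat.prime_dvd_prime_iff_eq hz hz').1 d)
    · have e1 : z = w' := (Nat.prime_dvd_prime_iff_eq hz hw').1 (hz.dvd_of_dvd_pow d)
      rw [← e1] at e
      have e2 : w ^ 2 = z' * z := by
        have : z * w ^ 2 = z * (z' * z) := by rw [e]; ring
        exact Nat.eq_of_mul_eq_mul_left hz.pos this
      have d2 : z ∣ w ^ 2 := ⟨z', by rw [e2]; ring⟩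
      exact h ((Nat.prime_dvd_prime_iff_eq hz hw).1 (hz.dvd_of_dvd_pow d2))
  refine ⟨h1, ?_⟩
  rw [← h1] at e
  exact Nat.pow_left_injective (by norm_num : 2 ≠ 0) (Nat.eq_of_mul_eq_mul_left hz.pos e)

/-- the triple -/
def fam (z1 z2 w1 w2 : ℕ) : ℕ × ℕ × ℕ :=
  (((z2 * w2 ^ 2 - z1 * w1 ^ 2) / 2) ^ 2, z1 * w1 ^ 2 * (z2 * w2 ^ 2),
    ((z2 * w2 ^ 2 + z1 * w1 ^ 2) / 2) ^ 2)

theorem half {s t : ℕ} (hs : s % 2 = 1) (ht : t % 2 = 1) (hst : s < t) :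
    (t + s) / 2 = (t - s) / 2 + s ∧ (t + s) / 2 + (t - s) / 2 = t ∧ 0 < (t - s) / 2 := by
  omega

theorem odd_zw {z w : ℕ} (hz : z % 2 = 1) (hw : w % 2 = 1) : (z * w ^ 2) % 2 = 1 := by
  rw [Nat.mul_mod, Nat.pow_mod, hz, hw]

/-- the family in a box -/
theorem box_low {A W : ℝ} (hA : 8 * 10 ^ 4 ≤ A) (hW : 8 * 10 ^ 4 ≤ W) :
    ∃ G : Finset (ℕ × ℕ × ℕ), (∀ t ∈ G, ∃ n m : ℕ, Sq2 n m t.1 t.2.1 t.2.2 ∧ 1 ≤ n ∧
      (n : ℝ) ≤ A ^ 2 * W ^ 6 ∧ (m : ℝ) ≤ A ^ 2) ∧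
      A ^ 2 * W ^ 2 ≤ 10 ^ 7 * (Real.log A) ^ 2 * (Real.log W) ^ 2 * G.card := by
  classical
  have hA0 : 0 < A := by linarith
  have hW0 : 0 < W := by linarith
  obtain ⟨Z1, hZ1⟩ : ∃ Z1, Z1 = prs (A / 8) := ⟨_, rfl⟩
  obtain ⟨Z2, hZ2⟩ : ∃ Z2, Z2 = prs A := ⟨_, rfl⟩
  obtain ⟨W1, hW1⟩ : ∃ W1, W1 = prs (W / 8) := ⟨_, rfl⟩
  obtain ⟨W2, hW2⟩ : ∃ W2, W2 = prs W := ⟨_, rfl⟩
  have mZ1 : ∀ z ∈ Z1, z.Prime ∧ A / 8 / 4 < z ∧ (z : ℝ) ≤ A / 8 := fun z hz =>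
    (mem_prs (by positivity)).1 (by rw [hZ1] at hz; exact hz)
  have mZ2 : ∀ z ∈ Z2, z.Prime ∧ A / 4 < z ∧ (z : ℝ) ≤ A := fun z hz =>
    (mem_prs (by positivity)).1 (by rw [hZ2] at hz; exact hz)
  have mW1 : ∀ z ∈ W1, z.Prime ∧ W / 8 / 4 < z ∧ (z : ℝ) ≤ W / 8 := fun z hz =>
    (mem_prs (by positivity)).1 (by rw [hW1] at hz; exact hz)
  have mW2 : ∀ z ∈ W2, z.Prime ∧ W / 4 < z ∧ (z : ℝ) ≤ W := fun z hz =>
    (mem_prs (by positivity)).1 (by rw [hW2] at hz; exact hz)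
  obtain ⟨S, hS⟩ : ∃ S : Finset (Σ _ : ℕ × ℕ, ℕ × ℕ), S = (Z1 ×ˢ Z2).sigma fun z =>
    (W1 \ {z.1, z.2}) ×ˢ (W2 \ {z.1, z.2}) := ⟨_, rfl⟩
  obtain ⟨g, hg⟩ : ∃ g : (Σ _ : ℕ × ℕ, ℕ × ℕ) → ℕ × ℕ × ℕ, g = fun x =>
    fam x.1.1 x.1.2 x.2.1 x.2.2 := ⟨_, rfl⟩
  have oddp : ∀ {z : ℕ}, z.Prime → (2500 : ℝ) ≤ z → z % 2 = 1 := by
    intro z hz h
    rcases hz.eq_two_or_odd with h2 | h2
    · rw [h2] at h
      norm_num at h
    · exact h2
  have hmem : ∀ x ∈ S, ((x.1.1).Prime ∧ (x.1.2).Prime ∧ (x.2.1).Prime ∧ (x.2.2).Prime) ∧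
      (x.1.1 ≠ x.1.2 ∧ x.1.1 ≠ x.2.1 ∧ x.1.1 ≠ x.2.2 ∧ x.1.2 ≠ x.2.1 ∧ x.1.2 ≠ x.2.2 ∧
      x.2.1 ≠ x.2.2) ∧ ((x.1.1 * x.2.1 ^ 2) % 2 = 1 ∧ (x.1.2 * x.2.2 ^ 2) % 2 = 1 ∧
      x.1.1 * x.2.1 ^ 2 < x.1.2 * x.2.2 ^ 2) ∧
      ((x.1.1 : ℝ) ≤ A ∧ (x.1.2 : ℝ) ≤ A ∧ (x.2.1 : ℝ) ≤ W ∧ (x.2.2 : ℝ) ≤ W) := by
    intro x hx
    rw [hS, mem_sigma, mem_product, mem_product, mem_sdiff, mem_sdiff] at hx
    obtain ⟨⟨hz1, hz2⟩, ⟨hw1, hn1⟩, ⟨hw2, hn2⟩⟩ := hx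
    simp only [mem_insert, mem_singleton, not_or] at hn1 hn2
    obtain ⟨a1, a2, a3⟩ := mZ1 _ hz1
    obtain ⟨b1, b2, b3⟩ := mZ2 _ hz2
    obtain ⟨c1, c2, c3⟩ := mW1 _ hw1
    obtain ⟨d1, d2, d3⟩ := mW2 _ hw2
    refine ⟨⟨a1, b1, c1, d1⟩, ⟨?_, fun h => hn1.1 h.symm, fun h => hn2.1 h.symm,
      fun h => hn1.2 h.symm, fun h => hn2.2 h.symm, ?_⟩, ⟨?_, ?_, ?_⟩, ⟨?_, b3, ?_, d3⟩⟩
    · intro h
      rw [h] at a3
      linarith
    · intro h
      rw [h] at c3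
      linarith
    · exact odd_zw (oddp a1 (by linarith)) (oddp c1 (by linarith))
    · exact odd_zw (oddp b1 (by linarith)) (oddp d1 (by linarith))
    · have e1 : (x.1.1 : ℝ) * (x.2.1 : ℝ) ^ 2 ≤ A / 8 * (W / 8) ^ 2 := by
        have : (x.2.1 : ℝ) ^ 2 ≤ (W / 8) ^ 2 := pow_le_pow_left₀ (Nat.cast_nonneg _) c3 2
        exact mul_le_mul a3 this (by positivity) (by positivity)
      have e2 : A / 4 * (W / 4) ^ 2 < (x.1.2 : ℝ) * (x.2.2 : ℝ) ^ 2 := by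
        have : (W / 4) ^ 2 < (x.2.2 : ℝ) ^ 2 := pow_lt_pow_left₀ d2 (by positivity) (by norm_num)
        exact mul_lt_mul'' b2 this (by positivity) (by positivity)
      have e3 : A / 8 * (W / 8) ^ 2 ≤ A / 4 * (W / 4) ^ 2 := by
        have : 0 ≤ A * W ^ 2 := by positivity
        nlinarith
      have e4 : (x.1.1 : ℝ) * (x.2.1 : ℝ) ^ 2 < (x.1.2 : ℝ) * (x.2.2 : ℝ) ^ 2 := by linarith
      exact_mod_cast e4
    · linarith
    · linarith
  have hinj : Set.InjOn g S := by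
    intro x hx y hy hxy
    obtain ⟨⟨x1, x2, x3, x4⟩, ⟨x5, x6, x7, x8, x9, x10⟩, ⟨x11, x12, x13⟩, -⟩ := hmem x hx
    obtain ⟨⟨y1, y2, y3, y4⟩, ⟨y5, y6, y7, y8, y9, y10⟩, ⟨y11, y12, y13⟩, -⟩ := hmem y hy
    obtain ⟨h1, h2, h3⟩ := half x11 x12 x13
    obtain ⟨k1, k2, k3⟩ := half y11 y12 y13
    rw [hg] at hxy
    simp only [fam, Prod.mk.injEq] at hxy
    obtain ⟨u1, -, u3⟩ := hxy
    have v1 := Nat.pow_left_injective (by norm_num : 2 ≠ 0) u1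
    have v3 := Nat.pow_left_injective (by norm_num : 2 ≠ 0) u3
    have es : x.1.1 * x.2.1 ^ 2 = y.1.1 * y.2.1 ^ 2 := by omega
    have et : x.1.2 * x.2.2 ^ 2 = y.1.2 * y.2.2 ^ 2 := by omega
    obtain ⟨f1, f2⟩ := zw_inj x1 x3 y1 y3 x6 es
    obtain ⟨f3, f4⟩ := zw_inj x2 x4 y2 y4 x9 et
    obtain ⟨⟨a, b⟩, ⟨c, d⟩⟩ := x
    obtain ⟨⟨a', b'⟩, ⟨c', d'⟩⟩ := y
    simp only at f1 f2 f3 f4
    rw [f1, f2, f3, f4]
  refine ⟨S.image g, ?_, ?_⟩
  · intro t ht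
    obtain ⟨x, hx, rfl⟩ := mem_image.1 ht
    obtain ⟨⟨x1, x2, x3, x4⟩, ⟨x5, x6, x7, x8, x9, x10⟩, ⟨x11, x12, x13⟩,
      ⟨x14, x15, x16, x17⟩⟩ := hmem x hx
    obtain ⟨h1, h2, h3⟩ := half x11 x12 x13
    have hfam := family x1 x3 x2 x4 x5 x6 x7 x8 x9 x10 h3 h1 h2
    rw [hg]
    refine ⟨_, _, hfam, ?_, ?_, ?_⟩
    · have hq : 0 < (x.1.2 * x.2.2 ^ 2 + x.1.1 * x.2.1 ^ 2) / 2 := by omega
      exact Nat.mul_pos (Nat.mul_pos h3 hq) (Nat.mul_pos x3.pos x4.pos)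
    · obtain ⟨p, hp⟩ : ∃ p, p = (x.1.2 * x.2.2 ^ 2 - x.1.1 * x.2.1 ^ 2) / 2 := ⟨_, rfl⟩
      obtain ⟨q, hq⟩ : ∃ q, q = (x.1.2 * x.2.2 ^ 2 + x.1.1 * x.2.1 ^ 2) / 2 := ⟨_, rfl⟩
      rw [← hp, ← hq] at h2 ⊢
      have e0 : (x.1.2 : ℝ) * (x.2.2 : ℝ) ^ 2 ≤ A * W ^ 2 := by
        have : (x.2.2 : ℝ) ^ 2 ≤ W ^ 2 := pow_le_pow_left₀ (Nat.cast_nonneg _) x17 2
        exact mul_le_mul x15 this (by positivity) (by positivity)
      have e1 : (p : ℝ) ≤ A * W ^ 2 := by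
        have : p ≤ x.1.2 * x.2.2 ^ 2 := by omega
        have h' : (p : ℝ) ≤ (x.1.2 : ℝ) * (x.2.2 : ℝ) ^ 2 := by exact_mod_cast this
        linarith
      have e2 : (q : ℝ) ≤ A * W ^ 2 := by
        have : q ≤ x.1.2 * x.2.2 ^ 2 := by omega
        have h' : (q : ℝ) ≤ (x.1.2 : ℝ) * (x.2.2 : ℝ) ^ 2 := by exact_mod_cast this
        linarith
      push_cast
      calc (p : ℝ) * q * (x.2.1 * x.2.2) ≤ (A * W ^ 2) * (A * W ^ 2) * (W * W) := by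
            refine mul_le_mul (mul_le_mul e1 e2 (by positivity) (by positivity))
              (mul_le_mul x16 x17 (by positivity) (by positivity)) (by positivity) (by positivity)
        _ = A ^ 2 * W ^ 6 := by ring
    · push_cast
      calc (x.1.1 : ℝ) * x.1.2 ≤ A * A := mul_le_mul x14 x15 (by positivity) (by positivity)
        _ = A ^ 2 := by ring
  · rw [card_image_of_injOn hinj]
    have cZ1 := prs_card (P := A / 8) (by linarith)
    have cZ2 := prs_card (P := A) (by linarith)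
    have cW1 := prs_card (P := W / 8) (by linarith)
    have cW2 := prs_card (P := W) (by linarith)
    rw [← hZ1] at cZ1
    rw [← hZ2] at cZ2
    rw [← hW1] at cW1
    rw [← hW2] at cW2
    have logA : Real.log (A / 8) ≤ Real.log A := Real.log_le_log (by positivity) (by linarith)
    have logW : Real.log (W / 8) ≤ Real.log W := Real.log_le_log (by positivity) (by linarith)
    have lA : 0 < Real.log A := Real.log_pos (by linarith)
    have lW : 0 < Real.log W := Real.log_pos (by linarith)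
    have dZ1 : A / 8 ≤ 10 * Real.log A * Z1.card := by
      refine cZ1.trans ?_
      gcongr
    have dW1 : W / 8 ≤ 10 * Real.log W * W1.card := by
      refine cW1.trans ?_
      gcongr
    -- the sets `W1`, `W2` have at least four elements
    have big : ∀ {P : ℝ}, 10 ^ 4 ≤ P → 4 ≤ (prs P).card := by
      intro P hP
      have h1 := prs_card hP
      have h2 := Pool.Agent.TH170.QC.log_le_of_ge hP
      have hP0 : 0 ≤ P := le_trans (by norm_num) hP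
      by_contra hcon
      have h3 : ((prs P).card : ℝ) ≤ 3 := by
        have : (prs P).card ≤ 3 := by omega
        exact_mod_cast this
      obtain ⟨s, hs⟩ : ∃ s, s = √P := ⟨_, rfl⟩
      have hs2 : s ^ 2 = P := by rw [hs]; exact Real.sq_sqrt hP0
      have hs1 : 100 ≤ s := by
        rw [hs]
        refine Real.le_sqrt_of_sq_le ?_
        linarith
      rw [← hs] at h2
      have h4 : 0 ≤ Real.log P := Real.log_nonneg (by linarith [show (1 : ℝ) ≤ 10 ^ 4 by norm_num])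
      have h5 : P ≤ 30 * Real.log P := by
        calc P ≤ 10 * Real.log P * (prs P).card := h1
          _ ≤ 10 * Real.log P * 3 := mul_le_mul_of_nonneg_left h3 (by positivity)
          _ = 30 * Real.log P := by ring
      nlinarith
    have b1 : 4 ≤ W1.card := by rw [hW1]; exact big (by linarith)
    have b2 : 4 ≤ W2.card := by rw [hW2]; exact big (by linarith)
    have hSc : ((Z1.card * Z2.card : ℕ) : ℝ) * (((W1.card : ℝ) / 2) * ((W2.card : ℝ) / 2)) ≤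
        S.card := by
      rw [hS, card_sigma]
      push_cast
      have key : ∀ z ∈ Z1 ×ˢ Z2, ((W1.card : ℝ) / 2) * ((W2.card : ℝ) / 2) ≤
          (((W1 \ {z.1, z.2}) ×ˢ (W2 \ {z.1, z.2})).card : ℝ) := by
        intro z _
        rw [card_product]
        have hc2 : ({z.1, z.2} : Finset ℕ).card ≤ 2 := card_le_two
        have g1 := le_card_sdiff ({z.1, z.2} : Finset ℕ) W1
        have g2 := le_card_sdiff ({z.1, z.2} : Finset ℕ) W2
        have k1 : W1.card ≤ 2 * (W1 \ {z.1, z.2}).card := by omega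
        have k2 : W2.card ≤ 2 * (W2 \ {z.1, z.2}).card := by omega
        have k1' : (W1.card : ℝ) ≤ 2 * (W1 \ {z.1, z.2}).card := by exact_mod_cast k1
        have k2' : (W2.card : ℝ) ≤ 2 * (W2 \ {z.1, z.2}).card := by exact_mod_cast k2
        push_cast
        exact mul_le_mul (by linarith) (by linarith) (by positivity) (by positivity)
      have := sum_le_sum key
      rw [sum_const, nsmul_eq_mul, card_product] at this
      push_cast at this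
      exact this
    have f1 : A * A * (W * W) ≤ (8 * (10 * Real.log A * Z1.card)) * (10 * Real.log A * Z2.card) *
        ((8 * (10 * Real.log W * W1.card)) * (10 * Real.log W * W2.card)) := by
      refine mul_le_mul (mul_le_mul (by linarith) cZ2 hA0.le (by positivity))
        (mul_le_mul (by linarith) cW2 hW0.le (by positivity)) (by positivity) (by positivity)
    push_cast at hSc
    calc A ^ 2 * W ^ 2 = A * A * (W * W) := by ring
      _ ≤ _ := f1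
      _ = 2560000 * Real.log A ^ 2 * Real.log W ^ 2 *
          (((Z1.card : ℝ) * Z2.card) * (((W1.card : ℝ) / 2) * ((W2.card : ℝ) / 2))) := by ring
      _ ≤ 2560000 * Real.log A ^ 2 * Real.log W ^ 2 * S.card :=
          mul_le_mul_of_nonneg_left hSc (by positivity)
      _ ≤ 10 ^ 7 * Real.log A ^ 2 * Real.log W ^ 2 * S.card := by
          have : 0 ≤ Real.log A ^ 2 * Real.log W ^ 2 * (S.card : ℝ) := by positivity
          nlinarith

end Pool.Agent.HP42.SQ
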