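import Pool.Agent.HP42.SQ.Large
import Pool.Agent.H785R2.ABC.A345

/-!
Almost all `n`: if `n ^ k ∣ a b c` then the cofactor has a large radical (helper42).
-/

set_option autoImplicit false

namespace Pool.Agent.HP42.SQ

open Finset Pool.Agent.H785R2.ABC
open Pool.Agent.TH867.SR (Tr N3 rr rr_sum rr_nonneg)

/-- a triple with `a ≤ b` -/
def srt (a b c : ℕ) : Fin 3 → ℕ := ![min a b, max a b, c]

theorem srt_tr {a b c : ℕ} (ha : 0 < a) (hb : 0 < b) (hc : a + b = c) (hg : Nat.gcd a b = 1) :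
    Tr (srt a b c) := by
  rcases le_total a b with h | h
  · refine ⟨?_, ?_, ?_, ?_⟩
    · show 0 < min a b
      rw [min_eq_left h]
      exact ha
    · exact min_le_max
    · show Nat.Coprime (min a b) (max a b)
      rw [min_eq_left h, max_eq_right h]
      exact hg
    · show min a b + max a b = c
      rw [min_eq_left h, max_eq_right h, hc]
  · refine ⟨?_, ?_, ?_, ?_⟩
    · show 0 < min a b
      rw [min_eq_right h]
      exact hb
    · exact min_le_max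
    · show Nat.Coprime (min a b) (max a b)
      rw [min_eq_right h, max_eq_left h]
      exact Nat.coprime_comm.1 hg
    · show min a b + max a b = c
      rw [min_eq_right h, max_eq_left h, add_comm, hc]

theorem srt_N3 (a b c : ℕ) : N3 (srt a b c) = a * b * c := by
  show min a b * max a b * c = a * b * c
  rw [min_mul_max]

theorem rr_le {t : Fin 3 → ℕ} (h : Tr t) {X : ℝ} (hr : (rad (N3 t) : ℝ) ≤ X) :
    rr t 0 + rr t 1 + rr t 2 ≤ Real.log X := by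
  rw [← rr_sum h]
  have h1 : 0 < rad (N3 t) := rad_pos' _
  rw [← Pool.Agent.TH867.SR.log_prod_primes fun q hq => Nat.prime_of_mem_primeFactors hq]
  exact Real.log_le_log (by exact_mod_cast h1) hr

theorem rad_mul_le {m n : ℕ} (hm : m ≠ 0) (hn : n ≠ 0) : rad (m * n) ≤ rad m * rad n := by
  rw [rad, rad, rad, Nat.primeFactors_mul hm hn]
  exact (Finset.prod_union_inter (s₁ := m.primeFactors) (s₂ := n.primeFactors)
    (f := fun p => p)) ▸ Nat.le_mul_of_pos_right _ (Finset.prod_pos fun p hp =>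
      (Nat.prime_of_mem_primeFactors (Finset.mem_inter.1 hp).1).pos)

theorem rad_pow {n k : ℕ} (hk : k ≠ 0) : rad (n ^ k) = rad n := by
  rw [rad, rad, Nat.primeFactors_pow n hk]

/-- integers composed of given primes -/
theorem few_n (ε : ℝ) (hε : 0 < ε) : ∃ D : ℝ, 0 < D ∧ ∀ N : ℕ, 1 ≤ N → ∀ M : ℕ, 1 ≤ M →
    (rad M : ℝ) ≤ (N : ℝ) ^ 2 → ∀ B : Finset ℕ, (∀ n ∈ B, 1 ≤ n ∧ n ≤ N ∧
      n.primeFactors ⊆ M.primeFactors) → (B.card : ℝ) ≤ D * (N : ℝ) ^ ε := by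
  classical
  obtain ⟨D1, hD1, h1⟩ := stmtA1 2 (by norm_num) (ε / 4) (by positivity)
  obtain ⟨D2, hD2, h2⟩ := stmtA2 (ε / 2) (by positivity)
  refine ⟨D1 * D2, by positivity, fun N hN M hM hr B hB => ?_⟩
  have hN1 : (1 : ℝ) ≤ N := by exact_mod_cast hN
  have hN0 : (0 : ℝ) < N := by linarith
  obtain ⟨c, hc⟩ : ∃ c : ℝ, c = D2 * (N : ℝ) ^ (ε / 2) := ⟨_, rfl⟩
  have hfib : ∀ S ∈ B.image Nat.primeFactors,
      ((B.filter fun n => n.primeFactors = S).card : ℝ) ≤ c := by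
    intro S _
    have := h2 N hN (∏ p ∈ S, p)
    rw [← hc] at this
    refine le_trans ?_ this
    refine Nat.cast_le.2 (Finset.card_le_card fun n hn => ?_)
    rw [mem_filter] at hn
    obtain ⟨a1, a2, -⟩ := hB n hn.1
    rw [mem_filter, mem_Icc]
    refine ⟨⟨a1, a2⟩, ?_⟩
    rw [rad, hn.2]
  have hcard : (B.card : ℝ) = ∑ S ∈ B.image Nat.primeFactors,
      ((B.filter fun n => n.primeFactors = S).card : ℝ) := by
    have := Finset.card_eq_sum_card_image Nat.primeFactors B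
    exact_mod_cast this
  have himg : ((B.image Nat.primeFactors).card : ℝ) ≤ D1 * (N : ℝ) ^ (ε / 2) := by
    have hsub : B.image Nat.primeFactors ⊆ M.primeFactors.powerset := by
      intro S hS
      obtain ⟨n, hn, rfl⟩ := mem_image.1 hS
      exact mem_powerset.2 (hB n hn).2.2
    have e1 := Finset.card_le_card hsub
    rw [Finset.card_powerset] at e1
    have e2 := h1 (rad M) (rad_pos' M)
    rw [primeFactors_rad] at e2
    calc ((B.image Nat.primeFactors).card : ℝ) ≤ ((2 ^ M.primeFactors.card : ℕ) : ℝ) := by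
          exact_mod_cast e1
      _ = (2 : ℝ) ^ M.primeFactors.card := by push_cast; ring
      _ ≤ D1 * (rad M : ℝ) ^ (ε / 4) := e2
      _ ≤ D1 * ((N : ℝ) ^ 2) ^ (ε / 4) := by
          refine mul_le_mul_of_nonneg_left ?_ hD1.le
          exact Real.rpow_le_rpow (Nat.cast_nonneg _) hr (by positivity)
      _ = D1 * (N : ℝ) ^ (ε / 2) := by
          rw [← Real.rpow_natCast, ← Real.rpow_mul hN0.le]
          congr 2
          push_cast
          ring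
  rw [hcard]
  calc ∑ S ∈ B.image Nat.primeFactors, ((B.filter fun n => n.primeFactors = S).card : ℝ)
      ≤ ∑ S ∈ B.image Nat.primeFactors, c := sum_le_sum hfib
    _ = (B.image Nat.primeFactors).card * c := by rw [sum_const, nsmul_eq_mul]
    _ ≤ (D1 * (N : ℝ) ^ (ε / 2)) * c := by
        refine mul_le_mul_of_nonneg_right himg ?_
        rw [hc]
        positivity
    _ = D1 * D2 * ((N : ℝ) ^ (ε / 2) * (N : ℝ) ^ (ε / 2)) := by rw [hc]; ring
    _ = D1 * D2 * (N : ℝ) ^ ε := by rw [← Real.rpow_add hN0, add_halves]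

/-- **almost all `n`** -/
theorem bad_card {k : ℕ} (hk : 2 ≤ k) (ε δ : ℝ) (hε1 : ε ≤ 1) (hδ : 0 < δ) :
    ∃ C : ℝ, 0 < C ∧ ∀ N : ℕ, 1 ≤ N → ∀ B : Finset ℕ, (∀ n ∈ B, 1 ≤ n ∧ n ≤ N ∧
      ∃ t m, Tr t ∧ N3 t = n ^ k * m ∧ (rad m : ℝ) ≤ (N : ℝ) ^ (1 - ε)) → 0 ≤ ε →
      (B.card : ℝ) ≤ C * (N : ℝ) ^ (1 - 2 / 3 * ε + δ) := by
  classical
  obtain ⟨D1, hD1, h1⟩ := core hk (δ / 4) (by positivity)
  obtain ⟨D2, hD2, h2⟩ := few_n (δ / 2) (by positivity)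
  refine ⟨2 * D1 * D2, by positivity, fun N hN B hB hε => ?_⟩
  have hN1 : (1 : ℝ) ≤ N := by exact_mod_cast hN
  have hN0 : (0 : ℝ) < N := by linarith
  have hch : ∀ n : ℕ, ∃ t : Fin 3 → ℕ, n ∈ B → ∃ m, Tr t ∧ N3 t = n ^ k * m ∧
      (rad m : ℝ) ≤ (N : ℝ) ^ (1 - ε) := by
    intro n
    by_cases hn : n ∈ B
    · obtain ⟨-, -, t, m, h⟩ := hB n hn
      exact ⟨t, fun _ => ⟨m, h⟩⟩
    · exact ⟨fun _ => 0, fun h => absurd h hn⟩
  choose T hT using hch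
  have hY1 : 1 ≤ (N : ℝ) ^ (1 - ε) := Real.one_le_rpow hN1 (by linarith)
  have hYX : (N : ℝ) ^ (1 - ε) ≤ (N : ℝ) ^ 2 := by
    rw [← Real.rpow_natCast]
    refine Real.rpow_le_rpow_of_exponent_le hN1 ?_
    push_cast
    linarith
  have hX1 : (1 : ℝ) ≤ (N : ℝ) ^ 2 := one_le_pow₀ hN1
  have hNX : (N : ℝ) ≤ (N : ℝ) ^ 2 := by nlinarith
  have hrad : ∀ n ∈ B, (rad (N3 (T n)) : ℝ) ≤ (N : ℝ) ^ 2 := by
    intro n hn
    obtain ⟨a1, a2, -⟩ := hB n hn
    obtain ⟨m, b1, b2, b3⟩ := hT n hn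
    have hm0 : m ≠ 0 := by
      rintro rfl
      rw [mul_zero] at b2
      exact b1.N3_pos.ne' b2
    have c1 : rad (N3 (T n)) ≤ rad n * rad m := by
      rw [b2]
      refine (rad_mul_le (by positivity) hm0).trans ?_
      rw [rad_pow (by omega)]
    have c2 : (rad n : ℝ) ≤ N := by exact_mod_cast (rad_le_self a1).trans a2
    have c3 : (rad m : ℝ) ≤ N := by
      refine b3.trans ?_
      calc (N : ℝ) ^ (1 - ε) ≤ (N : ℝ) ^ (1 : ℝ) :=
            Real.rpow_le_rpow_of_exponent_le hN1 (by linarith)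
        _ = N := Real.rpow_one _
    calc (rad (N3 (T n)) : ℝ) ≤ (rad n : ℝ) * rad m := by exact_mod_cast c1
      _ ≤ (N : ℝ) * N := mul_le_mul c2 c3 (by positivity) hN0.le
      _ = (N : ℝ) ^ 2 := by ring
  have hF := h1 ((N : ℝ) ^ 2) hX1 N hN hNX ((N : ℝ) ^ (1 - ε)) hY1 hYX (B.image T) (by
    intro t ht
    obtain ⟨n, hn, rfl⟩ := mem_image.1 ht
    obtain ⟨a1, a2, -⟩ := hB n hn
    obtain ⟨m, b1, b2, b3⟩ := hT n hn
    exact ⟨b1, rr_le b1 (hrad n hn), n, m, a1, a2, b2, b3⟩)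
  have hfib : ∀ t ∈ B.image T, ((B.filter fun n => T n = t).card : ℝ) ≤ D2 * (N : ℝ) ^ (δ / 2) := by
    intro t ht
    obtain ⟨n0, hn0, rfl⟩ := mem_image.1 ht
    obtain ⟨m0, b1, -, -⟩ := hT n0 hn0
    refine h2 N hN (N3 (T n0)) b1.N3_pos (hrad n0 hn0) _ fun n hn => ?_
    rw [mem_filter] at hn
    obtain ⟨a1, a2, -⟩ := hB n hn.1
    obtain ⟨m, c1, c2, c3⟩ := hT n hn.1
    refine ⟨a1, a2, ?_⟩
    rw [← hn.2]
    refine Nat.primeFactors_mono ?_ c1.N3_pos.ne'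
    rw [c2]
    exact (dvd_pow_self n (by omega)).mul_right m
  have hcard : (B.card : ℝ) = ∑ t ∈ B.image T, ((B.filter fun n => T n = t).card : ℝ) := by
    have := Finset.card_eq_sum_card_image T B
    exact_mod_cast this
  have e1 : ((N : ℝ) ^ 2) ^ (δ / 4) = (N : ℝ) ^ (δ / 2) := by
    rw [← Real.rpow_natCast, ← Real.rpow_mul hN0.le]
    congr 1
    push_cast
    ring
  have e2 : (N : ℝ) ^ (1 - ε) + (N : ℝ) ^ (1 / 3 : ℝ) * ((N : ℝ) ^ (1 - ε)) ^ (2 / 3 : ℝ) ≤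
      2 * (N : ℝ) ^ (1 - 2 / 3 * ε) := by
    have g1 : (N : ℝ) ^ (1 - ε) ≤ (N : ℝ) ^ (1 - 2 / 3 * ε) :=
      Real.rpow_le_rpow_of_exponent_le hN1 (by linarith)
    have g2 : (N : ℝ) ^ (1 / 3 : ℝ) * ((N : ℝ) ^ (1 - ε)) ^ (2 / 3 : ℝ) =
        (N : ℝ) ^ (1 - 2 / 3 * ε) := by
      rw [← Real.rpow_mul hN0.le, ← Real.rpow_add hN0]
      congr 1
      ring
    rw [g2]
    linarith
  rw [e1] at hF
  rw [hcard]
  calc ∑ t ∈ B.image T, ((B.filter fun n => T n = t).card : ℝ)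
      ≤ ∑ t ∈ B.image T, D2 * (N : ℝ) ^ (δ / 2) := sum_le_sum hfib
    _ = (B.image T).card * (D2 * (N : ℝ) ^ (δ / 2)) := by rw [sum_const, nsmul_eq_mul]
    _ ≤ (D1 * (N : ℝ) ^ (δ / 2) * (2 * (N : ℝ) ^ (1 - 2 / 3 * ε))) * (D2 * (N : ℝ) ^ (δ / 2)) := by
        refine mul_le_mul_of_nonneg_right (hF.trans ?_) (by positivity)
        exact mul_le_mul_of_nonneg_left e2 (by positivity)
    _ = 2 * D1 * D2 * ((N : ℝ) ^ (1 - 2 / 3 * ε) * ((N : ℝ) ^ (δ / 2) * (N : ℝ) ^ (δ / 2))) := by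
        ring
    _ = 2 * D1 * D2 * (N : ℝ) ^ (1 - 2 / 3 * ε + δ) := by
        rw [← Real.rpow_add hN0, ← Real.rpow_add hN0, add_halves]

end Pool.Agent.HP42.SQ
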