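import Pool.Agent.HP42.SQ.Core

/-!
The abc triples with `a b c = n ^ k m`, `rad m ≤ Y`, `n ≤ N`: small heights (helper42).
-/

set_option autoImplicit false

namespace Pool.Agent.HP42.SQ

open Finset Pool.Agent.H785R2.ABC
open Pool.Agent.TH867.SR (Tr N3 rr rr_sum rr_nonneg Light Scale vv)

/-- **small heights** -/
theorem core_small {k : ℕ} (hk : 2 ≤ k) (ε : ℝ) (hε : 0 < ε) : ∃ η : ℝ, 0 < η ∧ ∃ L1 : ℝ, 1 ≤ L1 ∧
    ∃ D : ℝ, 0 < D ∧ ∀ X : ℝ, 1 ≤ X → L1 ≤ Real.log X → ∀ N : ℕ, 1 ≤ N → (N : ℝ) ≤ X →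
    ∀ Y : ℝ, 1 ≤ Y → Y ≤ X → ∀ F : Finset (Fin 3 → ℕ), (∀ t ∈ F, Tr t ∧
      rr t 0 + rr t 1 + rr t 2 ≤ Real.log X ∧ Real.log (t 2) ≤ Real.log X ^ (2 + η) ∧
      ∃ e m : ℕ, 1 ≤ e ∧ e ≤ N ∧ N3 t = e ^ k * m ∧ (rad m : ℝ) ≤ Y) →
    (F.card : ℝ) ≤ D * X ^ ε * (Y + (N : ℝ) ^ (1 / 3 : ℝ) * Y ^ (2 / 3 : ℝ)) := by
  classical
  obtain ⟨θ, hθ⟩ : ∃ θ : ℝ, θ = ε / 3 := ⟨_, rfl⟩
  have hθ0 : 0 < θ := by rw [hθ]; positivity
  obtain ⟨η, hη, L1, hL1, hV⟩ := V_bound θ (ε / 9) hθ0 (by positivity)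
  obtain ⟨D, hD, hfib⟩ := fib hk (ε / 3) (by positivity)
  refine ⟨η, hη, L1, hL1, D, hD, fun X hX hLX N hN hNX Y hY hYX F hF => ?_⟩
  have hX0 : 0 < X := by linarith
  have hY0 : 0 < Y := by linarith
  have hk1 : 1 ≤ k := by omega
  obtain ⟨H, hH⟩ : ∃ H : ℕ, H = ⌊Real.exp (Real.log X ^ (2 + η))⌋₊ := ⟨_, rfl⟩
  have hVX := hV X hX hLX
  rw [← hH] at hVX
  -- the choice of `e`
  have hch : ∀ t : Fin 3 → ℕ, ∃ e : ℕ, t ∈ F → ∃ m : ℕ, 1 ≤ e ∧ e ≤ N ∧ N3 t = e ^ k * m ∧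
      (rad m : ℝ) ≤ Y := by
    intro t
    by_cases ht : t ∈ F
    · obtain ⟨-, -, -, e, m, h⟩ := hF t ht
      exact ⟨e, fun _ => ⟨m, h⟩⟩
    · exact ⟨0, fun h => absurd h ht⟩
  choose E hE using hch
  obtain ⟨xm, hxm⟩ : ∃ xm : (Fin 3 → ℕ) → ℕ × ℕ × ℕ, xm = fun t =>
    (xx k (E t) t 0, xx k (E t) t 1, xx k (E t) t 2) := ⟨_, rfl⟩
  obtain ⟨um, hum⟩ : ∃ um : (Fin 3 → ℕ) → ℕ × ℕ × ℕ, um = fun t =>
    (uu (E t) t 0, uu (E t) t 1, uu (E t) t 2) := ⟨_, rfl⟩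
  have hdat : ∀ t ∈ F, Cx (xm t) ∧ Sl k (xm t) (um t) ∧ Ct (xm t) (um t) ∧
      (um t).1 * (um t).2.1 * (um t).2.2 ≤ N ∧
      (rad ((xm t).1 * (xm t).2.1 * (xm t).2.2) : ℝ) ≤ Y ∧
      (rad ((xm t).1 * (xm t).2.1 * (xm t).2.2) : ℝ) ≤ X := by
    intro t ht
    obtain ⟨h1, h2, h3, -⟩ := hF t ht
    obtain ⟨m, e1, e2, e3, e4⟩ := hE t ht
    obtain ⟨d1, d2, d3, d4, d5⟩ := data hk1 h1 e1 e3
    rw [hxm, hum]
    refine ⟨d1, d2, d3, ?_, ?_, ?_⟩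
    · show uu (E t) t 0 * uu (E t) t 1 * uu (E t) t 2 ≤ N
      rw [d4]
      exact e2
    · show (rad (xx k (E t) t 0 * xx k (E t) t 1 * xx k (E t) t 2) : ℝ) ≤ Y
      rw [d5]
      exact e4
    · show (rad (xx k (E t) t 0 * xx k (E t) t 1 * xx k (E t) t 2) : ℝ) ≤ X
      rw [d5]
      refine le_trans ?_ (rad_exp h1 hX0 h2)
      have : m ∣ N3 t := ⟨E t ^ k, by rw [e3]; ring⟩
      exact_mod_cast rad_dvd_le this h1.N3_pos.ne'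
  have hinj : ∀ x, Set.InjOn um ((F.filter fun t => xm t = x : Finset (Fin 3 → ℕ)) : Set _) := by
    intro x t ht s hs hts
    rw [mem_coe, mem_filter] at ht hs
    obtain ⟨m, e1, e2, e3, e4⟩ := hE t ht.1
    obtain ⟨m', f1, f2, f3, f4⟩ := hE s hs.1
    have g1 := ht.2.trans hs.2.symm
    rw [hxm] at g1
    rw [hum] at hts
    simp only [Prod.mk.injEq] at g1 hts
    have a := uu_xx (hF t ht.1).1 ⟨m, e3⟩
    have b := uu_xx (hF s hs.1).1 ⟨m', f3⟩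
    funext j
    rw [← a j, ← b j]
    fin_cases j
    · show uu (E t) t 0 ^ k * xx k (E t) t 0 = uu (E s) s 0 ^ k * xx k (E s) s 0
      rw [hts.1, g1.1]
    · show uu (E t) t 1 ^ k * xx k (E t) t 1 = uu (E s) s 1 ^ k * xx k (E s) s 1
      rw [hts.2.1, g1.2.1]
    · show uu (E t) t 2 ^ k * xx k (E t) t 2 = uu (E s) s 2 ^ k * xx k (E s) s 2
      rw [hts.2.2, g1.2.2]
  have hfibre : ∀ x ∈ F.image xm, ((F.filter fun t => xm t = x).card : ℝ) ≤ D * X ^ (ε / 3) *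
      (1 + ((N : ℝ) / ((x.1 * x.2.1 * x.2.2 : ℕ) : ℝ)) ^ (1 / 3 : ℝ)) := by
    intro x hx
    obtain ⟨t0, ht0, hxt⟩ := mem_image.1 hx
    obtain ⟨a1, -, -, -, -, a6⟩ := hdat t0 ht0
    rw [hxt] at a1 a6
    have h1 := hfib X hX x a1 a6 N hN hNX ((F.filter fun t => xm t = x).image um) (fun u hu => by
      obtain ⟨t, ht, rfl⟩ := mem_image.1 hu
      rw [mem_filter] at ht
      obtain ⟨-, b2, b3, b4, -, -⟩ := hdat t ht.1
      rw [ht.2] at b2 b3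
      exact ⟨b2, b3, b4⟩)
    rwa [card_image_of_injOn (hinj x)] at h1
  have hw := weighted hθ0 (H := H) (N := N) hY hN hVX (F.image xm) (fun x hx => by
    obtain ⟨t, ht, rfl⟩ := mem_image.1 hx
    obtain ⟨a1, -, -, -, a5, -⟩ := hdat t ht
    obtain ⟨h1, -, h3, -⟩ := hF t ht
    obtain ⟨m, e1, e2, e3, e4⟩ := hE t ht
    have hle : ∀ j, xx k (E t) t j ≤ H := by
      intro j
      have c1 : xx k (E t) t j ≤ t j := Nat.div_le_self _ _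
      have c2 := h1.le2 j
      refine (c1.trans c2).trans ?_
      rw [hH]
      refine Nat.le_floor ?_
      rw [← Real.log_le_iff_le_exp (by exact_mod_cast h1.pos' 2)]
      exact h3
    refine ⟨?_, ?_, ?_, ?_⟩
    · rw [mem_Icc]
      refine ⟨a1.p0, ?_⟩
      rw [hxm]
      exact hle 0
    · rw [mem_Icc]
      refine ⟨a1.p1, ?_⟩
      rw [hxm]
      exact hle 1
    · rw [mem_Icc]
      refine ⟨a1.p2, ?_⟩
      rw [hxm]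
      exact hle 2
    · rw [← rad_mul a1.c01, ← rad_mul (Nat.Coprime.mul_left a1.c02 a1.c12)]
      exact a5)
  have hcard : (F.card : ℝ) = ∑ x ∈ F.image xm, ((F.filter fun t => xm t = x).card : ℝ) := by
    have := Finset.card_eq_sum_card_image xm F
    exact_mod_cast this
  obtain ⟨Q, hQ⟩ : ∃ Q : ℝ, Q = Y + (N : ℝ) ^ (1 / 3 : ℝ) * Y ^ (2 / 3 : ℝ) := ⟨_, rfl⟩
  have hQ0 : 0 ≤ Q := by rw [hQ]; positivity
  rw [← hQ] at hw ⊢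
  rw [hcard]
  calc ∑ x ∈ F.image xm, ((F.filter fun t => xm t = x).card : ℝ) ≤
      ∑ x ∈ F.image xm, D * X ^ (ε / 3) *
        (1 + ((N : ℝ) / ((x.1 * x.2.1 * x.2.2 : ℕ) : ℝ)) ^ (1 / 3 : ℝ)) := sum_le_sum hfibre
    _ = D * X ^ (ε / 3) * ∑ x ∈ F.image xm,
        (1 + ((N : ℝ) / ((x.1 * x.2.1 * x.2.2 : ℕ) : ℝ)) ^ (1 / 3 : ℝ)) := by rw [mul_sum]
    _ ≤ D * X ^ (ε / 3) * (Y ^ θ * Q * (X ^ (ε / 9)) ^ 3) :=
        mul_le_mul_of_nonneg_left hw (by positivity)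
    _ ≤ D * X ^ (ε / 3) * (X ^ θ * Q * (X ^ (ε / 9)) ^ 3) := by
        have : Y ^ θ ≤ X ^ θ := Real.rpow_le_rpow hY0.le hYX hθ0.le
        gcongr
    _ = D * (X ^ (ε / 3) * X ^ θ * X ^ (ε / 3)) * Q := by
        have : (X ^ (ε / 9)) ^ 3 = X ^ (ε / 3) := by
          rw [← Real.rpow_natCast, ← Real.rpow_mul hX0.le]
          congr 1
          push_cast
          ring
        rw [this]
        ring
    _ = D * X ^ ε * Q := by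
        rw [← Real.rpow_add hX0, ← Real.rpow_add hX0, hθ]
        congr 3
        ring

end Pool.Agent.HP42.SQ
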