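import Pool.Agent.HP42.SQ.Fib
import Pool.Agent.TH867.SR.Small2

/-!
Sums over coefficients of small radical (helper42).
-/

set_option autoImplicit false

namespace Pool.Agent.HP42.SQ

open Finset Pool.Agent.H785R2.ABC

/-- `∑_{s ≤ exp ((log X) ^ (2 + η))} rad(s) ^ (-1 - θ) ≤ X ^ ε` -/
theorem V_bound (θ ε : ℝ) (hθ0 : 0 < θ) (hε : 0 < ε) : ∃ η : ℝ, 0 < η ∧ ∃ L1 : ℝ, 1 ≤ L1 ∧
    ∀ X : ℝ, 1 ≤ X → L1 ≤ Real.log X →
    ∑ s ∈ Icc 1 ⌊Real.exp (Real.log X ^ (2 + η))⌋₊, ∏ p ∈ s.primeFactors, (p : ℝ) ^ (-(1 + θ)) ≤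
      X ^ ε := by
  obtain ⟨β, hβ⟩ : ∃ β : ℝ, β = 1 / (1 + θ / 2) := ⟨_, rfl⟩
  have hβ0 : 0 < β := by rw [hβ]; positivity
  have hβ1 : β ≤ 1 := by
    rw [hβ, div_le_one (by positivity)]; linarith
  have haβ : 1 < (1 + θ) * β := by
    rw [hβ, mul_one_div, lt_div_iff₀ (by positivity)]; linarith
  obtain ⟨η, hη⟩ : ∃ η : ℝ, η = θ / 4 := ⟨_, rfl⟩
  have hη0 : 0 < η := by rw [hη]; positivity
  have hγ : (1 + η) * β < 1 := by
    rw [hβ, mul_one_div, div_lt_one (by positivity), hη]; linarith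
  obtain ⟨Z, hZ⟩ : ∃ Z : ℝ, Z = ∑' n : ℕ, ((n : ℝ) ^ ((1 + θ) * β))⁻¹ := ⟨_, rfl⟩
  have hZ0 : 0 ≤ Z := by rw [hZ]; exact tsum_nonneg fun n => by positivity
  obtain ⟨W, hW⟩ : ∃ W : ℝ, W = (4 / ε) ^ β * Z / β * (2 / ε) := ⟨_, rfl⟩
  have hW0 : 0 ≤ W := by rw [hW]; positivity
  obtain ⟨γ, hγd⟩ : ∃ γ : ℝ, γ = 1 - (1 + η) * β := ⟨_, rfl⟩
  have hγ0 : 0 < γ := by rw [hγd]; linarith
  refine ⟨η, hη0, max 1 (W ^ (1 / γ)), le_max_left _ _, fun X hX hL => ?_⟩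
  obtain ⟨L, hLd⟩ : ∃ L, L = Real.log X := ⟨_, rfl⟩
  rw [← hLd] at hL ⊢
  have hL1 : 1 ≤ L := (le_max_left _ _).trans hL
  have hL0 : 0 < L := by linarith
  have hX0 : 0 < X := by linarith
  have hWL : W ≤ L ^ γ := by
    have h1 : (W ^ (1 / γ)) ^ γ ≤ L ^ γ :=
      Real.rpow_le_rpow (by positivity) ((le_max_right _ _).trans hL) hγ0.le
    rwa [← Real.rpow_mul hW0, one_div_mul_cancel hγ0.ne', Real.rpow_one] at h1
  obtain ⟨σ, hσ⟩ : ∃ σ : ℝ, σ = ε / 2 * L ^ (-(1 + η)) := ⟨_, rfl⟩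
  have hσ0 : 0 < σ := by rw [hσ]; positivity
  obtain ⟨N, hN⟩ : ∃ N : ℕ, N = ⌊Real.exp (L ^ (2 + η))⌋₊ := ⟨_, rfl⟩
  have hN1 : 1 ≤ N := by
    rw [hN]
    refine Nat.le_floor ?_
    rw [Nat.cast_one, Real.one_le_exp_iff]
    positivity
  have hlogN : Real.log N ≤ L ^ (2 + η) := by
    rw [Real.log_le_iff_le_exp (by exact_mod_cast hN1), hN]
    exact Nat.floor_le (Real.exp_pos _).le
  have hsum := Pool.Agent.TH867.SR.rankin_sum hσ0 hβ0 hβ1 haβ N hN1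
  rw [← hZ] at hsum
  have hexp : σ * Real.log N + (2 / σ) ^ β * Z / β ≤ ε * L := by
    have h1 : σ * Real.log N ≤ ε / 2 * L := by
      have h2 : σ * Real.log N ≤ σ * L ^ (2 + η) := mul_le_mul_of_nonneg_left hlogN hσ0.le
      have h3 : σ * L ^ (2 + η) = ε / 2 * L := by
        rw [hσ, mul_assoc, ← Real.rpow_add hL0]
        have : -(1 + η) + (2 + η) = 1 := by ring
        rw [this, Real.rpow_one]
      linarith
    have h4 : (2 / σ) ^ β * Z / β ≤ ε / 2 * L := by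
      have e1 : 2 / σ = 4 / ε * L ^ (1 + η) := by
        rw [hσ, Real.rpow_neg hL0.le]
        field_simp
        norm_num
      rw [e1, Real.mul_rpow (by positivity) (by positivity), ← Real.rpow_mul hL0.le]
      have e2 : L = L ^ ((1 + η) * β) * L ^ γ := by
        rw [← Real.rpow_add hL0, hγd]
        have : (1 + η) * β + (1 - (1 + η) * β) = 1 := by ring
        rw [this, Real.rpow_one]
      have e3 : (4 / ε) ^ β * L ^ ((1 + η) * β) * Z / β =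
          ε / 2 * (L ^ ((1 + η) * β) * W) := by
        rw [hW]
        field_simp
      rw [e3]
      conv_rhs => rw [e2]
      refine mul_le_mul_of_nonneg_left ?_ (by positivity)
      exact mul_le_mul_of_nonneg_left hWL (by positivity)
    linarith
  rw [← hN]
  refine hsum.trans ?_
  rw [Real.rpow_def_of_pos hX0, ← hLd]
  exact Real.exp_le_exp.2 (by linarith)

theorem prod_neg (a : ℝ) (s : ℕ) :
    ∏ p ∈ s.primeFactors, (p : ℝ) ^ (-a) = (rad s : ℝ) ^ (-a) := by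
  rw [Real.finsetProd_rpow _ _ fun p _ => Nat.cast_nonneg p, rad]
  push_cast
  rfl

/-- the weighted sum -/
theorem weighted {θ : ℝ} (hθ : 0 < θ) {H N : ℕ} {Y V : ℝ} (hY : 1 ≤ Y) (hN : 1 ≤ N)
    (hV : ∑ s ∈ Icc 1 H, ∏ p ∈ s.primeFactors, (p : ℝ) ^ (-(1 + θ)) ≤ V)
    (S : Finset (ℕ × ℕ × ℕ)) (hS : ∀ x ∈ S, x.1 ∈ Icc 1 H ∧ x.2.1 ∈ Icc 1 H ∧ x.2.2 ∈ Icc 1 H ∧
      ((rad x.1 * rad x.2.1 * rad x.2.2 : ℕ) : ℝ) ≤ Y) :
    ∑ x ∈ S, (1 + ((N : ℝ) / ((x.1 * x.2.1 * x.2.2 : ℕ) : ℝ)) ^ (1 / 3 : ℝ)) ≤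
      Y ^ θ * (Y + (N : ℝ) ^ (1 / 3 : ℝ) * Y ^ (2 / 3 : ℝ)) * V ^ 3 := by
  classical
  have hY0 : 0 < Y := by linarith
  have hN0 : (0 : ℝ) < N := by exact_mod_cast hN
  obtain ⟨g, hg⟩ : ∃ g : ℕ → ℝ, g = fun s : ℕ => ∏ p ∈ s.primeFactors, ((p : ℕ) : ℝ) ^ (-(1 + θ)) :=
    ⟨_, rfl⟩
  have hg0 : ∀ s, 0 ≤ g s := by
    intro s
    rw [hg]
    exact Finset.prod_nonneg fun p _ => by positivity
  have hgV : ∑ s ∈ Icc 1 H, g s ≤ V := by rw [hg]; exact hV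
  have hgV0 : 0 ≤ ∑ s ∈ Icc 1 H, g s := sum_nonneg fun s _ => hg0 s
  have hV0 : 0 ≤ V := hgV0.trans hgV
  obtain ⟨C, hC⟩ : ∃ C : ℝ, C = Y ^ θ * (Y + (N : ℝ) ^ (1 / 3 : ℝ) * Y ^ (2 / 3 : ℝ)) := ⟨_, rfl⟩
  have hC0 : 0 ≤ C := by rw [hC]; positivity
  rw [← hC]
  have hterm : ∀ x ∈ S, (1 + ((N : ℝ) / ((x.1 * x.2.1 * x.2.2 : ℕ) : ℝ)) ^ (1 / 3 : ℝ)) ≤
      C * (g x.1 * (g x.2.1 * g x.2.2)) := by
    intro x hx
    obtain ⟨a0, a1, a2, a3⟩ := hS x hx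
    rw [mem_Icc] at a0 a1 a2
    obtain ⟨r, hr⟩ : ∃ r : ℕ, r = rad x.1 * rad x.2.1 * rad x.2.2 := ⟨_, rfl⟩
    rw [← hr] at a3
    have hr1 : 1 ≤ r := by
      rw [hr]
      exact Nat.mul_pos (Nat.mul_pos (rad_pos' _) (rad_pos' _)) (rad_pos' _)
    have hr0 : (0 : ℝ) < r := by exact_mod_cast hr1
    have hrx : r ≤ x.1 * x.2.1 * x.2.2 := by
      rw [hr]
      exact Nat.mul_le_mul (Nat.mul_le_mul (rad_le_self a0.1) (rad_le_self a1.1))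
        (rad_le_self a2.1)
    have hrxr : (r : ℝ) ≤ ((x.1 * x.2.1 * x.2.2 : ℕ) : ℝ) := by exact_mod_cast hrx
    have hgr : g x.1 * (g x.2.1 * g x.2.2) = (r : ℝ) ^ (-(1 + θ)) := by
      rw [hg]
      simp only []
      rw [prod_neg, prod_neg, prod_neg, ← Real.mul_rpow (by positivity) (by positivity),
        ← Real.mul_rpow (by positivity) (by positivity), hr]
      push_cast
      ring_nf
    rw [hgr]
    have hYr : 1 ≤ Y / r := by rw [one_le_div hr0]; exact a3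
    have e1 : 1 ≤ Y ^ θ * Y * (r : ℝ) ^ (-(1 + θ)) := by
      have h1 : 1 ≤ (Y / r) ^ (1 + θ) := Real.one_le_rpow hYr (by positivity)
      have h2 : (Y / r) ^ (1 + θ) = Y ^ θ * Y * (r : ℝ) ^ (-(1 + θ)) := by
        rw [Real.div_rpow hY0.le hr0.le, Real.rpow_neg hr0.le, Real.rpow_add hY0, Real.rpow_one,
          div_eq_mul_inv]
        ring
      rw [← h2]
      exact h1
    have e2 : ((N : ℝ) / ((x.1 * x.2.1 * x.2.2 : ℕ) : ℝ)) ^ (1 / 3 : ℝ) ≤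
        Y ^ θ * ((N : ℝ) ^ (1 / 3 : ℝ) * Y ^ (2 / 3 : ℝ)) * (r : ℝ) ^ (-(1 + θ)) := by
      calc ((N : ℝ) / ((x.1 * x.2.1 * x.2.2 : ℕ) : ℝ)) ^ (1 / 3 : ℝ) ≤
          ((N : ℝ) / r) ^ (1 / 3 : ℝ) :=
            Real.rpow_le_rpow (by positivity)
              (div_le_div_of_nonneg_left hN0.le hr0 hrxr) (by norm_num)
        _ ≤ ((N : ℝ) / r) ^ (1 / 3 : ℝ) * (Y / r) ^ (2 / 3 + θ) := by
            refine le_mul_of_one_le_right (by positivity) (Real.one_le_rpow hYr (by positivity))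
        _ = _ := by
            rw [Real.div_rpow hN0.le hr0.le, Real.div_rpow hY0.le hr0.le, Real.rpow_add hY0]
            have h3 : (r : ℝ) ^ (-(1 + θ)) = ((r : ℝ) ^ (1 / 3 : ℝ))⁻¹ *
                ((r : ℝ) ^ (2 / 3 + θ))⁻¹ := by
              rw [← Real.rpow_neg hr0.le, ← Real.rpow_neg hr0.le, ← Real.rpow_add hr0]
              congr 1
              ring
            rw [h3]
            field_simp
    calc _ ≤ Y ^ θ * Y * (r : ℝ) ^ (-(1 + θ)) +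
          Y ^ θ * ((N : ℝ) ^ (1 / 3 : ℝ) * Y ^ (2 / 3 : ℝ)) * (r : ℝ) ^ (-(1 + θ)) :=
          add_le_add e1 e2
      _ = C * (r : ℝ) ^ (-(1 + θ)) := by rw [hC]; ring
  refine (sum_le_sum hterm).trans ?_
  rw [← mul_sum]
  refine mul_le_mul_of_nonneg_left ?_ hC0
  have hsub : S ⊆ (Icc 1 H) ×ˢ ((Icc 1 H) ×ˢ (Icc 1 H)) := by
    intro x hx
    obtain ⟨a0, a1, a2, -⟩ := hS x hx
    exact mem_product.2 ⟨a0, mem_product.2 ⟨a1, a2⟩⟩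
  calc ∑ x ∈ S, g x.1 * (g x.2.1 * g x.2.2)
      ≤ ∑ x ∈ (Icc 1 H) ×ˢ ((Icc 1 H) ×ˢ (Icc 1 H)), g x.1 * (g x.2.1 * g x.2.2) :=
        sum_le_sum_of_subset_of_nonneg hsub fun x _ _ =>
          mul_nonneg (hg0 _) (mul_nonneg (hg0 _) (hg0 _))
    _ = (∑ s ∈ Icc 1 H, g s) * ((∑ s ∈ Icc 1 H, g s) * (∑ s ∈ Icc 1 H, g s)) := by
        rw [sum_product, sum_mul]
        refine sum_congr rfl fun a _ => ?_
        dsimp only
        rw [← mul_sum, sum_product, sum_mul_sum]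
    _ = (∑ s ∈ Icc 1 H, g s) ^ 3 := by ring
    _ ≤ V ^ 3 := pow_le_pow_left₀ hgV0 hgV 3

end Pool.Agent.HP42.SQ
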